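import Mathlib

set_option autoImplicit false

open Set Filter Topology MeasureTheory
open scoped ENNReal NNReal

namespace Pool.Agent.Lib_helper40

/-- Three-dimensional Euclidean space. -/
abbrev E3 := EuclideanSpace ℝ (Fin 3)
/-- Two-dimensional Euclidean space. -/
abbrev E2 := EuclideanSpace ℝ (Fin 2)

/-- comparison of Hausdorff measures of two parametrised sets -/
theorem hausdorff_compare {X Y Z : Type*} [EMetricSpace Y] [EMetricSpace Z]
    [MeasurableSpace Y] [BorelSpace Y] [MeasurableSpace Z] [BorelSpace Z]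
    (f : X → Y) (g : X → Z) (D : Set X) (K : ℝ≥0)
    (h : ∀ x ∈ D, ∀ y ∈ D, edist (f x) (f y) ≤ K * edist (g x) (g y)) {d : ℝ} (hd : 0 ≤ d) :
    μH[d] (f '' D) ≤ (K : ℝ≥0∞) ^ d * μH[d] (g '' D) := by
  classical
  rcases D.eq_empty_or_nonempty with rfl | ⟨x0, hx0⟩
  · simp
  have : Nonempty X := ⟨x0⟩
  set φ : Z → Y := fun z => f (Function.invFunOn g D z) with hφ
  have hinv : ∀ x ∈ D, Function.invFunOn g D (g x) ∈ D ∧ g (Function.invFunOn g D (g x)) = g x := by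
    intro x hx
    exact ⟨Function.invFunOn_mem ⟨x, hx, rfl⟩, Function.invFunOn_eq ⟨x, hx, rfl⟩⟩
  have hφf : ∀ x ∈ D, φ (g x) = f x := by
    intro x hx
    obtain ⟨h1, h2⟩ := hinv x hx
    have := h _ h1 _ hx
    rw [h2, edist_self, mul_zero] at this
    exact edist_le_zero.1 this
  have hlip : LipschitzOnWith K φ (g '' D) := by
    rintro _ ⟨x, hx, rfl⟩ _ ⟨y, hy, rfl⟩
    rw [hφf x hx, hφf y hy]
    exact h x hx y hy
  have himg : f '' D = φ '' (g '' D) := by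
    ext y
    constructor
    · rintro ⟨x, hx, rfl⟩
      exact ⟨g x, ⟨x, hx, rfl⟩, hφf x hx⟩
    · rintro ⟨_, ⟨x, hx, rfl⟩, rfl⟩
      exact ⟨x, hx, (hφf x hx).symm⟩
  rw [himg]
  exact hlip.hausdorffMeasure_image_le hd

/-- standard basis vectors of the plane -/
noncomputable def b0 : E2 := EuclideanSpace.single 0 1
noncomputable def b1 : E2 := EuclideanSpace.single 1 1

theorem e2_decomp (w : E2) : w = w 0 • b0 + w 1 • b1 := by
  ext i
  fin_cases i <;> simp [b0, b1]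

/-- An injective linear map from the plane to space has a square model. -/
theorem exists_square_model (M : E2 →L[ℝ] E3) (hM : Function.Injective M) :
    ∃ A : E2 →ₗ[ℝ] E2, (∀ w, ‖A w‖ = ‖M w‖) ∧
      (LinearMap.det A) ^ 2 = ‖M b0‖ ^ 2 * ‖M b1‖ ^ 2 - (inner ℝ (M b0) (M b1)) ^ 2 := by
  set a := ‖M b0‖ with ha
  have ha0 : 0 < a := by
    rw [ha, norm_pos_iff]
    intro h0
    have : b0 = 0 := hM (by rw [h0, map_zero])
    have h1 := congrArg (fun v : E2 => v 0) this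
    simp [b0] at h1
  set ip : ℝ := inner ℝ (M b0) (M b1) with hip
  set p := ip / a with hp
  have hcs : p ^ 2 ≤ ‖M b1‖ ^ 2 := by
    have h1 : |ip| ≤ ‖M b0‖ * ‖M b1‖ := abs_real_inner_le_norm _ _
    have h2 : ip ^ 2 ≤ (a * ‖M b1‖) ^ 2 := sq_le_sq' (by linarith [(abs_le.1 h1).1]) (abs_le.1 h1).2
    rw [hp, div_pow, div_le_iff₀ (by positivity)]
    nlinarith
  set q := Real.sqrt (‖M b1‖ ^ 2 - p ^ 2) with hq
  have hq2 : q ^ 2 = ‖M b1‖ ^ 2 - p ^ 2 := Real.sq_sqrt (by linarith)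
  have hap : a * p = ip := by rw [hp]; field_simp
  refine ⟨Matrix.toEuclideanLin !![a, p; 0, q], ?_, ?_⟩
  · intro w
    have h1 : ‖Matrix.toEuclideanLin !![a, p; 0, q] w‖ ^ 2 = ‖M w‖ ^ 2 := by
      have e1 : ‖Matrix.toEuclideanLin !![a, p; 0, q] w‖ ^ 2
          = (a * w 0 + p * w 1) ^ 2 + (q * w 1) ^ 2 := by
        rw [EuclideanSpace.norm_sq_eq, Fin.sum_univ_two]
        simp [Matrix.toEuclideanLin, Matrix.toLpLin_apply, dotProduct,
          Fin.sum_univ_two]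
        rw [← abs_mul, sq_abs]
      have e2 : ‖M w‖ ^ 2 = (w 0) ^ 2 * a ^ 2 + 2 * (w 0 * w 1 * ip) + (w 1) ^ 2 * ‖M b1‖ ^ 2 := by
        conv_lhs => rw [e2_decomp w, map_add, map_smul, map_smul]
        rw [norm_add_sq_real, norm_smul, norm_smul, inner_smul_left, inner_smul_right]
        simp only [mul_pow, Real.norm_eq_abs, sq_abs, ← ha, ← hip]
        simp only [conj_trivial]
        ring
      rw [e1, e2]
      have : (a * w 0 + p * w 1) ^ 2 + (q * w 1) ^ 2 =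
        (w 0)^2 * a ^ 2 + 2 * (w 0 * w 1 * (a * p)) + (w 1) ^ 2 * (p ^ 2 + q ^ 2) := by ring
      rw [this, hap, hq2]
      ring
    have h2 := (sq_eq_sq₀ (norm_nonneg _) (norm_nonneg _)).1 h1
    exact h2
  · have hdet : LinearMap.det (Matrix.toEuclideanLin !![a, p; 0, q]) = a * q := by
      rw [Matrix.toEuclideanLin_eq_toLin, LinearMap.det_toLin]
      simp [Matrix.det_fin_two]
    rw [hdet, mul_pow, hq2]
    have : a ^ 2 * (‖M b1‖ ^ 2 - p ^ 2) = a ^ 2 * ‖M b1‖ ^ 2 - (a * p) ^ 2 := by ring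
    rw [this, hap]


theorem hausdorff_ball_pos (s : E2) {r : ℝ} (hr : 0 < r) : 0 < μH[2] (Metric.ball s r) := by
  have h : (μH[(Module.finrank ℝ E2 : ℝ)] : Measure E2).IsAddHaarMeasure :=
    isAddHaarMeasure_hausdorffMeasure
  have h2 : (Module.finrank ℝ E2 : ℝ) = 2 := by simp
  rw [h2] at h
  exact Metric.measure_ball_pos _ _ hr

theorem hausdorff_bounded_lt_top {S : Set E2} (hS : Bornology.IsBounded S) :
    μH[2] S < ∞ := by
  have h : (μH[(Module.finrank ℝ E2 : ℝ)] : Measure E2).IsAddHaarMeasure :=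
    isAddHaarMeasure_hausdorffMeasure
  have h2 : (Module.finrank ℝ E2 : ℝ) = 2 := by simp
  rw [h2] at h
  exact hS.measure_lt_top

theorem hausdorff_image_linear (A : E2 →ₗ[ℝ] E2) (S : Set E2) :
    μH[2] (A '' S) = ENNReal.ofReal |LinearMap.det A| * μH[2] S := by
  have h : (μH[(Module.finrank ℝ E2 : ℝ)] : Measure E2).IsAddHaarMeasure :=
    isAddHaarMeasure_hausdorffMeasure
  have h2 : (Module.finrank ℝ E2 : ℝ) = 2 := by simp
  rw [h2] at h
  exact Measure.addHaar_image_linearMap _ A S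

/-- Blow-up estimate for the area of a surface parametrised by a map that is strictly
differentiable at a point. -/
theorem area_blowup {γ : E2 → E3} {M : E2 →L[ℝ] E3} {s : E2} (hγ : HasStrictFDerivAt γ M s)
    (hM : Function.Injective M) {κ : ℝ} (hκ : 0 ≤ κ)
    (hκ2 : κ ^ 2 = ‖M b0‖ ^ 2 * ‖M b1‖ ^ 2 - (inner ℝ (M b0) (M b1)) ^ 2)
    {ε : ℝ} (hε : 0 < ε) (hε1 : ε < 1) :
    ∃ r0 > 0, ∀ r, 0 < r → r < r0 →
      μH[2] (γ '' Metric.ball s r) ≤ ENNReal.ofReal ((1 + ε) ^ 2 * κ) * μH[2] (Metric.ball s r) ∧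
      ENNReal.ofReal ((1 - ε) ^ 2 * κ) * μH[2] (Metric.ball s r) ≤
        μH[2] (γ '' Metric.ball s r) := by
  obtain ⟨A, hA, hdet⟩ := exists_square_model M hM
  have hdetκ : |LinearMap.det A| = κ := by
    rw [← Real.sqrt_sq_eq_abs, hdet, ← hκ2, Real.sqrt_sq hκ]
  obtain ⟨K, hK, hKanti⟩ := (LinearMap.injective_iff_antilipschitz (f := (M : E2 →ₗ[ℝ] E3))).1 hM
  have hKlow : ∀ w : E2, ‖w‖ ≤ K * ‖M w‖ := by
    intro w
    have := hKanti.le_mul_dist w 0
    simpa using this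
  have hK' : (0 : ℝ) < K := hK
  -- strict differentiability
  have hlit := hγ.isLittleO
  rw [Asymptotics.isLittleO_iff] at hlit
  have h1 := hlit (show (0:ℝ) < ε / K by positivity)
  obtain ⟨r0, hr0, hball⟩ := Metric.eventually_nhds_iff.1 h1
  have hmain : ∀ x y : E2, dist x s < r0 → dist y s < r0 →
      ‖γ x - γ y - M (x - y)‖ ≤ ε * ‖M (x - y)‖ := by
    intro x y hx hy
    have := hball (y := (x, y)) (by rw [Prod.dist_eq]; exact max_lt hx hy)
    simp only at this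
    calc ‖γ x - γ y - M (x - y)‖ ≤ ε / K * ‖x - y‖ := this
      _ ≤ ε / K * (K * ‖M (x - y)‖) := mul_le_mul_of_nonneg_left (hKlow _) (by positivity)
      _ = ε * ‖M (x - y)‖ := by field_simp
  have hup : ∀ x y : E2, dist x s < r0 → dist y s < r0 →
      dist (γ x) (γ y) ≤ (1 + ε) * dist (A x) (A y) := by
    intro x y hx hy
    have h2 := hmain x y hx hy
    rw [dist_eq_norm, dist_eq_norm, ← map_sub, hA]
    have h3 : ‖γ x - γ y‖ ≤ ‖γ x - γ y - M (x - y)‖ + ‖M (x - y)‖ := by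
      have := norm_add_le (γ x - γ y - M (x - y)) (M (x - y))
      simpa using this
    linarith
  have hlow : ∀ x y : E2, dist x s < r0 → dist y s < r0 →
      (1 - ε) * dist (A x) (A y) ≤ dist (γ x) (γ y) := by
    intro x y hx hy
    have h2 := hmain x y hx hy
    rw [dist_eq_norm, dist_eq_norm, ← map_sub, hA]
    have h3 : ‖M (x - y)‖ ≤ ‖γ x - γ y - M (x - y)‖ + ‖γ x - γ y‖ := by
      have := norm_sub_le (γ x - γ y) (γ x - γ y - M (x - y))
      have e : (γ x - γ y) - (γ x - γ y - M (x - y)) = M (x - y) := by abel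
      rw [e] at this
      linarith
    linarith
  refine ⟨r0, hr0, fun r hr hrr => ⟨?_, ?_⟩⟩
  · have hc := hausdorff_compare γ A (Metric.ball s r) (Real.toNNReal (1 + ε)) (by
      intro x hx y hy
      have h2 := hup x y (lt_trans hx hrr) (lt_trans hy hrr)
      rw [edist_dist, edist_dist, ← ENNReal.ofReal_coe_nnreal, ← ENNReal.ofReal_mul (by positivity),
        Real.coe_toNNReal _ (by positivity)]
      exact ENNReal.ofReal_le_ofReal h2) (show (0:ℝ) ≤ 2 by norm_num)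
    refine hc.trans ?_
    rw [hausdorff_image_linear, hdetκ, ← mul_assoc]
    gcongr
    rw [← ENNReal.ofReal_coe_nnreal, Real.coe_toNNReal _ (by positivity)]
    rw [ENNReal.ofReal_rpow_of_nonneg (by positivity) (by norm_num),
      ← ENNReal.ofReal_mul (by positivity)]
    apply le_of_eq
    congr 2
    norm_num
  · have h1ε : 0 < 1 - ε := by linarith
    have hc := hausdorff_compare A γ (Metric.ball s r) (Real.toNNReal (1 - ε)⁻¹) (by
      intro x hx y hy
      have h2 := hlow x y (lt_trans hx hrr) (lt_trans hy hrr)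
      rw [edist_dist, edist_dist, ← ENNReal.ofReal_coe_nnreal, ← ENNReal.ofReal_mul (by positivity),
        Real.coe_toNNReal _ (by positivity)]
      apply ENNReal.ofReal_le_ofReal
      rw [inv_mul_eq_div, le_div_iff₀ h1ε]
      linarith) (show (0:ℝ) ≤ 2 by norm_num)
    rw [hausdorff_image_linear, hdetκ] at hc
    rw [← ENNReal.ofReal_coe_nnreal, Real.coe_toNNReal _ (by positivity)] at hc
    rw [ENNReal.ofReal_rpow_of_nonneg (by positivity) (by norm_num)] at hc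
    have e : ((1 - ε)⁻¹ : ℝ) ^ (2:ℝ) = ((1 - ε) ^ 2)⁻¹ := by
      norm_num
    rw [e] at hc
    have hpos : (0:ℝ) < (1 - ε) ^ 2 := by positivity
    calc ENNReal.ofReal ((1 - ε) ^ 2 * κ) * μH[2] (Metric.ball s r)
        = ENNReal.ofReal ((1 - ε) ^ 2) * (ENNReal.ofReal κ * μH[2] (Metric.ball s r)) := by
          rw [ENNReal.ofReal_mul hpos.le, mul_assoc]
      _ ≤ ENNReal.ofReal ((1 - ε) ^ 2) * (ENNReal.ofReal ((1 - ε) ^ 2)⁻¹ *
            μH[2] (γ '' Metric.ball s r)) := by gcongr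
      _ = μH[2] (γ '' Metric.ball s r) := by
          rw [← mul_assoc, ← ENNReal.ofReal_mul hpos.le, mul_inv_cancel₀ hpos.ne',
            ENNReal.ofReal_one, one_mul]

/-- If two surfaces, each parametrised by a map strictly differentiable at `s`, have the same
area over small balls around `s`, then the Jacobians agree. -/
theorem jacobian_eq {γ₁ γ₂ : E2 → E3} {M₁ M₂ : E2 →L[ℝ] E3} {s : E2}
    (h₁ : HasStrictFDerivAt γ₁ M₁ s) (h₂ : HasStrictFDerivAt γ₂ M₂ s)
    (i₁ : Function.Injective M₁) (i₂ : Function.Injective M₂) {κ₁ κ₂ : ℝ}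
    (hκ₁ : 0 ≤ κ₁) (hκ₂ : 0 ≤ κ₂)
    (e₁ : κ₁ ^ 2 = ‖M₁ b0‖ ^ 2 * ‖M₁ b1‖ ^ 2 - (inner ℝ (M₁ b0) (M₁ b1)) ^ 2)
    (e₂ : κ₂ ^ 2 = ‖M₂ b0‖ ^ 2 * ‖M₂ b1‖ ^ 2 - (inner ℝ (M₂ b0) (M₂ b1)) ^ 2)
    (hμ : ∀ r > 0, μH[2] (γ₁ '' Metric.ball s r) = μH[2] (γ₂ '' Metric.ball s r)) :
    κ₁ ≤ κ₂ := by
  have key : ∀ ε : ℝ, 0 < ε → ε < 1 → (1 - ε) ^ 2 * κ₁ ≤ (1 + ε) ^ 2 * κ₂ := by
    intro ε hε hε1
    obtain ⟨r1, hr1, H1⟩ := area_blowup h₁ i₁ hκ₁ e₁ hε hε1
    obtain ⟨r2, hr2, H2⟩ := area_blowup h₂ i₂ hκ₂ e₂ hε hε1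
    set r := min r1 r2 / 2 with hr
    have hrpos : 0 < r := by positivity
    have hlt1 : r < r1 := by
      have : min r1 r2 ≤ r1 := min_le_left _ _
      have h0 : 0 < min r1 r2 := by positivity
      linarith
    have hlt2 : r < r2 := by
      have : min r1 r2 ≤ r2 := min_le_right _ _
      have h0 : 0 < min r1 r2 := by positivity
      linarith
    have A1 := (H1 r hrpos hlt1).2
    have A2 := (H2 r hrpos hlt2).1
    rw [hμ r hrpos] at A1
    have A3 := A1.trans A2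
    have hm0 : μH[2] (Metric.ball s r) ≠ 0 := (hausdorff_ball_pos s hrpos).ne'
    have hmt : μH[2] (Metric.ball s r) ≠ ∞ :=
      (hausdorff_bounded_lt_top Metric.isBounded_ball).ne
    have A4 := (ENNReal.mul_le_mul_iff_left hm0 hmt).1 A3
    exact (ENNReal.ofReal_le_ofReal_iff (by positivity)).1 A4
  have hlim1 : Tendsto (fun ε : ℝ => (1 - ε) ^ 2 * κ₁) (𝓝[>] 0) (𝓝 ((1 - 0) ^ 2 * κ₁)) := by
    apply Tendsto.mono_left _ nhdsWithin_le_nhds
    apply Continuous.tendsto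
    fun_prop
  have hlim2 : Tendsto (fun ε : ℝ => (1 + ε) ^ 2 * κ₂) (𝓝[>] 0) (𝓝 ((1 + 0) ^ 2 * κ₂)) := by
    apply Tendsto.mono_left _ nhdsWithin_le_nhds
    apply Continuous.tendsto
    fun_prop
  have := le_of_tendsto_of_tendsto hlim1 hlim2 (by
    filter_upwards [Ioo_mem_nhdsGT (show (0:ℝ) < 1 from one_pos)] with ε hε
    exact key ε hε.1 hε.2)
  simpa using this

end Pool.Agent.Lib_helper40
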