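import Mathlib

set_option autoImplicit false

open Set Filter Topology Metric

namespace Pool.Agent.Lib_helper40

/-- Transfer of an involution from a convex body (given by an asymmetric norm `p`)
to the unit ball. -/
theorem body_transfer {X : Type*} [NormedAddCommGroup X] [NormedSpace ℝ X] (p : X → ℝ)
    {c L : ℝ} (hc : 0 < c) (hL : 0 < L)
    (hpos : ∀ x, c * ‖x‖ ≤ p x) (hle : ∀ x, p x ≤ L * ‖x‖)
    (hhom : ∀ t : ℝ, 0 ≤ t → ∀ x, p (t • x) = t * p x)
    (hlip : ∀ x y, |p x - p y| ≤ L * ‖x - y‖)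
    (Ψ : X → X) (hmaps : ∀ x, p x ≤ 1 → p (Ψ x) ≤ 1)
    (huc : UniformContinuousOn Ψ {x | p x ≤ 1})
    (hinv : ∀ x, p x ≤ 1 → Ψ (Ψ x) = x)
    {δ : ℝ} (hδ : 0 < δ) (hdisp : ∀ x, p x ≤ 1 → δ ≤ ‖Ψ x - x‖) :
    ∃ f : X → X, MapsTo f (closedBall 0 1) (closedBall 0 1) ∧
      UniformContinuousOn f (closedBall 0 1) ∧
      (∀ x ∈ closedBall (0 : X) 1, f (f x) = x) ∧
      ∃ δ' > 0, ∀ x ∈ closedBall (0 : X) 1, δ' ≤ ‖f x - x‖ := by
  have p0 : p 0 = 0 := by
    have h1 := hpos 0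
    have h2 := hle 0
    rw [norm_zero, mul_zero] at h1 h2
    exact le_antisymm h2 h1
  have ppos : ∀ x, x ≠ 0 → 0 < p x := fun x hx =>
    lt_of_lt_of_le (mul_pos hc (norm_pos_iff.2 hx)) (hpos x)
  set a : X → X := fun x => (‖x‖ / p x) • x with ha
  set b : X → X := fun x => (p x / ‖x‖) • x with hb
  have a0 : a 0 = 0 := by simp [ha]
  have b0 : b 0 = 0 := by simp [hb]
  have pa : ∀ x, p (a x) = ‖x‖ := by
    intro x
    by_cases hx : x = 0
    · rw [hx, a0, p0, norm_zero]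
    · have := ppos x hx
      rw [ha]
      simp only
      rw [hhom _ (by positivity)]
      field_simp
  have nb : ∀ x, ‖b x‖ = p x := by
    intro x
    by_cases hx : x = 0
    · rw [hx, b0, p0, norm_zero]
    · have h1 := ppos x hx
      have h2 := norm_pos_iff.2 hx
      rw [hb]
      simp only
      rw [norm_smul, Real.norm_of_nonneg (by positivity)]
      field_simp
  have ba : ∀ x, b (a x) = x := by
    intro x
    by_cases hx : x = 0
    · rw [hx, a0, b0]
    · have h1 := ppos x hx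
      have h2 := norm_pos_iff.2 hx
      have h3 : ‖a x‖ = ‖x‖ / p x * ‖x‖ := by
        rw [ha]; simp only
        rw [norm_smul, Real.norm_of_nonneg (by positivity)]
      have h4 : b (a x) = (p (a x) / ‖a x‖) • (a x) := rfl
      rw [h4, pa, h3]
      have h5 : a x = (‖x‖ / p x) • x := rfl
      rw [h5, smul_smul]
      have : ‖x‖ / (‖x‖ / p x * ‖x‖) * (‖x‖ / p x) = 1 := by field_simp
      rw [this, one_smul]
  have ab : ∀ x, a (b x) = x := by
    intro x
    by_cases hx : x = 0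
    · rw [hx, b0, a0]
    · have h1 := ppos x hx
      have h2 := norm_pos_iff.2 hx
      have h3 : p (b x) = p x / ‖x‖ * p x := by
        rw [hb]; simp only
        rw [hhom _ (by positivity)]
      have h4 : a (b x) = (‖b x‖ / p (b x)) • (b x) := rfl
      rw [h4, nb, h3]
      have h5 : b x = (p x / ‖x‖) • x := rfl
      rw [h5, smul_smul]
      have : p x / (p x / ‖x‖ * p x) * (p x / ‖x‖) = 1 := by field_simp
      rw [this, one_smul]
  -- Lipschitz bounds
  have blip : ∀ x y, ‖b x - b y‖ ≤ 3 * L * ‖x - y‖ := by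
    intro x y
    by_cases hy : y = 0
    · rw [hy, b0, sub_zero, sub_zero, nb]
      have := hle x
      nlinarith [mul_nonneg hL.le (norm_nonneg x)]
    by_cases hx : x = 0
    · rw [hx, b0, zero_sub, zero_sub, norm_neg, norm_neg, nb]
      have := hle y
      nlinarith [mul_nonneg hL.le (norm_nonneg y)]
    have h1 := norm_pos_iff.2 hx
    have h2 := norm_pos_iff.2 hy
    have hpx := ppos x hx
    have hpy := ppos y hy
    have e : b x - b y = ((p x - p y) / ‖x‖) • x
        + (p y / ‖y‖) • (x - y) + (p y * (‖y‖ - ‖x‖) / (‖x‖ * ‖y‖)) • x := by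
      have e1 : b x = (p x / ‖x‖) • x := rfl
      have e2 : b y = (p y / ‖y‖) • y := rfl
      rw [e1, e2, smul_sub]
      have e3 : (p x / ‖x‖) = (p x - p y) / ‖x‖ + p y / ‖y‖
          + (p y * (‖y‖ - ‖x‖) / (‖x‖ * ‖y‖)) := by field_simp; ring
      rw [e3]
      module
    rw [e]
    have n1 : ‖((p x - p y) / ‖x‖) • x‖ ≤ L * ‖x - y‖ := by
      rw [norm_smul, Real.norm_eq_abs, abs_div, abs_norm, div_mul_cancel₀ _ h1.ne']
      exact hlip x y
    have n2 : ‖(p y / ‖y‖) • (x - y)‖ ≤ L * ‖x - y‖ := by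
      rw [norm_smul, Real.norm_of_nonneg (by positivity)]
      apply mul_le_mul_of_nonneg_right _ (norm_nonneg _)
      rw [div_le_iff₀ h2]
      exact hle y
    have n3 : ‖(p y * (‖y‖ - ‖x‖) / (‖x‖ * ‖y‖)) • x‖ ≤ L * ‖x - y‖ := by
      rw [norm_smul, Real.norm_eq_abs, abs_div, abs_mul, abs_of_pos hpy, abs_mul, abs_norm,
        abs_norm]
      have h3 : |‖y‖ - ‖x‖| ≤ ‖x - y‖ := by
        rw [abs_sub_comm]; exact abs_norm_sub_norm_le x y
      have h4 : p y * |‖y‖ - ‖x‖| / (‖x‖ * ‖y‖) * ‖x‖ = (p y / ‖y‖) * |‖y‖ - ‖x‖| := by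
        field_simp
      rw [h4]
      have h5 : p y / ‖y‖ ≤ L := by
        rw [div_le_iff₀ h2]; exact hle y
      exact mul_le_mul h5 h3 (abs_nonneg _) hL.le
    calc ‖((p x - p y) / ‖x‖) • x + (p y / ‖y‖) • (x - y)
          + (p y * (‖y‖ - ‖x‖) / (‖x‖ * ‖y‖)) • x‖
        ≤ ‖((p x - p y) / ‖x‖) • x + (p y / ‖y‖) • (x - y)‖
          + ‖(p y * (‖y‖ - ‖x‖) / (‖x‖ * ‖y‖)) • x‖ := norm_add_le _ _
      _ ≤ ‖((p x - p y) / ‖x‖) • x‖ + ‖(p y / ‖y‖) • (x - y)‖
          + ‖(p y * (‖y‖ - ‖x‖) / (‖x‖ * ‖y‖)) • x‖ := by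
            gcongr; exact norm_add_le _ _
      _ ≤ L * ‖x - y‖ + L * ‖x - y‖ + L * ‖x - y‖ := by gcongr
      _ = 3 * L * ‖x - y‖ := by ring
  set Ka : ℝ := 1 / c * (2 + L / c) with hKa
  have hKapos : 0 < Ka := by positivity
  have alip : ∀ x y, ‖a x - a y‖ ≤ Ka * ‖x - y‖ := by
    have anorm : ∀ x, ‖a x‖ ≤ 1 / c * ‖x‖ := by
      intro x
      by_cases hx : x = 0
      · rw [hx, a0]; simp
      have h1 := norm_pos_iff.2 hx
      have hpx := ppos x hx
      have : ‖a x‖ = ‖x‖ / p x * ‖x‖ := by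
        rw [ha]; simp only
        rw [norm_smul, Real.norm_of_nonneg (by positivity)]
      rw [this]
      apply mul_le_mul_of_nonneg_right _ (norm_nonneg _)
      rw [div_le_div_iff₀ hpx hc]
      linarith [hpos x]
    have hone : 1 / c ≤ Ka := by
      rw [hKa]
      have : (1:ℝ) ≤ 2 + L / c := by
        have : 0 < L / c := by positivity
        linarith
      have hc' : 0 < 1 / c := by positivity
      nlinarith
    intro x y
    by_cases hy : y = 0
    · rw [hy, a0, sub_zero, sub_zero]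
      exact (anorm x).trans (mul_le_mul_of_nonneg_right hone (norm_nonneg _))
    by_cases hx : x = 0
    · rw [hx, a0, zero_sub, zero_sub, norm_neg, norm_neg]
      exact (anorm y).trans (mul_le_mul_of_nonneg_right hone (norm_nonneg _))
    have h1 := norm_pos_iff.2 hx
    have h2 := norm_pos_iff.2 hy
    have hpx := ppos x hx
    have hpy := ppos y hy
    have e : a x - a y = ((‖x‖ - ‖y‖) / p x) • x
        + (‖y‖ / p y) • (x - y) + (‖y‖ * (p y - p x) / (p x * p y)) • x := by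
      have e1 : a x = (‖x‖ / p x) • x := rfl
      have e2 : a y = (‖y‖ / p y) • y := rfl
      rw [e1, e2, smul_sub]
      have e3 : (‖x‖ / p x) = (‖x‖ - ‖y‖) / p x + ‖y‖ / p y
          + (‖y‖ * (p y - p x) / (p x * p y)) := by field_simp; ring
      rw [e3]
      module
    rw [e]
    have hxp : ‖x‖ / p x ≤ 1 / c := by
      rw [div_le_div_iff₀ hpx hc]; linarith [hpos x]
    have hyp : ‖y‖ / p y ≤ 1 / c := by
      rw [div_le_div_iff₀ hpy hc]; linarith [hpos y]
    have n1 : ‖((‖x‖ - ‖y‖) / p x) • x‖ ≤ 1 / c * ‖x - y‖ := by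
      rw [norm_smul, Real.norm_eq_abs, abs_div, abs_of_pos hpx]
      have h3 : |‖x‖ - ‖y‖| ≤ ‖x - y‖ := abs_norm_sub_norm_le x y
      have h4 : |‖x‖ - ‖y‖| / p x * ‖x‖ = (‖x‖ / p x) * |‖x‖ - ‖y‖| := by
        field_simp
      rw [h4]
      exact mul_le_mul hxp h3 (abs_nonneg _) (by positivity)
    have n2 : ‖(‖y‖ / p y) • (x - y)‖ ≤ 1 / c * ‖x - y‖ := by
      rw [norm_smul, Real.norm_of_nonneg (by positivity)]
      exact mul_le_mul_of_nonneg_right hyp (norm_nonneg _)
    have n3 : ‖(‖y‖ * (p y - p x) / (p x * p y)) • x‖ ≤ 1 / c * (L / c) * ‖x - y‖ := by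
      rw [norm_smul, Real.norm_eq_abs, abs_div, abs_mul, abs_norm, abs_mul, abs_of_pos hpx,
        abs_of_pos hpy]
      have h3 : |p y - p x| ≤ L * ‖x - y‖ := by
        rw [abs_sub_comm]; exact hlip x y
      have h4 : ‖y‖ * |p y - p x| / (p x * p y) * ‖x‖ =
          (‖y‖ / p y) * (‖x‖ / p x) * |p y - p x| := by
        field_simp
      rw [h4]
      have h5 : (‖y‖ / p y) * (‖x‖ / p x) ≤ 1 / c * (1 / c) :=
        mul_le_mul hyp hxp (by positivity) (by positivity)
      calc (‖y‖ / p y) * (‖x‖ / p x) * |p y - p x| ≤ (1 / c * (1 / c)) * (L * ‖x - y‖) :=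
            mul_le_mul h5 h3 (abs_nonneg _) (by positivity)
        _ = 1 / c * (L / c) * ‖x - y‖ := by ring
    calc ‖((‖x‖ - ‖y‖) / p x) • x + (‖y‖ / p y) • (x - y)
          + (‖y‖ * (p y - p x) / (p x * p y)) • x‖
        ≤ ‖((‖x‖ - ‖y‖) / p x) • x + (‖y‖ / p y) • (x - y)‖
          + ‖(‖y‖ * (p y - p x) / (p x * p y)) • x‖ := norm_add_le _ _
      _ ≤ ‖((‖x‖ - ‖y‖) / p x) • x‖ + ‖(‖y‖ / p y) • (x - y)‖
          + ‖(‖y‖ * (p y - p x) / (p x * p y)) • x‖ := by
            gcongr; exact norm_add_le _ _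
      _ ≤ 1 / c * ‖x - y‖ + 1 / c * ‖x - y‖ + 1 / c * (L / c) * ‖x - y‖ := by gcongr
      _ = Ka * ‖x - y‖ := by rw [hKa]; ring
  have hball : ∀ x, x ∈ closedBall (0 : X) 1 → p (a x) ≤ 1 := by
    intro x hx
    rw [pa]; exact mem_closedBall_zero_iff.1 hx
  have aLip : LipschitzWith (Real.toNNReal Ka) a := by
    apply LipschitzWith.of_dist_le_mul
    intro x y
    rw [dist_eq_norm, dist_eq_norm, Real.coe_toNNReal _ hKapos.le]
    exact alip x y
  have bLip : LipschitzWith (Real.toNNReal (3 * L)) b := by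
    apply LipschitzWith.of_dist_le_mul
    intro x y
    rw [dist_eq_norm, dist_eq_norm, Real.coe_toNNReal _ (by positivity)]
    exact blip x y
  refine ⟨fun x => b (Ψ (a x)), ?_, ?_, ?_, δ / Ka, by positivity, ?_⟩
  · intro x hx
    rw [mem_closedBall_zero_iff, nb]
    exact hmaps _ (hball x hx)
  · have h1 : UniformContinuousOn a (closedBall 0 1) := aLip.uniformContinuous.uniformContinuousOn
    have h2 : UniformContinuousOn (fun x => Ψ (a x)) (closedBall 0 1) :=
      huc.comp h1 (fun x hx => hball x hx)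
    exact bLip.uniformContinuous.comp_uniformContinuousOn h2
  · intro x hx
    simp only
    rw [ab, hinv _ (hball x hx), ba]
  · intro x hx
    have h1 := hdisp _ (hball x hx)
    have h2 := alip (b (Ψ (a x))) x
    rw [ab] at h2
    rw [div_le_iff₀ hKapos]
    linarith

end Pool.Agent.Lib_helper40
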