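import Mathlib

set_option autoImplicit false

open Set Filter Topology

namespace Pool.Agent.Lib_helper40

/-- A convex function on a normed space which is differentiable at a point is strictly
differentiable there. -/
theorem hasStrictFDerivAt_of_convexOn {E : Type*} [NormedAddCommGroup E] [NormedSpace ℝ E]
    {f : E → ℝ} (hf : ConvexOn ℝ univ f) {x : E} {f' : E →L[ℝ] ℝ} (h : HasFDerivAt f f' x) :
    HasStrictFDerivAt f f' x := by
  rw [hasStrictFDerivAt_iff_isLittleO, Asymptotics.isLittleO_iff]
  intro c hc
  have h1 := h.isLittleO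
  rw [Asymptotics.isLittleO_iff] at h1
  have h2 := h1 (show (0:ℝ) < c / 8 by positivity)
  obtain ⟨δ, hδ, hball⟩ := Metric.eventually_nhds_iff.1 h2
  -- the one-sided estimate
  have key : ∀ z z' : E, ‖z - x‖ < δ / 4 → ‖z' - x‖ < δ / 4 →
      f z' - f z - f' (z' - z) ≤ c * ‖z' - z‖ := by
    intro z z' hz hz'
    by_cases hzz : z' = z
    · subst hzz; simp
    have hd : 0 < ‖z' - z‖ := norm_pos_iff.2 (sub_ne_zero.2 hzz)
    set d := ‖z' - z‖ with hddef
    set r := δ / 4 with hr
    have hrpos : 0 < r := by positivity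
    set w : E := z' + (r / d) • (z' - z) with hw
    have hwx : ‖w - x‖ < 2 * r := by
      have : w - x = (z' - x) + (r / d) • (z' - z) := by rw [hw]; abel
      rw [this]
      have h3 : ‖(r / d) • (z' - z)‖ = r := by
        rw [norm_smul, Real.norm_of_nonneg (by positivity), ← hddef]
        field_simp
      calc ‖(z' - x) + (r / d) • (z' - z)‖ ≤ ‖z' - x‖ + ‖(r / d) • (z' - z)‖ := norm_add_le _ _
        _ < r + r := by rw [h3]; linarith
        _ = 2 * r := by ring
    have hdist : ∀ y : E, ‖y - x‖ < δ → |f y - f x - f' (y - x)| ≤ c / 8 * ‖y - x‖ := by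
      intro y hy
      have := hball (y := y) (by rwa [dist_eq_norm])
      simpa using this
    have gw := hdist w (by linarith)
    have gz := hdist z (by linarith)
    have hconv := hf.2 (mem_univ z) (mem_univ w) (show 0 ≤ r / (r + d) by positivity)
      (show 0 ≤ d / (r + d) by positivity) (by field_simp)
    have hcomb : (r / (r + d)) • z + (d / (r + d)) • w = z' := by
      rw [hw]
      have hrd : r + d ≠ 0 := by positivity
      have hd0 : d ≠ 0 := ne_of_gt hd
      have e1 : (r / (r + d)) • z + (d / (r + d)) • (z' + (r / d) • (z' - z)) =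
          (r / (r + d) - d / (r + d) * (r / d)) • z
            + (d / (r + d) + d / (r + d) * (r / d)) • z' := by
        module
      rw [e1]
      have e2 : r / (r + d) - d / (r + d) * (r / d) = 0 := by field_simp; ring
      have e3 : d / (r + d) + d / (r + d) * (r / d) = 1 := by field_simp; ring
      rw [e2, e3]; simp
    rw [hcomb] at hconv
    simp only [smul_eq_mul] at hconv
    -- linear part
    have hlin : f' (z' - z) = (d / (r + d)) * (f' (w - x) - f' (z - x)) := by
      have : z' - z = (d / (r + d)) • ((w - x) - (z - x)) := by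
        rw [← hcomb]
        have : (r / (r + d)) = 1 - d / (r + d) := by
          have hrd : r + d ≠ 0 := by positivity
          field_simp; ring
        rw [this]
        module
      rw [this, map_smul, map_sub, smul_eq_mul]
    have hfrac : r / (r + d) = 1 - d / (r + d) := by
      have hrd : r + d ≠ 0 := by positivity
      field_simp; ring
    rw [hfrac] at hconv
    have habs1 := abs_le.1 gw
    have habs2 := abs_le.1 gz
    have ht : 0 ≤ d / (r + d) := by positivity
    have hmain : f z' - f z - f' (z' - z) ≤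
        d / (r + d) * ((f w - f x - f' (w - x)) - (f z - f x - f' (z - x))) := by
      rw [hlin]
      nlinarith
    have hb : (f w - f x - f' (w - x)) - (f z - f x - f' (z - x)) ≤ c * r := by
      have h5 : c / 8 * ‖w - x‖ ≤ c / 8 * (2 * r) :=
        mul_le_mul_of_nonneg_left hwx.le (by positivity)
      have h6 : c / 8 * ‖z - x‖ ≤ c / 8 * r :=
        mul_le_mul_of_nonneg_left hz.le (by positivity)
      nlinarith [mul_pos hc hrpos]
    calc f z' - f z - f' (z' - z) ≤
        d / (r + d) * ((f w - f x - f' (w - x)) - (f z - f x - f' (z - x))) := hmain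
      _ ≤ d / (r + d) * (c * r) := mul_le_mul_of_nonneg_left hb ht
      _ = c * d * (r / (r + d)) := by ring
      _ ≤ c * d * 1 := by
          apply mul_le_mul_of_nonneg_left _ (by positivity)
          rw [div_le_one (by positivity)]
          linarith
      _ = c * d := by ring
  have hnhds : ∀ᶠ p : E × E in 𝓝 (x, x), ‖p.1 - x‖ < δ / 4 ∧ ‖p.2 - x‖ < δ / 4 := by
    have h3 : ∀ᶠ p : E × E in 𝓝 (x, x), dist p (x, x) < δ / 4 :=
      Metric.ball_mem_nhds _ (by positivity)
    filter_upwards [h3] with p hp
    rw [Prod.dist_eq, max_lt_iff, dist_eq_norm, dist_eq_norm] at hp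
    exact hp
  filter_upwards [hnhds] with p hp
  rw [Real.norm_eq_abs, abs_le]
  have k1 := key p.1 p.2 hp.1 hp.2
  have k2 := key p.2 p.1 hp.2 hp.1
  have hs : ‖p.2 - p.1‖ = ‖p.1 - p.2‖ := norm_sub_rev _ _
  have hm : f' (p.2 - p.1) = - f' (p.1 - p.2) := by
    rw [← map_neg, neg_sub]
  rw [hs, hm] at k1
  constructor
  · linarith
  · linarith

/-- The gradient of a differentiable convex function is a subgradient. -/
theorem subgradient_of_hasFDerivAt {E : Type*} [NormedAddCommGroup E] [NormedSpace ℝ E]
    {f : E → ℝ} (hf : ConvexOn ℝ univ f) {x : E} {f' : E →L[ℝ] ℝ} (h : HasFDerivAt f f' x)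
    (z : E) : f x + f' (z - x) ≤ f z := by
  have hline : HasDerivAt (fun t : ℝ => x + t • (z - x)) (z - x) 0 := by
    have h1 : HasDerivAt (fun t : ℝ => t • (z - x)) ((1:ℝ) • (z - x)) 0 :=
      (hasDerivAt_id (0:ℝ)).smul_const (z - x)
    rw [one_smul] at h1
    exact h1.const_add x
  have h0 : HasFDerivAt f f' (x + (0:ℝ) • (z - x)) := by simpa using h
  have hcomp : HasDerivAt (fun t : ℝ => f (x + t • (z - x))) (f' (z - x)) 0 :=
    h0.comp_hasDerivAt (0:ℝ) hline
  have hslope := hcomp.tendsto_slope_zero_right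
  have hle : ∀ᶠ t : ℝ in 𝓝[>] (0:ℝ),
      t⁻¹ • ((fun t : ℝ => f (x + t • (z - x))) (0 + t) - (fun t : ℝ => f (x + t • (z - x))) 0)
        ≤ f z - f x := by
    have hmem : Ioo (0:ℝ) 1 ∈ 𝓝[>] (0:ℝ) := Ioo_mem_nhdsGT one_pos
    filter_upwards [hmem] with t ht
    have hc := hf.2 (mem_univ x) (mem_univ z) (show 0 ≤ 1 - t by linarith [ht.2])
      ht.1.le (by ring)
    have e : (1 - t) • x + t • z = x + t • (z - x) := by module
    rw [e] at hc
    simp only [smul_eq_mul] at hc
    simp only [zero_add, zero_smul, add_zero, smul_eq_mul]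
    rw [inv_mul_le_iff₀ ht.1]
    linarith
  have := le_of_tendsto hslope hle
  linarith

end Pool.Agent.Lib_helper40
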