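import Mathlib

set_option autoImplicit false

open Set Filter Topology Metric

namespace Pool.Agent.Lib_helper40

/-- the quotient map of the plane by the cube roots of unity acting with weights `(1,-1)` -/
def cubePi (w : ℂ × ℂ) : ℂ × ℂ × ℂ := (w.1 ^ 3, w.2 ^ 3, w.1 * w.2)

/-- the punctured cone `pq = r^3` -/
def coneY : Set (ℂ × ℂ × ℂ) := {y | y.1 * y.2.1 = y.2.2 ^ 3 ∧ (y.1 ≠ 0 ∨ y.2.1 ≠ 0)}

theorem cubePi_continuous : Continuous cubePi := by
  unfold cubePi; fun_prop

theorem cubePi_closed : IsClosedMap cubePi := by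
  apply IsProperMap.isClosedMap
  rw [isProperMap_iff_tendsto_cocompact]
  refine ⟨cubePi_continuous, ?_⟩
  rw [← Metric.cobounded_eq_cocompact (α := ℂ × ℂ × ℂ), ← tendsto_norm_atTop_iff_cobounded]
  have h1 : Tendsto (fun w : ℂ × ℂ => ‖w‖) (cocompact (ℂ × ℂ)) atTop :=
    tendsto_norm_cocompact_atTop
  have h2 : Tendsto (fun w : ℂ × ℂ => ‖w‖ ^ 3) (cocompact (ℂ × ℂ)) atTop :=
    (tendsto_pow_atTop (by norm_num)).comp h1
  refine tendsto_atTop_mono ?_ h2
  intro w
  rcases le_total ‖w.1‖ ‖w.2‖ with h | h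
  · have e : ‖w‖ = ‖w.2‖ := by rw [Prod.norm_def]; exact max_eq_right h
    rw [e, ← norm_pow]
    calc ‖w.2 ^ 3‖ = ‖(cubePi w).2.1‖ := rfl
      _ ≤ ‖(cubePi w).2‖ := norm_fst_le _
      _ ≤ ‖cubePi w‖ := norm_snd_le _
  · have e : ‖w‖ = ‖w.1‖ := by rw [Prod.norm_def]; exact max_eq_left h
    rw [e, ← norm_pow]
    calc ‖w.1 ^ 3‖ = ‖(cubePi w).1‖ := rfl
      _ ≤ ‖cubePi w‖ := norm_fst_le _

/-- total space of the three-fold covering -/
def CubeE : Type := ↥(cubePi ⁻¹' coneY)

instance : TopologicalSpace CubeE := inferInstanceAs (TopologicalSpace ↥(cubePi ⁻¹' coneY))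

/-- the three-fold covering -/
def cubeCov : CubeE → coneY := coneY.restrictPreimage cubePi

theorem cubeE_ne (e : CubeE) : e.1.1 ≠ 0 ∨ e.1.2 ≠ 0 := by
  have h := e.2.2
  rcases h with h | h
  · left; intro h0; apply h; simp [cubePi, h0]
  · right; intro h0; apply h; simp [cubePi, h0]

theorem mem_cubeE {w : ℂ × ℂ} (h : w.1 ≠ 0 ∨ w.2 ≠ 0) : w ∈ cubePi ⁻¹' coneY := by
  refine ⟨?_, ?_⟩
  · simp only [cubePi]; ring
  · rcases h with h | h
    · left; simp only [cubePi]; exact pow_ne_zero 3 h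
    · right; simp only [cubePi]; exact pow_ne_zero 3 h

/-- action of the cube roots of unity -/
noncomputable instance : MulAction (rootsOfUnity 3 ℂ) CubeE where
  smul g e := ⟨((g : ℂˣ) * e.1.1, ((g⁻¹ : rootsOfUnity 3 ℂ) : ℂˣ) * e.1.2), mem_cubeE (by
    rcases cubeE_ne e with h | h
    · left; exact mul_ne_zero (Units.ne_zero _) h
    · right; exact mul_ne_zero (Units.ne_zero _) h)⟩
  one_smul e := by
    apply Subtype.ext
    apply Prod.ext
    · change ((1 : rootsOfUnity 3 ℂ) : ℂˣ) * e.1.1 = e.1.1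
      simp
    · change (((1 : rootsOfUnity 3 ℂ)⁻¹ : rootsOfUnity 3 ℂ) : ℂˣ) * e.1.2 = e.1.2
      simp
  mul_smul g h e := by
    apply Subtype.ext
    apply Prod.ext
    · change ((g * h : rootsOfUnity 3 ℂ) : ℂˣ) * e.1.1 = (g : ℂˣ) * ((h : ℂˣ) * e.1.1)
      simp [mul_assoc]
    · change (((g * h)⁻¹ : rootsOfUnity 3 ℂ) : ℂˣ) * e.1.2
        = ((g⁻¹ : rootsOfUnity 3 ℂ) : ℂˣ) * (((h⁻¹ : rootsOfUnity 3 ℂ) : ℂˣ) * e.1.2)
      simp only [mul_inv_rev, Subgroup.coe_mul, Units.val_mul]
      ring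

theorem smul_fst (g : rootsOfUnity 3 ℂ) (e : CubeE) : (g • e).1.1 = ((g : ℂˣ) : ℂ) * e.1.1 := rfl
theorem smul_snd (g : rootsOfUnity 3 ℂ) (e : CubeE) :
    (g • e).1.2 = (((g⁻¹ : rootsOfUnity 3 ℂ) : ℂˣ) : ℂ) * e.1.2 := rfl

theorem root_cube (g : rootsOfUnity 3 ℂ) : (((g : ℂˣ) : ℂ)) ^ 3 = 1 := by
  have h := g.2
  rw [mem_rootsOfUnity] at h
  have := congrArg (fun u : ℂˣ => (u : ℂ)) h
  simpa using this

theorem root_dist {z : ℂ} (hz : z ^ 3 = 1) (hne : z ≠ 1) : 1 ≤ ‖z - 1‖ := by
  have h1 : (z - 1) * (z ^ 2 + z + 1) = 0 := by ring_nf; rw [hz]; ring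
  have h2 : z ^ 2 + z + 1 = 0 := by
    rcases mul_eq_zero.1 h1 with h | h
    · exact absurd (sub_eq_zero.1 h) hne
    · exact h
  have h3 : (z - 1) ^ 2 = -3 * z := by linear_combination h2
  have h4 : ‖z‖ = 1 := by
    have : ‖z‖ ^ 3 = 1 := by rw [← norm_pow, hz, norm_one]
    exact (pow_eq_one_iff_of_nonneg (norm_nonneg z) (by norm_num)).1 this
  have h5 : ‖z - 1‖ ^ 2 = 3 := by
    rw [← norm_pow, h3, norm_mul, h4]; simp
  nlinarith [norm_nonneg (z - 1)]

theorem exists_cube_root (z : ℂ) : ∃ w : ℂ, w ^ 3 = z :=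
  IsAlgClosed.exists_pow_nat_eq z (by norm_num)

theorem cubeCov_surj : Function.Surjective cubeCov := by
  rintro ⟨⟨p, q, r⟩, h1, h2⟩
  simp only at h1 h2
  by_cases hp : p = 0
  · have hq : q ≠ 0 := by
      rcases h2 with h | h
      · exact absurd hp h
      · exact h
    have hr : r = 0 := by
      rw [hp, zero_mul] at h1
      exact pow_eq_zero_iff (by norm_num) |>.1 h1.symm
    obtain ⟨w, hw⟩ := exists_cube_root q
    have hw0 : w ≠ 0 := by
      intro h0; rw [h0] at hw; apply hq; rw [← hw]; norm_num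
    refine ⟨⟨(0, w), mem_cubeE (Or.inr hw0)⟩, ?_⟩
    apply Subtype.ext
    change cubePi (0, w) = (p, q, r)
    simp [cubePi, hw, hp, hr]
  · obtain ⟨w, hw⟩ := exists_cube_root p
    have hw0 : w ≠ 0 := by
      intro h0; rw [h0] at hw; apply hp; rw [← hw]; norm_num
    refine ⟨⟨(w, r / w), mem_cubeE (Or.inl hw0)⟩, ?_⟩
    apply Subtype.ext
    change cubePi (w, r / w) = (p, q, r)
    simp only [cubePi, Prod.mk.injEq]
    refine ⟨hw, ?_, ?_⟩
    · rw [div_pow, hw, ← h1]; field_simp
    · field_simp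

theorem cubeCov_quot : IsQuotientMap cubeCov :=
  (cubePi_closed.restrictPreimage coneY).isQuotientMap
    (cubePi_continuous.restrictPreimage) cubeCov_surj

theorem cubeCov_isQuotientCovering : IsQuotientCoveringMap cubeCov (rootsOfUnity 3 ℂ) where
  toIsQuotientMap := cubeCov_quot
  continuous_const_smul g := by
    apply Continuous.subtype_mk
    have h : Continuous (fun e : CubeE => (e.1 : ℂ × ℂ)) := continuous_subtype_val
    exact (continuous_const.mul h.fst).prodMk (continuous_const.mul h.snd)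
  apply_eq_iff_mem_orbit := by
    intro e₁ e₂
    constructor
    · intro h
      have h' : cubePi e₁.1 = cubePi e₂.1 := congrArg Subtype.val h
      simp only [cubePi, Prod.mk.injEq] at h'
      obtain ⟨h1, h2, h3⟩ := h'
      by_cases ha : e₂.1.1 = 0
      · have ha1 : e₁.1.1 = 0 := by
          rw [ha] at h1
          exact pow_eq_zero_iff (by norm_num) |>.1 (h1.trans (by norm_num))
        have hb2 : e₂.1.2 ≠ 0 := (cubeE_ne e₂).resolve_left (fun h => h ha)
        have hb1 : e₁.1.2 ≠ 0 := (cubeE_ne e₁).resolve_left (fun h => h ha1)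
        have hz : (e₂.1.2 / e₁.1.2) ^ 3 = 1 := by
          rw [div_pow, ← h2, div_self (pow_ne_zero 3 hb1)]
        have hu : (e₂.1.2 / e₁.1.2) ≠ 0 := div_ne_zero hb2 hb1
        refine ⟨⟨Units.mk0 _ hu, ?_⟩, ?_⟩
        · rw [mem_rootsOfUnity]
          ext
          simpa using hz
        · apply Subtype.ext
          apply Prod.ext
          · change _ * e₂.1.1 = e₁.1.1
            rw [ha, ha1, mul_zero]
          · change (((_ : rootsOfUnity 3 ℂ)⁻¹ : rootsOfUnity 3 ℂ) : ℂˣ) * e₂.1.2 = e₁.1.2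
            simp only [Subgroup.coe_inv, Units.val_inv_eq_inv_val, Units.val_mk0]
            field_simp
      · have ha1 : e₁.1.1 ≠ 0 := by
          intro h0
          rw [h0] at h1
          apply ha
          exact pow_eq_zero_iff (n := 3) (by norm_num) |>.1 (h1.symm.trans (by norm_num))
        have hz : (e₁.1.1 / e₂.1.1) ^ 3 = 1 := by
          rw [div_pow, h1, div_self (pow_ne_zero 3 ha)]
        have hu : (e₁.1.1 / e₂.1.1) ≠ 0 := div_ne_zero ha1 ha
        refine ⟨⟨Units.mk0 _ hu, ?_⟩, ?_⟩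
        · rw [mem_rootsOfUnity]
          ext
          simpa using hz
        · apply Subtype.ext
          apply Prod.ext
          · change e₁.1.1 / e₂.1.1 * e₂.1.1 = e₁.1.1
            field_simp
          · change (((_ : rootsOfUnity 3 ℂ)⁻¹ : rootsOfUnity 3 ℂ) : ℂˣ) * e₂.1.2 = e₁.1.2
            simp only [Subgroup.coe_inv, Units.val_inv_eq_inv_val, Units.val_mk0]
            rw [inv_div, div_mul_eq_mul_div, div_eq_iff ha1, mul_comm e₁.1.2]
            exact h3.symm
    · rintro ⟨g, rfl⟩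
      apply Subtype.ext
      change cubePi (g • e₂).1 = cubePi e₂.1
      have hg := root_cube g
      have hg' := root_cube g⁻¹
      simp only [cubePi, Prod.mk.injEq]
      refine ⟨?_, ?_, ?_⟩
      · rw [smul_fst, mul_pow, hg, one_mul]
      · rw [smul_snd, mul_pow, hg', one_mul]
      · rw [smul_fst, smul_snd]
        have : (((g : ℂˣ) : ℂ)) * (((g⁻¹ : rootsOfUnity 3 ℂ) : ℂˣ) : ℂ) = 1 := by
          rw [← Units.val_mul, ← Subgroup.coe_mul, mul_inv_cancel]; simp
        calc ((g : ℂˣ) : ℂ) * e₂.1.1 * ((((g⁻¹ : rootsOfUnity 3 ℂ) : ℂˣ) : ℂ) * e₂.1.2)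
            = (((g : ℂˣ) : ℂ)) * (((g⁻¹ : rootsOfUnity 3 ℂ) : ℂˣ) : ℂ) * (e₂.1.1 * e₂.1.2) := by
              ring
          _ = e₂.1.1 * e₂.1.2 := by rw [this, one_mul]
  disjoint := by
    intro e
    have hc : Continuous (fun e : CubeE => (e.1 : ℂ × ℂ)) := continuous_subtype_val
    -- a general estimate
    have key : ∀ (z a u : ℂ), z ^ 3 = 1 → a ≠ 0 → ‖u - a‖ < ‖a‖ / 2 → ‖z * u - a‖ < ‖a‖ / 2 →
        z = 1 := by
      intro z a u hz ha h1 h2
      by_contra hne
      have h3 := root_dist hz hne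
      have h4 : ‖z‖ = 1 := by
        have : ‖z‖ ^ 3 = 1 := by rw [← norm_pow, hz, norm_one]
        exact (pow_eq_one_iff_of_nonneg (norm_nonneg z) (by norm_num)).1 this
      have h5 : (z - 1) * a = (z * u - a) - z * (u - a) := by ring
      have h6 : ‖(z - 1) * a‖ < ‖a‖ := by
        rw [h5]
        calc ‖(z * u - a) - z * (u - a)‖ ≤ ‖z * u - a‖ + ‖z * (u - a)‖ := norm_sub_le _ _
          _ < ‖a‖ / 2 + ‖a‖ / 2 := by
              rw [norm_mul, h4, one_mul]; linarith
          _ = ‖a‖ := by ring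
      rw [norm_mul] at h6
      have h7 : 0 < ‖a‖ := norm_pos_iff.2 ha
      nlinarith
    rcases cubeE_ne e with ha | hb
    · refine ⟨{e' | ‖e'.1.1 - e.1.1‖ < ‖e.1.1‖ / 2}, ?_, ?_⟩
      · apply IsOpen.mem_nhds
        · exact isOpen_lt ((hc.fst.sub continuous_const).norm) continuous_const
        · simp only [mem_ofPred_eq, sub_self, norm_zero]
          have := norm_pos_iff.2 ha
          positivity
      · rintro g ⟨_, ⟨e', he', rfl⟩, he''⟩
        simp only [mem_ofPred_eq] at he' he''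
        rw [smul_fst] at he''
        have := key _ _ _ (root_cube g) ha he' he''
        apply Subtype.ext
        ext
        simpa using this
    · refine ⟨{e' | ‖e'.1.2 - e.1.2‖ < ‖e.1.2‖ / 2}, ?_, ?_⟩
      · apply IsOpen.mem_nhds
        · exact isOpen_lt ((hc.snd.sub continuous_const).norm) continuous_const
        · simp only [mem_ofPred_eq, sub_self, norm_zero]
          have := norm_pos_iff.2 hb
          positivity
      · rintro g ⟨_, ⟨e', he', rfl⟩, he''⟩
        simp only [mem_ofPred_eq] at he' he''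
        rw [smul_snd] at he''
        have := key _ _ _ (root_cube g⁻¹) hb he' he''
        have h2 : g⁻¹ = 1 := by
          apply Subtype.ext
          ext
          simpa using this
        exact inv_eq_one.1 h2

theorem cubeCov_isCovering : IsCoveringMap cubeCov := cubeCov_isQuotientCovering.isCoveringMap

open unitInterval in
/-- The obstruction: no continuous map of the disc to the cone with the prescribed
boundary values. -/
theorem no_disc_map (P : C(closedBall (0 : ℂ) 1, ℂ × ℂ × ℂ)) (hP : ∀ t, P t ∈ coneY)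
    (hbd : ∀ t : closedBall (0 : ℂ) 1, ‖(t : ℂ)‖ = 1 → P t = (0, (starRingEnd ℂ) (t : ℂ), 0)) :
    False := by
  -- polar coordinates
  have hmem : ∀ x : I × I, ((x.1 : ℝ) : ℂ) * Complex.exp (2 * Real.pi * Complex.I * ((x.2 : ℝ) : ℂ))
      ∈ closedBall (0 : ℂ) 1 := by
    intro x
    rw [mem_closedBall_zero_iff, norm_mul]
    have : (2 * Real.pi * Complex.I * ((x.2 : ℝ) : ℂ)) = ((2 * Real.pi * (x.2 : ℝ) : ℝ) : ℂ)
        * Complex.I := by push_cast; ring
    rw [this, Complex.norm_exp_ofReal_mul_I, mul_one, Complex.norm_real,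
      Real.norm_of_nonneg x.1.2.1]
    exact x.1.2.2
  set pol : C(I × I, closedBall (0 : ℂ) 1) :=
    ⟨fun x => ⟨_, hmem x⟩, by
      apply Continuous.subtype_mk
      fun_prop⟩ with hpol
  set H : C(I × I, coneY) := ⟨fun x => ⟨P (pol x), hP _⟩, by
      apply Continuous.subtype_mk
      exact P.continuous.comp pol.continuous⟩ with hH
  obtain ⟨e0, he0⟩ := cubeCov_surj (H (0, 0))
  have hconst : ∀ a : I, H (0, a) = cubeCov ((ContinuousMap.const I e0) a) := by
    intro a
    rw [ContinuousMap.const_apply, he0]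
    apply Subtype.ext
    change P (pol (0, a)) = P (pol (0, 0))
    congr 1
    apply Subtype.ext
    simp [hpol]
  set Ht := cubeCov_isCovering.liftHomotopy H (ContinuousMap.const I e0) hconst with hHt
  have hlift : ∀ x, cubeCov (Ht x) = H x := fun x =>
    congrFun (cubeCov_isCovering.liftHomotopy_lifts H (ContinuousMap.const I e0) hconst) x
  have hzero : ∀ a, Ht (0, a) = e0 := fun a =>
    cubeCov_isCovering.liftHomotopy_zero H (ContinuousMap.const I e0) hconst a
  -- the two sides agree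
  have hsides : (fun s : I => Ht (s, 0)) = (fun s : I => Ht (s, 1)) := by
    apply cubeCov_isCovering.eq_of_comp_eq (a := (0 : I))
    · exact Ht.continuous.comp (by fun_prop)
    · exact Ht.continuous.comp (by fun_prop)
    · funext s
      simp only [Function.comp]
      rw [hlift, hlift]
      apply Subtype.ext
      change P (pol (s, 0)) = P (pol (s, 1))
      congr 1
      apply Subtype.ext
      simp only [hpol, ContinuousMap.coe_mk]
      simp [Complex.exp_two_pi_mul_I]
    · rw [hzero, hzero]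
  -- cube root of the boundary loop
  set ω : I → ℂ := fun θ => (Ht (1, θ)).1.2 with hω
  have hωc : Continuous ω := by
    have h1 : Continuous (fun e : CubeE => (e.1 : ℂ × ℂ)) := continuous_subtype_val
    have h2 : Continuous (fun θ : I => Ht (1, θ)) := Ht.continuous.comp (by fun_prop)
    exact (h1.comp h2).snd
  have hω3 : ∀ θ : I, ω θ ^ 3 = Complex.exp (-(2 * Real.pi * Complex.I * ((θ : ℝ) : ℂ))) := by
    intro θ
    have h1 := congrArg (fun y : coneY => (y : ℂ × ℂ × ℂ).2.1) (hlift (1, θ))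
    have h2 : (cubeCov (Ht (1, θ)) : ℂ × ℂ × ℂ).2.1 = ω θ ^ 3 := rfl
    rw [h2] at h1
    rw [h1]
    change (P (pol (1, θ))).2.1 = _
    have hnorm : ‖((pol (1, θ) : closedBall (0 : ℂ) 1) : ℂ)‖ = 1 := by
      simp only [hpol, ContinuousMap.coe_mk]
      have : (2 * Real.pi * Complex.I * ((θ : ℝ) : ℂ)) = ((2 * Real.pi * (θ : ℝ) : ℝ) : ℂ)
        * Complex.I := by push_cast; ring
      rw [this, norm_mul, Complex.norm_exp_ofReal_mul_I]
      simp
    rw [hbd _ hnorm]
    simp only [hpol, ContinuousMap.coe_mk]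
    rw [map_mul, ← Complex.exp_conj]
    have h2c : (starRingEnd ℂ) (2 : ℂ) = 2 := map_ofNat _ 2
    simp [h2c]
  have hω01 : ω 0 = ω 1 := by
    have := congrFun hsides 1
    rw [hω]; simp only
    rw [this]
  set u : I → ℂ := fun θ => ω θ * Complex.exp (2 * Real.pi * Complex.I * ((θ : ℝ) : ℂ) / 3) with hu
  have huc : Continuous u := by
    apply hωc.mul
    fun_prop
  have hu3 : ∀ θ, u θ ^ 3 = 1 := by
    intro θ
    rw [hu]; simp only
    rw [mul_pow, hω3, ← Complex.exp_nat_mul, ← Complex.exp_add]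
    have : -(2 * Real.pi * Complex.I * ((θ : ℝ) : ℂ)) +
        ((3 : ℕ) : ℂ) * (2 * Real.pi * Complex.I * ((θ : ℝ) : ℂ) / 3) = 0 := by
      push_cast; ring
    rw [this, Complex.exp_zero]
  have hfin : ({z : ℂ | z ^ 3 = 1} : Set ℂ).Finite := by
    have h := (Polynomial.nthRootsFinset 3 (1 : ℂ)).finite_toSet
    refine h.subset ?_
    intro z hz
    simp only [Finset.mem_coe]
    rw [Polynomial.mem_nthRootsFinset (by norm_num)]
    exact hz
  obtain ⟨y, hy, hconst'⟩ := (isPreconnected_univ (α := I)).eqOn_const_of_mapsTo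
    hfin.isDiscrete huc.continuousOn (fun θ _ => hu3 θ) ⟨1, by simp⟩
  have e0 : u 0 = u 1 := by
    rw [hconst' (mem_univ 0), hconst' (mem_univ 1)]; rfl
  have hu0 : u 0 = ω 0 := by simp [hu]
  have hu1 : u 1 = ω 1 * Complex.exp (2 * Real.pi * Complex.I / 3) := by simp [hu]
  rw [hu0, hu1, ← hω01] at e0
  have hω0 : ω 0 ≠ 0 := by
    intro h0
    have := hω3 0
    rw [h0] at this
    simp at this
  have hexp : Complex.exp (2 * Real.pi * Complex.I / 3) = 1 := by
    have h1 : ω 0 * (Complex.exp (2 * Real.pi * Complex.I / 3) - 1) = 0 := by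
      rw [mul_sub, ← e0]; ring
    rcases mul_eq_zero.1 h1 with h | h
    · exact absurd h hω0
    · exact sub_eq_zero.1 h
  have hprim := (Complex.isPrimitiveRoot_exp 3 (by norm_num)).pow_ne_one_of_pos_of_lt
    (l := 1) (by norm_num) (by norm_num)
  rw [pow_one] at hprim
  exact hprim (by simpa using hexp)

end Pool.Agent.Lib_helper40
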