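import Mathlib
import Pool.Agent.Lib_helper40.CubeCover

set_option autoImplicit false

open Set Filter Topology Metric

namespace Pool.Agent.Lib_helper40

/-- triples of reals, used as coordinates of three-space -/
abbrev V3 := ℝ × ℝ × ℝ
/-- Six-dimensional Euclidean space. -/
abbrev W6 := EuclideanSpace ℝ (Fin 6)

/-- squared length -/
def sq (u : V3) : ℝ := u.1 ^ 2 + u.2.1 ^ 2 + u.2.2 ^ 2
/-- reflection in the horizontal plane -/
def sg (u : V3) : V3 := (u.1, u.2.1, -u.2.2)
/-- cutoff function -/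
noncomputable def cut (n : ℝ) : ℝ := max 0 (1 - 4 * n)

/-- minus conjugation by the quaternion `m + N`, unnormalised -/
def rot (m : ℝ) (N x : V3) : V3 :=
  ((N.1 ^ 2 + N.2.1 ^ 2 + N.2.2 ^ 2 - m ^ 2) * x.1
      - 2 * (N.1 * x.1 + N.2.1 * x.2.1 + N.2.2 * x.2.2) * N.1
      - 2 * m * (N.2.1 * x.2.2 - N.2.2 * x.2.1),
   (N.1 ^ 2 + N.2.1 ^ 2 + N.2.2 ^ 2 - m ^ 2) * x.2.1
      - 2 * (N.1 * x.1 + N.2.1 * x.2.1 + N.2.2 * x.2.2) * N.2.1
      - 2 * m * (N.2.2 * x.1 - N.1 * x.2.2),
   (N.1 ^ 2 + N.2.1 ^ 2 + N.2.2 ^ 2 - m ^ 2) * x.2.2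
      - 2 * (N.1 * x.1 + N.2.1 * x.2.1 + N.2.2 * x.2.2) * N.2.2
      - 2 * m * (N.1 * x.2.1 - N.2.1 * x.1))

theorem rot_sq (m : ℝ) (N x : V3) : sq (rot m N x) = (m ^ 2 + sq N) ^ 2 * sq x := by
  simp only [sq, rot]; ring

theorem rot_rot (m : ℝ) (N x : V3) :
    rot (-m) N (rot m N x) = ((m ^ 2 + sq N) ^ 2) • x := by
  apply Prod.ext
  · simp only [sq, rot, Prod.smul_fst, smul_eq_mul]; ring
  · apply Prod.ext
    · simp only [sq, rot, Prod.smul_fst, Prod.smul_snd, smul_eq_mul]; ring
    · simp only [sq, rot, Prod.smul_snd, smul_eq_mul]; ring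

theorem rot_smul (m : ℝ) (N x : V3) (c : ℝ) : rot m N (c • x) = c • rot m N x := by
  apply Prod.ext
  · simp only [rot, Prod.smul_fst, Prod.smul_snd, smul_eq_mul]; ring
  · apply Prod.ext
    · simp only [rot, Prod.smul_fst, Prod.smul_snd, smul_eq_mul]; ring
    · simp only [rot, Prod.smul_fst, Prod.smul_snd, smul_eq_mul]; ring

/-- vector part of the quaternion attached to `u` -/
noncomputable def vecN (u : V3) : V3 :=
  (-(2 * cut (sq u) * u.2.1), 2 * cut (sq u) * u.1, cut (sq u) ^ 2 - sq u)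
/-- scalar part of the quaternion attached to `u` -/
noncomputable def scaM (u : V3) : ℝ := -(2 * cut (sq u) * u.2.2)
/-- norm of the quaternion -/
noncomputable def nrmD (u : V3) : ℝ := cut (sq u) ^ 2 + sq u

theorem sq_nonneg' (u : V3) : 0 ≤ sq u := by unfold sq; positivity

theorem nrmD_pos (u : V3) : 0 < nrmD u := by
  unfold nrmD cut
  have h := sq_nonneg' u
  rcases lt_or_ge (sq u) (1 / 4) with h1 | h1
  · have : 0 < max 0 (1 - 4 * sq u) := lt_max_of_lt_right (by linarith)
    positivity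
  · have : 0 ≤ max 0 (1 - 4 * sq u) ^ 2 := by positivity
    linarith

theorem nrm_eq (u : V3) : scaM u ^ 2 + sq (vecN u) = nrmD u ^ 2 := by
  simp only [scaM, vecN, nrmD]
  generalize cut (sq u) = C
  simp only [sq]
  ring

/-- the family of orthogonal maps -/
noncomputable def famA (u x : V3) : V3 := ((nrmD u ^ 2)⁻¹) • rot (scaM u) (vecN u) x

theorem sq_smul (c : ℝ) (x : V3) : sq (c • x) = c ^ 2 * sq x := by
  simp only [sq, Prod.smul_fst, Prod.smul_snd, smul_eq_mul]; ring

theorem famA_sq (u x : V3) : sq (famA u x) = sq x := by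
  unfold famA
  rw [sq_smul, rot_sq, nrm_eq]
  have := nrmD_pos u
  field_simp

theorem sq_sg (u : V3) : sq (sg u) = sq u := by simp [sq, sg]

theorem sg_sg (u : V3) : sg (sg u) = u := by simp [sg]

theorem famA_inv (u x : V3) : famA (sg u) (famA u x) = x := by
  have h1 : scaM (sg u) = - scaM u := by
    unfold scaM
    rw [sq_sg]
    simp [sg]
  have h2 : vecN (sg u) = vecN u := by
    unfold vecN
    rw [sq_sg]
    simp [sg]
  have h3 : nrmD (sg u) = nrmD u := by
    unfold nrmD
    rw [sq_sg]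
  unfold famA
  rw [h1, h2, h3, rot_smul, rot_rot, nrm_eq, smul_smul, smul_smul]
  have := nrmD_pos u
  have e : (nrmD u ^ 2)⁻¹ * (nrmD u ^ 2)⁻¹ * (nrmD u ^ 2) ^ 2 = 1 := by field_simp
  rw [e, one_smul]

theorem cut_zero {n : ℝ} (h : 1 / 4 ≤ n) : cut n = 0 := by
  unfold cut
  exact max_eq_left (by linarith)

theorem famA_out {u : V3} (h : 1 / 4 ≤ sq u) (x : V3) : famA u x = sg x := by
  have hn : sq u ≠ 0 := by linarith
  unfold famA scaM vecN nrmD
  rw [cut_zero h]
  apply Prod.ext
  · simp only [rot, sg, Prod.smul_fst, smul_eq_mul]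
    field_simp
    ring
  · apply Prod.ext
    · simp only [rot, sg, Prod.smul_fst, Prod.smul_snd, smul_eq_mul]
      field_simp
      ring
    · simp only [rot, sg, Prod.smul_snd, smul_eq_mul]
      field_simp
      ring

theorem continuous_sq : Continuous sq := by unfold sq; fun_prop

theorem continuous_cut : Continuous cut := by unfold cut; fun_prop

theorem famA_cont : Continuous (fun p : V3 × V3 => famA p.1 p.2) := by
  have hs : Continuous (fun p : V3 × V3 => sq p.1) := continuous_sq.comp continuous_fst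
  have hc : Continuous (fun p : V3 × V3 => cut (sq p.1)) := continuous_cut.comp hs
  have hD : Continuous (fun p : V3 × V3 => nrmD p.1) := by unfold nrmD; fun_prop
  have hM : Continuous (fun p : V3 × V3 => scaM p.1) := by unfold scaM; fun_prop
  have hN : Continuous (fun p : V3 × V3 => vecN p.1) := by unfold vecN; fun_prop
  have hN1 := hN.fst
  have hN2 := hN.snd.fst
  have hN3 := hN.snd.snd
  have hr : Continuous (fun p : V3 × V3 => rot (scaM p.1) (vecN p.1) p.2) := by
    unfold rot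
    fun_prop
  have hi : Continuous (fun p : V3 × V3 => (nrmD p.1 ^ 2)⁻¹) := by
    apply Continuous.inv₀ (hD.pow 2)
    intro p
    exact pow_ne_zero 2 (nrmD_pos p.1).ne'
  exact hi.smul hr

theorem famA_cont' {α : Type*} [TopologicalSpace α] {f g : α → V3} (hf : Continuous f)
    (hg : Continuous g) : Continuous (fun a => famA (f a) (g a)) := by
  have h := famA_cont.comp (hf.prodMk hg)
  exact h

/-- complex coordinate of the horizontal part -/
def hor (u : V3) : ℂ := ⟨u.1, u.2.1⟩

theorem hor_cont : Continuous hor := by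
  have : hor = fun u : V3 => (u.1 : ℂ) + (u.2.1 : ℂ) * Complex.I := by
    funext u
    apply Complex.ext <;> simp [hor]
  rw [this]
  fun_prop

/-- the complex coordinate of `x` in the moving frame -/
noncomputable def Xi (u x : V3) : ℂ :=
  (cut (sq u) : ℂ) ^ 2 * hor x + hor u ^ 2 * (starRingEnd ℂ) (hor x)
    - 2 * Complex.I * (cut (sq u) : ℂ) * hor u * (x.2.2 : ℂ)

theorem Xi_cont : Continuous (fun p : V3 × V3 => Xi p.1 p.2) := by
  have hs : Continuous (fun p : V3 × V3 => sq p.1) := continuous_sq.comp continuous_fst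
  have hc : Continuous (fun p : V3 × V3 => cut (sq p.1)) := continuous_cut.comp hs
  have h1 : Continuous (fun p : V3 × V3 => hor p.1) := hor_cont.comp continuous_fst
  have h2 : Continuous (fun p : V3 × V3 => hor p.2) := hor_cont.comp continuous_snd
  have h3 : Continuous (fun p : V3 × V3 => (starRingEnd ℂ) (hor p.2)) :=
    Complex.continuous_conj.comp h2
  unfold Xi
  fun_prop

theorem Xi_cont' {α : Type*} [TopologicalSpace α] {f g : α → V3} (hf : Continuous f)
    (hg : Continuous g) : Continuous (fun a => Xi (f a) (g a)) := by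
  have h := Xi_cont.comp (hf.prodMk hg)
  exact h

theorem Xi_ne {u x : V3} (hu : u.2.2 = 0) (hx : sq x ≠ 0) (hfix : famA u x = x) : Xi u x ≠ 0 := by
  have hD := nrmD_pos u
  have hM : scaM u = 0 := by simp [scaM, hu]
  set ip : ℝ := (vecN u).1 * x.1 + (vecN u).2.1 * x.2.1 + (vecN u).2.2 * x.2.2 with hip
  have hnorm := nrm_eq u
  rw [hM] at hnorm
  -- the inner product vanishes
  have hip0 : ip = 0 := by
    have h1 : rot 0 (vecN u) x = (nrmD u ^ 2) • x := by
      have h2 := congrArg (fun z => (nrmD u ^ 2) • z) hfix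
      simp only [famA, hM] at h2
      rw [smul_smul, mul_inv_cancel₀ (by positivity), one_smul] at h2
      exact h2
    have e1 := congrArg (fun z : V3 => z.1) h1
    have e2 := congrArg (fun z : V3 => z.2.1) h1
    have e3 := congrArg (fun z : V3 => z.2.2) h1
    simp only [rot, Prod.smul_fst, Prod.smul_snd, smul_eq_mul] at e1 e2 e3
    rw [← hip] at e1 e2 e3
    have hN : (vecN u).1 ^ 2 + (vecN u).2.1 ^ 2 + (vecN u).2.2 ^ 2 = nrmD u ^ 2 := by
      have : sq (vecN u) = nrmD u ^ 2 := by linarith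
      exact this
    rw [hN] at e1 e2 e3
    have f1 : ip * (vecN u).1 = 0 := by linarith
    have f2 : ip * (vecN u).2.1 = 0 := by linarith
    have f3 : ip * (vecN u).2.2 = 0 := by linarith
    have : ip * (nrmD u ^ 2) = 0 := by
      rw [← hN]
      have : ip * ((vecN u).1 ^ 2 + (vecN u).2.1 ^ 2 + (vecN u).2.2 ^ 2) =
        (ip * (vecN u).1) * (vecN u).1 + (ip * (vecN u).2.1) * (vecN u).2.1
          + (ip * (vecN u).2.2) * (vecN u).2.2 := by ring
      rw [this, f1, f2, f3]; ring
    rcases mul_eq_zero.1 this with h | h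
    · exact h
    · exact absurd h (by positivity)
  intro hXi
  have hre := congrArg Complex.re hXi
  have him := congrArg Complex.im hXi
  have hident : (Xi u x).re ^ 2 + (Xi u x).im ^ 2 + ip ^ 2 = nrmD u ^ 2 * sq x := by
    rw [hip]
    simp only [Xi, vecN, nrmD, hor]
    generalize hC : cut (sq u) = C
    simp only [sq, hu]
    simp [pow_two, Complex.mul_re, Complex.mul_im]
    ring
  rw [hre, him, hip0] at hident
  simp only [Complex.zero_re, Complex.zero_im] at hident
  have : nrmD u ^ 2 * sq x = 0 := by linarith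
  rcases mul_eq_zero.1 this with h | h
  · exact absurd h (by positivity)
  · exact hx h

/-- first block of coordinates -/
def bx (w : W6) : V3 := (w 0, w 1, w 2)
/-- second block of coordinates -/
def by' (w : W6) : V3 := (w 3, w 4, w 5)
/-- assemble a vector from two blocks -/
noncomputable def mkW (x y : V3) : W6 := !₂[x.1, x.2.1, x.2.2, y.1, y.2.1, y.2.2]

@[simp] theorem bx_mk (x y : V3) : bx (mkW x y) = x := by
  simp [bx, mkW]
@[simp] theorem by_mk (x y : V3) : by' (mkW x y) = y := by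
  simp [by', mkW]
theorem mk_eta (w : W6) : mkW (bx w) (by' w) = w := by
  ext i
  fin_cases i <;> simp [bx, by', mkW]

theorem norm_sq_W (w : W6) : ‖w‖ ^ 2 = sq (bx w) + sq (by' w) := by
  rw [EuclideanSpace.norm_sq_eq, Fin.sum_univ_six]
  simp [sq, bx, by']
  ring

theorem bx_cont : Continuous bx := by unfold bx; fun_prop
theorem by_cont : Continuous by' := by unfold by'; fun_prop
theorem mkW_cont : Continuous (fun p : V3 × V3 => mkW p.1 p.2) := by
  have h : Continuous (fun p : V3 × V3 =>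
      (![p.1.1, p.1.2.1, p.1.2.2, p.2.1, p.2.2.1, p.2.2.2] : Fin 6 → ℝ)) := by
    apply continuous_pi
    intro i
    fin_cases i
    · exact continuous_fst.fst
    · exact continuous_fst.snd.fst
    · exact continuous_fst.snd.snd
    · exact continuous_snd.fst
    · exact continuous_snd.snd.fst
    · exact continuous_snd.snd.snd
  have h2 : Continuous (fun p : V3 × V3 => WithLp.toLp 2
      (![p.1.1, p.1.2.1, p.1.2.2, p.2.1, p.2.2.1, p.2.2.2] : Fin 6 → ℝ)) :=
    (PiLp.continuous_toLp 2 (fun _ : Fin 6 => ℝ)).comp h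
  exact h2

/-- the exotic involution -/
noncomputable def exo (w : W6) : W6 := mkW (famA (by' w) (bx w)) (famA (bx w) (by' w))

/-- the linear involution -/
noncomputable def lin (w : W6) : W6 := mkW (sg (bx w)) (sg (by' w))

theorem mkW_cont' {α : Type*} [TopologicalSpace α] {f g : α → V3} (hf : Continuous f)
    (hg : Continuous g) : Continuous (fun a => mkW (f a) (g a)) := by
  have h := mkW_cont.comp (hf.prodMk hg)
  exact h

theorem exo_cont : Continuous exo := by
  have h1 : Continuous (fun w : W6 => famA (by' w) (bx w)) := famA_cont' by_cont bx_cont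
  have h2 : Continuous (fun w : W6 => famA (bx w) (by' w)) := famA_cont' bx_cont by_cont
  exact mkW_cont' h1 h2

theorem exo_norm (w : W6) : ‖exo w‖ = ‖w‖ := by
  have h : ‖exo w‖ ^ 2 = ‖w‖ ^ 2 := by
    rw [norm_sq_W, norm_sq_W, exo, bx_mk, by_mk, famA_sq, famA_sq]
  exact (sq_eq_sq₀ (norm_nonneg _) (norm_nonneg _)).1 h

theorem exo_exo {w : W6} (hw : ‖w‖ = 1) : exo (exo w) = w := by
  have h := norm_sq_W w
  rw [hw, one_pow] at h
  have hx := sq_nonneg' (bx w)
  have hy := sq_nonneg' (by' w)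
  rcases le_or_gt (1 / 4) (sq (bx w)) with h1 | h1
  · have e1 : exo w = mkW (famA (by' w) (bx w)) (sg (by' w)) := by
      rw [exo, famA_out h1]
    have e2 : exo (exo w) = mkW (famA (sg (by' w)) (famA (by' w) (bx w)))
        (famA (famA (by' w) (bx w)) (sg (by' w))) := by
      rw [e1, exo, bx_mk, by_mk]
    rw [e2, famA_inv, famA_out (by rw [famA_sq]; exact h1), sg_sg, mk_eta]
  · have h2 : 1 / 4 ≤ sq (by' w) := by linarith
    have e1 : exo w = mkW (sg (bx w)) (famA (bx w) (by' w)) := by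
      rw [exo, famA_out h2]
    have e2 : exo (exo w) = mkW (famA (famA (bx w) (by' w)) (sg (bx w)))
        (famA (sg (bx w)) (famA (bx w) (by' w))) := by
      rw [e1, exo, bx_mk, by_mk]
    rw [e2, famA_inv, famA_out (by rw [famA_sq]; exact h2), sg_sg, mk_eta]

/-- implication of a closed condition and an open one is open -/
theorem imp_open {α : Type*} [TopologicalSpace α] (P Q : α → Prop) (hP : IsClosed {w | P w})
    (hQ : IsOpen {w | Q w}) : IsOpen {w | P w → Q w} := by
  have : {w | P w → Q w} = {w | P w}ᶜ ∪ {w | Q w} := by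
    ext w
    simp only [mem_ofPred_eq, mem_union, mem_compl_iff]
    tauto
  rw [this]
  exact hP.isOpen_compl.union hQ

/-- the good set in block coordinates -/
def goodV : Set (V3 × V3) := {p | 1 / 4 ≤ sq p.1 → |p.2.2.2| < 1 / 10} ∩
  ({p | 1 / 4 ≤ sq p.2 → |p.1.2.2| < 1 / 10} ∩
  ({p | sq p.2 ≤ 1 / 4 → Xi p.2 p.1 ≠ 0} ∩
  {p | 1 / 4 ≤ sq p.2 → Xi p.1 p.2 ≠ 0}))

/-- the good set -/
def goodW : Set W6 := {w | (bx w, by' w) ∈ goodV}

theorem goodV_open : IsOpen goodV := by
  have hx : Continuous (fun p : V3 × V3 => sq p.1) := continuous_sq.comp continuous_fst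
  have hy : Continuous (fun p : V3 × V3 => sq p.2) := continuous_sq.comp continuous_snd
  have h1 : Continuous (fun p : V3 × V3 => |p.2.2.2|) := continuous_snd.snd.snd.abs
  have h2 : Continuous (fun p : V3 × V3 => |p.1.2.2|) := continuous_fst.snd.snd.abs
  have h3 : Continuous (fun p : V3 × V3 => Xi p.2 p.1) :=
    Xi_cont' continuous_snd continuous_fst
  have h4 : Continuous (fun p : V3 × V3 => Xi p.1 p.2) := Xi_cont
  apply IsOpen.inter
  · exact imp_open _ _ (isClosed_le continuous_const hx) (isOpen_lt h1 continuous_const)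
  apply IsOpen.inter
  · exact imp_open _ _ (isClosed_le continuous_const hy) (isOpen_lt h2 continuous_const)
  apply IsOpen.inter
  · exact imp_open _ _ (isClosed_le hy continuous_const) (isOpen_ne_fun h3 continuous_const)
  · exact imp_open _ _ (isClosed_le continuous_const hy) (isOpen_ne_fun h4 continuous_const)

theorem good_open : IsOpen goodW :=
  goodV_open.preimage (bx_cont.prodMk by_cont)

theorem fixed_good {w : W6} (hw : ‖w‖ = 1) (hfix : exo w = w) : w ∈ goodW := by
  have h := norm_sq_W w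
  rw [hw, one_pow] at h
  have hx := sq_nonneg' (bx w)
  have hy := sq_nonneg' (by' w)
  have e1 : famA (by' w) (bx w) = bx w := by
    have := congrArg bx hfix
    rwa [exo, bx_mk] at this
  have e2 : famA (bx w) (by' w) = by' w := by
    have := congrArg by' hfix
    rwa [exo, by_mk] at this
  have z1 : 1 / 4 ≤ sq (bx w) → (by' w).2.2 = 0 := by
    intro h1
    rw [famA_out h1] at e2
    have := congrArg (fun z : V3 => z.2.2) e2
    simp only [sg] at this
    linarith
  have z2 : 1 / 4 ≤ sq (by' w) → (bx w).2.2 = 0 := by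
    intro h1
    rw [famA_out h1] at e1
    have := congrArg (fun z : V3 => z.2.2) e1
    simp only [sg] at this
    linarith
  refine ⟨fun h1 => ?_, fun h1 => ?_, fun h1 => ?_, fun h1 => ?_⟩
  · rw [z1 h1]; norm_num
  · rw [z2 h1]; norm_num
  · exact Xi_ne (z1 (by linarith)) (by linarith) e1
  · exact Xi_ne (z2 h1) (by linarith) e2

/-- the inverse of the horizontal coordinate, regularised at the origin -/
noncomputable def regInv (u : V3) : ℂ :=
  (((max (u.1 ^ 2 + u.2.1 ^ 2) (1 / 5))⁻¹ : ℝ) : ℂ) * (starRingEnd ℂ) (hor u)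

theorem regInv_cont : Continuous regInv := by
  have h2 : Continuous (fun u : V3 => (starRingEnd ℂ) (hor u)) :=
    Complex.continuous_conj.comp hor_cont
  have h1 : Continuous (fun u : V3 => ((max (u.1 ^ 2 + u.2.1 ^ 2) (1 / 5))⁻¹ : ℝ)) := by
    apply Continuous.inv₀
    · fun_prop
    · intro u
      have : (0:ℝ) < max (u.1 ^ 2 + u.2.1 ^ 2) (1 / 5) := lt_max_of_lt_right (by norm_num)
      exact this.ne'
  unfold regInv
  exact (Complex.continuous_ofReal.comp h1).mul h2

theorem regInv_cont' {α : Type*} [TopologicalSpace α] {f : α → V3} (hf : Continuous f) :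
    Continuous (fun a => regInv (f a)) :=
  regInv_cont.comp hf

theorem regInv_eq {u : V3} (h : 1 / 5 ≤ u.1 ^ 2 + u.2.1 ^ 2) : regInv u * hor u = 1 := by
  unfold regInv
  rw [max_eq_left h]
  have hn : u.1 ^ 2 + u.2.1 ^ 2 ≠ 0 := by linarith
  rw [mul_assoc, mul_comm ((starRingEnd ℂ) (hor u)), Complex.mul_conj]
  have : Complex.normSq (hor u) = u.1 ^ 2 + u.2.1 ^ 2 := by
    simp [Complex.normSq_apply, hor]; ring
  rw [this, ← Complex.ofReal_mul, inv_mul_cancel₀ hn, Complex.ofReal_one]

theorem conj_cont' {α : Type*} [TopologicalSpace α] {f : α → ℂ} (hf : Continuous f) :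
    Continuous (fun a => (starRingEnd ℂ) (f a)) :=
  Complex.continuous_conj.comp hf

/-- chart near the first core -/
noncomputable def chA (w : W6) : ℂ × ℂ × ℂ :=
  (Xi (by' w) (bx w), regInv (by' w) ^ 3 * Xi (by' w) (bx w) ^ 2,
    regInv (by' w) * Xi (by' w) (bx w))
/-- chart near the second core -/
noncomputable def chB (w : W6) : ℂ × ℂ × ℂ :=
  ((starRingEnd ℂ) (regInv (bx w) ^ 3 * Xi (bx w) (by' w) ^ 2),
    (starRingEnd ℂ) (Xi (bx w) (by' w)),
    (starRingEnd ℂ) (regInv (bx w) * Xi (bx w) (by' w)))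

theorem chA_cont : Continuous chA := by
  have h3 : Continuous (fun w : W6 => Xi (by' w) (bx w)) := Xi_cont' by_cont bx_cont
  have h4 : Continuous (fun w : W6 => regInv (by' w)) := regInv_cont' by_cont
  unfold chA
  fun_prop

theorem chB_cont : Continuous chB := by
  have h3 : Continuous (fun w : W6 => Xi (bx w) (by' w)) := Xi_cont' bx_cont by_cont
  have h4 : Continuous (fun w : W6 => regInv (bx w)) := regInv_cont' bx_cont
  have k1 : Continuous (fun w : W6 =>
      (starRingEnd ℂ) (regInv (bx w) ^ 3 * Xi (bx w) (by' w) ^ 2)) :=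
    conj_cont' ((h4.pow 3).mul (h3.pow 2))
  have k2 : Continuous (fun w : W6 => (starRingEnd ℂ) (Xi (bx w) (by' w))) := conj_cont' h3
  have k3 : Continuous (fun w : W6 => (starRingEnd ℂ) (regInv (bx w) * Xi (bx w) (by' w))) :=
    conj_cont' (h4.mul h3)
  exact k1.prodMk (k2.prodMk k3)

theorem match_alg (a b ra rb : ℂ) (r1 : rb * b = 1) (r2 : ra * a = 1) :
    ((b ^ 2 * (starRingEnd ℂ) a, rb ^ 3 * (b ^ 2 * (starRingEnd ℂ) a) ^ 2,
      rb * (b ^ 2 * (starRingEnd ℂ) a)) : ℂ × ℂ × ℂ) =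
    ((starRingEnd ℂ) (ra ^ 3 * (a ^ 2 * (starRingEnd ℂ) b) ^ 2),
      (starRingEnd ℂ) (a ^ 2 * (starRingEnd ℂ) b),
      (starRingEnd ℂ) (ra * (a ^ 2 * (starRingEnd ℂ) b))) := by
  have e1 : rb ^ 3 * (b ^ 2 * (starRingEnd ℂ) a) ^ 2 = b * (starRingEnd ℂ) a ^ 2 := by
    have : rb ^ 3 * (b ^ 2 * (starRingEnd ℂ) a) ^ 2 = (rb * b) ^ 3 * (b * (starRingEnd ℂ) a ^ 2) := by
      ring
    rw [this, r1]; ring
  have e2 : rb * (b ^ 2 * (starRingEnd ℂ) a) = b * (starRingEnd ℂ) a := by
    have : rb * (b ^ 2 * (starRingEnd ℂ) a) = (rb * b) * (b * (starRingEnd ℂ) a) := by ring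
    rw [this, r1, one_mul]
  have e3 : ra ^ 3 * (a ^ 2 * (starRingEnd ℂ) b) ^ 2 = a * (starRingEnd ℂ) b ^ 2 := by
    have : ra ^ 3 * (a ^ 2 * (starRingEnd ℂ) b) ^ 2 = (ra * a) ^ 3 * (a * (starRingEnd ℂ) b ^ 2) := by
      ring
    rw [this, r2]; ring
  have e4 : ra * (a ^ 2 * (starRingEnd ℂ) b) = a * (starRingEnd ℂ) b := by
    have : ra * (a ^ 2 * (starRingEnd ℂ) b) = (ra * a) * (a * (starRingEnd ℂ) b) := by ring
    rw [this, r2, one_mul]
  rw [e1, e2, e3, e4]
  simp only [map_mul, map_pow, Complex.conj_conj, Prod.mk.injEq]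
  refine ⟨by ring, by ring, by ring⟩

theorem chart_match {w : W6} (hw : ‖w‖ = 1) (hg : w ∈ goodW) (h : sq (by' w) = 1 / 4) :
    chA w = chB w := by
  have hn := norm_sq_W w
  rw [hw, one_pow, h] at hn
  have hx : sq (bx w) = 3 / 4 := by linarith
  obtain ⟨g1, g2, _, _⟩ := hg
  have a1 := g1 (by rw [hx]; norm_num)
  have a2 := g2 (by rw [h])
  rw [abs_lt] at a1 a2
  have b1 : 1 / 5 ≤ (by' w).1 ^ 2 + (by' w).2.1 ^ 2 := by
    unfold sq at h
    nlinarith
  have b2 : 1 / 5 ≤ (bx w).1 ^ 2 + (bx w).2.1 ^ 2 := by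
    unfold sq at hx
    nlinarith
  have r1 := regInv_eq b1
  have r2 := regInv_eq b2
  have x1 : Xi (by' w) (bx w) = hor (by' w) ^ 2 * (starRingEnd ℂ) (hor (bx w)) := by
    unfold Xi
    rw [cut_zero (by rw [h])]
    simp
  have x2 : Xi (bx w) (by' w) = hor (bx w) ^ 2 * (starRingEnd ℂ) (hor (by' w)) := by
    unfold Xi
    rw [cut_zero (by rw [hx]; norm_num)]
    simp
  unfold chA chB
  rw [x1, x2]
  exact match_alg _ _ _ _ r1 r2

/-- No disc in the good set bounds the core circle. -/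
theorem no_good_disc (f : C(closedBall (0 : ℂ) 1, W6)) (h1 : ∀ t, ‖f t‖ = 1)
    (hg : ∀ t, f t ∈ goodW)
    (hbd : ∀ t : closedBall (0 : ℂ) 1, ‖(t : ℂ)‖ = 1 →
      f t = mkW (0, 0, 0) ((t : ℂ).re, (t : ℂ).im, 0)) : False := by
  classical
  have hy : Continuous (fun t => sq (by' (f t))) := continuous_sq.comp (by_cont.comp f.continuous)
  have hcont : Continuous (fun t => if sq (by' (f t)) ≤ 1 / 4 then chA (f t) else chB (f t)) :=
    Continuous.if_le (chA_cont.comp f.continuous) (chB_cont.comp f.continuous) hy continuous_const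
      (fun t ht => chart_match (h1 t) (hg t) ht)
  apply no_disc_map ⟨_, hcont⟩
  · intro t
    obtain ⟨_, _, g3, g4⟩ := hg t
    simp only [ContinuousMap.coe_mk]
    split_ifs with h
    · refine ⟨?_, Or.inl (g3 h)⟩
      simp only [chA]; ring
    · push Not at h
      refine ⟨?_, Or.inr ?_⟩
      · simp only [chB, map_mul, map_pow]; ring
      · simp only [chB]
        have := g4 h.le
        simpa using this
  · intro t ht
    simp only [ContinuousMap.coe_mk]
    rw [hbd t ht]
    have hs : sq ((t : ℂ).re, (t : ℂ).im, (0:ℝ)) = 1 := by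
      have h2 : ‖(t : ℂ)‖ ^ 2 = 1 := by rw [ht]; norm_num
      rw [Complex.sq_norm, Complex.normSq_apply] at h2
      simp only [sq]
      nlinarith
    rw [by_mk, hs]
    have hnot : ¬ ((1:ℝ) ≤ 1 / 4) := by norm_num
    rw [if_neg hnot]
    have hcut : cut (sq ((0:ℝ), (0:ℝ), (0:ℝ))) = 1 := by
      simp [cut, sq]
    have hX : Xi ((0:ℝ), (0:ℝ), (0:ℝ)) ((t : ℂ).re, (t : ℂ).im, (0:ℝ)) = (t : ℂ) := by
      unfold Xi
      rw [hcut]
      have hh : hor ((0:ℝ), (0:ℝ), (0:ℝ)) = 0 := by
        apply Complex.ext <;> simp [hor]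
      have hh2 : hor ((t : ℂ).re, (t : ℂ).im, (0:ℝ)) = (t : ℂ) := by
        apply Complex.ext <;> simp [hor]
      rw [hh, hh2]
      simp
    have hr : regInv ((0:ℝ), (0:ℝ), (0:ℝ)) = 0 := by
      have hh : hor ((0:ℝ), (0:ℝ), (0:ℝ)) = 0 := by
        apply Complex.ext <;> simp [hor]
      unfold regInv
      rw [hh]; simp
    simp only [chB, bx_mk, by_mk, hX, hr]
    simp

end Pool.Agent.Lib_helper40
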