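import Mathlib

set_option autoImplicit false

open Set Filter Topology Metric

namespace Pool.Agent.Lib_helper40

section stereo
variable {E : Type*} [NormedAddCommGroup E] [InnerProductSpace ℝ E]

/-- stereographic projection from `v` -/
noncomputable def stp (v w : E) : E := (1 - inner ℝ w v)⁻¹ • (w - (inner ℝ w v : ℝ) • v)
/-- inverse of the stereographic projection from `v` -/
noncomputable def sti (v z : E) : E := (‖z‖ ^ 2 + 1)⁻¹ • ((2 : ℝ) • z + (‖z‖ ^ 2 - 1) • v)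

theorem norm_smul_sq (c : ℝ) (x : E) : ‖c • x‖ ^ 2 = c ^ 2 * ‖x‖ ^ 2 := by
  rw [norm_smul, mul_pow, Real.norm_eq_abs, sq_abs]

theorem inner_stp {v : E} (hv : ‖v‖ = 1) (w : E) : inner ℝ (stp v w) v = 0 := by
  unfold stp
  rw [real_inner_smul_left, inner_sub_left, real_inner_smul_left, real_inner_self_eq_norm_sq, hv]
  ring

theorem norm_sti {v z : E} (hv : ‖v‖ = 1) (hz : inner ℝ z v = 0) : ‖sti v z‖ = 1 := by
  have hp : (0:ℝ) < ‖z‖ ^ 2 + 1 := by positivity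
  have h : ‖sti v z‖ ^ 2 = 1 ^ 2 := by
    unfold sti
    rw [norm_smul_sq, norm_add_sq_real, norm_smul_sq, norm_smul_sq, real_inner_smul_left,
      real_inner_smul_right, hz, hv]
    field_simp
    ring
  exact (sq_eq_sq₀ (norm_nonneg _) zero_le_one).1 h

theorem inner_sti {v z : E} (hv : ‖v‖ = 1) (hz : inner ℝ z v = 0) :
    inner ℝ (sti v z) v = (‖z‖ ^ 2 - 1) / (‖z‖ ^ 2 + 1) := by
  unfold sti
  rw [real_inner_smul_left, inner_add_left, real_inner_smul_left, real_inner_smul_left,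
    real_inner_self_eq_norm_sq, hz, hv]
  have hp : (0:ℝ) < ‖z‖ ^ 2 + 1 := by positivity
  field_simp
  ring

theorem inner_sti_lt {v z : E} (hv : ‖v‖ = 1) (hz : inner ℝ z v = 0) :
    inner ℝ (sti v z) v < 1 := by
  rw [inner_sti hv hz]
  have hp : (0:ℝ) < ‖z‖ ^ 2 + 1 := by positivity
  rw [div_lt_one hp]
  linarith

theorem stp_sti {v z : E} (hv : ‖v‖ = 1) (hz : inner ℝ z v = 0) : stp v (sti v z) = z := by
  have hp : (0:ℝ) < ‖z‖ ^ 2 + 1 := by positivity
  unfold stp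
  rw [inner_sti hv hz]
  unfold sti
  have e : (‖z‖ ^ 2 + 1)⁻¹ • ((2 : ℝ) • z + (‖z‖ ^ 2 - 1) • v)
      - ((‖z‖ ^ 2 - 1) / (‖z‖ ^ 2 + 1)) • v = (2 / (‖z‖ ^ 2 + 1)) • z := by
    rw [smul_add, smul_smul, smul_smul, div_eq_inv_mul, div_eq_inv_mul, add_sub_cancel_right]
  rw [e, smul_smul]
  have e2 : (1 - (‖z‖ ^ 2 - 1) / (‖z‖ ^ 2 + 1))⁻¹ * (2 / (‖z‖ ^ 2 + 1)) = 1 := by
    have : 1 - (‖z‖ ^ 2 - 1) / (‖z‖ ^ 2 + 1) = 2 / (‖z‖ ^ 2 + 1) := by field_simp; ring
    rw [this]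
    exact inv_mul_cancel₀ (by positivity)
  rw [e2, one_smul]

theorem norm_stp_sq {v w : E} (hv : ‖v‖ = 1) (hs : inner ℝ w v < 1) (hw : ‖w‖ = 1) :
    ‖stp v w‖ ^ 2 = (1 + inner ℝ w v) / (1 - inner ℝ w v) := by
  unfold stp
  have hp : (0:ℝ) < 1 - inner ℝ w v := by linarith
  rw [norm_smul_sq, norm_sub_sq_real, norm_smul_sq, real_inner_smul_right, hv, hw]
  field_simp
  ring

theorem sti_stp {v w : E} (hv : ‖v‖ = 1) (hs : inner ℝ w v < 1) (hw : ‖w‖ = 1) :
    sti v (stp v w) = w := by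
  have hp : (0:ℝ) < 1 - inner ℝ w v := by linarith
  unfold sti
  rw [norm_stp_sq hv hs hw]
  unfold stp
  set s : ℝ := inner ℝ w v with hsdef
  have e1 : (1 + s) / (1 - s) + 1 = 2 / (1 - s) := by field_simp; ring
  have e2 : (1 + s) / (1 - s) - 1 = 2 * s / (1 - s) := by field_simp; ring
  rw [e1, e2, smul_smul, smul_sub, smul_smul, smul_add, smul_sub, smul_smul, smul_smul, smul_smul]
  have e3 : (2 / (1 - s))⁻¹ * (2 * (1 - s)⁻¹) = 1 := by field_simp
  have e4 : (2 / (1 - s))⁻¹ * (2 * (1 - s)⁻¹ * s) = s := by field_simp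
  have e5 : (2 / (1 - s))⁻¹ * (2 * s / (1 - s)) = s := by field_simp
  rw [e3, e4, e5, one_smul, sub_add_cancel]

theorem inner_lt_one' {v w : E} (hv : ‖v‖ = 1) (hw : ‖w‖ = 1) (hne : w ≠ v) :
    inner ℝ w v < 1 := by
  have h : ‖w - v‖ ^ 2 = 2 - 2 * inner ℝ w v := by
    rw [norm_sub_sq_real, hv, hw]; ring
  have h2 : 0 < ‖w - v‖ := norm_pos_iff.2 (sub_ne_zero.2 hne)
  have h3 : 0 < ‖w - v‖ ^ 2 := by positivity
  linarith

theorem sti_continuous (v : E) : Continuous (sti v) := by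
  unfold sti
  apply Continuous.smul
  · apply Continuous.inv₀
    · fun_prop
    · intro z
      positivity
  · fun_prop

theorem stp_continuousOn (v : E) : ContinuousOn (stp v) {w | (inner ℝ w v : ℝ) < 1} := by
  unfold stp
  apply ContinuousOn.smul
  · apply ContinuousOn.inv₀
    · fun_prop
    · intro w hw
      have : (inner ℝ w v : ℝ) < 1 := hw
      linarith
  · fun_prop

end stereo

end Pool.Agent.Lib_helper40
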