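import Mathlib
import Pool.Agent.Lib_helper40.Stereo
import Pool.Agent.Lib_helper40.ExoticInv

set_option autoImplicit false

open Set Filter Topology Metric

namespace Pool.Agent.Lib_helper40

/-- the pole -/
noncomputable def vv : W6 := mkW (3 / 5, 0, 0) (4 / 5, 0, 0)

theorem vv_norm : ‖vv‖ = 1 := by
  have h : ‖vv‖ ^ 2 = 1 ^ 2 := by
    rw [norm_sq_W, vv, bx_mk, by_mk]
    norm_num [sq]
  exact (sq_eq_sq₀ (norm_nonneg _) zero_le_one).1 h

theorem inner_mk (w : W6) (x y : V3) : inner ℝ w (mkW x y) =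
    (bx w).1 * x.1 + (bx w).2.1 * x.2.1 + (bx w).2.2 * x.2.2
    + ((by' w).1 * y.1 + (by' w).2.1 * y.2.1 + (by' w).2.2 * y.2.2) := by
  rw [PiLp.inner_apply, Fin.sum_univ_six]
  simp [mkW, bx, by']
  ring

theorem inner_vv (w : W6) : inner ℝ w vv = 3 / 5 * (bx w).1 + 4 / 5 * (by' w).1 := by
  rw [vv, inner_mk]; ring

theorem exo_vv : exo vv = vv := by
  unfold exo vv
  rw [bx_mk, by_mk, famA_out (by norm_num [sq]), famA_out (by norm_num [sq])]
  simp [sg]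

theorem exo_ne {w : W6} (hw : ‖w‖ = 1) (hne : w ≠ vv) : exo w ≠ vv := by
  intro h
  apply hne
  have := congrArg exo h
  rwa [exo_exo hw, exo_vv] at this

/-- near the pole, `exo` is linear -/
theorem exo_near {w : W6} (hw : ‖w‖ = 1) (h : 199 / 200 ≤ (inner ℝ w vv : ℝ)) :
    (inner ℝ (exo w) vv : ℝ) = inner ℝ w vv := by
  have hn := norm_sq_W w
  rw [hw, one_pow] at hn
  have hd : ((bx w).1 - 3 / 5) ^ 2 + ((by' w).1 - 4 / 5) ^ 2 ≤ 1 / 100 := by
    rw [inner_vv] at h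
    unfold sq at hn
    nlinarith [sq_nonneg (bx w).2.1, sq_nonneg (bx w).2.2, sq_nonneg (by' w).2.1,
      sq_nonneg (by' w).2.2]
  have h1 : 1 / 2 ≤ (bx w).1 := by nlinarith [sq_nonneg ((by' w).1 - 4 / 5)]
  have h2 : 1 / 2 ≤ (by' w).1 := by nlinarith [sq_nonneg ((bx w).1 - 3 / 5)]
  have g1 : 1 / 4 ≤ sq (bx w) := by
    unfold sq
    nlinarith [sq_nonneg (bx w).2.1, sq_nonneg (bx w).2.2]
  have g2 : 1 / 4 ≤ sq (by' w) := by
    unfold sq
    nlinarith [sq_nonneg (by' w).2.1, sq_nonneg (by' w).2.2]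
  rw [inner_vv, inner_vv]
  unfold exo
  rw [bx_mk, by_mk, famA_out g1, famA_out g2]
  simp [sg]

/-- the involution of the hyperplane orthogonal to the pole -/
noncomputable def phi (z : W6) : W6 := stp vv (exo (sti vv z))

theorem phi_perp (z : W6) : inner ℝ (phi z) vv = 0 := inner_stp vv_norm _

theorem exo_sti_lt {z : W6} (hz : inner ℝ z vv = 0) : inner ℝ (exo (sti vv z)) vv < 1 := by
  have h1 := norm_sti vv_norm hz
  have h2 := inner_sti_lt vv_norm hz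
  apply inner_lt_one' vv_norm
  · rw [exo_norm, h1]
  · apply exo_ne h1
    intro h
    rw [h, real_inner_self_eq_norm_sq, vv_norm] at h2
    norm_num at h2

theorem sti_phi {z : W6} (hz : inner ℝ z vv = 0) : sti vv (phi z) = exo (sti vv z) :=
  sti_stp vv_norm (exo_sti_lt hz) (by rw [exo_norm, norm_sti vv_norm hz])

theorem phi_phi {z : W6} (hz : inner ℝ z vv = 0) : phi (phi z) = z := by
  have h : phi (phi z) = stp vv (exo (sti vv (phi z))) := rfl
  rw [h, sti_phi hz, exo_exo (norm_sti vv_norm hz), stp_sti vv_norm hz]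

theorem phi_ball {z : W6} (hz : inner ℝ z vv = 0) (hb : ‖z‖ ≤ 20) : ‖phi z‖ ≤ 20 := by
  by_contra hcon
  push Not at hcon
  have hn : ‖sti vv z‖ = 1 := norm_sti vv_norm hz
  have hn' : ‖exo (sti vv z)‖ = 1 := by rw [exo_norm, hn]
  have hs' : (inner ℝ (exo (sti vv z)) vv : ℝ) = (‖phi z‖ ^ 2 - 1) / (‖phi z‖ ^ 2 + 1) := by
    rw [← sti_phi hz, inner_sti vv_norm (phi_perp z)]
  have h400 : 400 < ‖phi z‖ ^ 2 := by nlinarith
  have hge : 199 / 200 ≤ (inner ℝ (exo (sti vv z)) vv : ℝ) := by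
    rw [hs', le_div_iff₀ (by positivity)]
    linarith
  have h := exo_near hn' hge
  rw [exo_exo hn, inner_sti vv_norm hz, hs'] at h
  have hp1 : (0:ℝ) < ‖z‖ ^ 2 + 1 := by positivity
  have hp2 : (0:ℝ) < ‖phi z‖ ^ 2 + 1 := by positivity
  rw [div_eq_div_iff hp1.ne' hp2.ne'] at h
  have hz2 : ‖z‖ ^ 2 ≤ 400 := by nlinarith [norm_nonneg z]
  nlinarith

theorem phi_continuousOn : ContinuousOn phi {z | (inner ℝ z vv : ℝ) = 0} := by
  have h1 : ContinuousOn (fun z => exo (sti vv z)) {z | (inner ℝ z vv : ℝ) = 0} :=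
    (exo_cont.comp (sti_continuous vv)).continuousOn
  exact (stp_continuousOn vv).comp h1 (fun z hz => exo_sti_lt hz)

theorem phi_fixed_good {z : W6} (hz : inner ℝ z vv = 0) (hfix : phi z = z) :
    sti vv z ∈ goodW := by
  apply fixed_good (norm_sti vv_norm hz)
  rw [← sti_phi hz, hfix]

/-- the core disc -/
noncomputable def Zt (t : ℂ) : W6 := mkW (0, 0, 0) (t.re, t.im, 0)

theorem Zt_cont : Continuous Zt := by
  apply mkW_cont'
  · exact continuous_const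
  · exact Complex.continuous_re.prodMk (Complex.continuous_im.prodMk continuous_const)

theorem Zt_norm_sq (t : ℂ) : ‖Zt t‖ ^ 2 = ‖t‖ ^ 2 := by
  rw [norm_sq_W, Zt, bx_mk, by_mk, Complex.sq_norm, Complex.normSq_apply]
  simp only [sq]
  ring

theorem Zt_norm (t : ℂ) : ‖Zt t‖ = ‖t‖ :=
  (sq_eq_sq₀ (norm_nonneg _) (norm_nonneg _)).1 (Zt_norm_sq t)

theorem Zt_inner (t : ℂ) : inner ℝ (Zt t) vv = 4 / 5 * t.re := by
  rw [inner_vv, Zt, bx_mk, by_mk]; simp

theorem Zt_inner_le {t : ℂ} (ht : ‖t‖ ≤ 1) : (inner ℝ (Zt t) vv : ℝ) ≤ 4 / 5 := by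
  rw [Zt_inner]
  have := (Complex.abs_re_le_norm t)
  have h2 := le_abs_self t.re
  linarith

theorem exo_Zt {t : ℂ} (ht : ‖t‖ = 1) : exo (Zt t) = Zt t := by
  have hs : sq (t.re, t.im, (0:ℝ)) = 1 := by
    have h2 : ‖t‖ ^ 2 = 1 := by rw [ht]; norm_num
    rw [Complex.sq_norm, Complex.normSq_apply] at h2
    simp only [sq]
    nlinarith
  have hcut : cut (sq ((0:ℝ), (0:ℝ), (0:ℝ))) = 1 := by
    simp [cut, sq]
  unfold exo Zt
  rw [bx_mk, by_mk, famA_out (by rw [hs]; norm_num)]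
  have h1 : famA ((0:ℝ), (0:ℝ), (0:ℝ)) (t.re, t.im, (0:ℝ)) = (t.re, t.im, (0:ℝ)) := by
    unfold famA scaM vecN nrmD
    rw [hcut]
    simp [rot, sq]
  rw [h1]
  simp [sg]

/-- the base disc -/
noncomputable def fz (t : ℂ) : W6 := stp vv (Zt t)

theorem fz_perp (t : ℂ) : inner ℝ (fz t) vv = 0 := inner_stp vv_norm _

theorem fz_norm {t : ℂ} (ht : ‖t‖ ≤ 1) : ‖fz t‖ ≤ 5 := by
  have hs := Zt_inner_le ht
  set s : ℝ := inner ℝ (Zt t) vv with hsdef
  have h1 : ‖Zt t - s • vv‖ ≤ 1 := by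
    have : ‖Zt t - s • vv‖ ^ 2 ≤ 1 ^ 2 := by
      rw [norm_sub_sq_real, real_inner_smul_right, norm_smul_sq, vv_norm, Zt_norm, ← hsdef]
      have : ‖t‖ ^ 2 ≤ 1 := by nlinarith [norm_nonneg t]
      nlinarith [sq_nonneg s]
    exact (sq_le_sq₀ (norm_nonneg _) zero_le_one).1 this
  have h2 : fz t = (1 - s)⁻¹ • (Zt t - s • vv) := rfl
  rw [h2, norm_smul, Real.norm_of_nonneg (inv_nonneg.2 (by linarith))]
  have h3 : (1 - s)⁻¹ ≤ 5 := by
    rw [inv_le_comm₀ (by linarith) (by norm_num)]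
    linarith
  have h4 : 0 ≤ (1 - s)⁻¹ := inv_nonneg.2 (by linarith)
  calc (1 - s)⁻¹ * ‖Zt t - s • vv‖ ≤ (1 - s)⁻¹ * 1 := mul_le_mul_of_nonneg_left h1 h4
    _ ≤ 5 := by linarith

theorem sti_fz {t : ℂ} (ht : ‖t‖ = 1) : sti vv (fz t) = Zt t := by
  apply sti_stp vv_norm
  · have := Zt_inner_le ht.le
    linarith
  · rw [Zt_norm, ht]

theorem phi_fz {t : ℂ} (ht : ‖t‖ = 1) : phi (fz t) = fz t := by
  unfold phi
  rw [sti_fz ht, exo_Zt ht]
  rfl

theorem fz_cont : ContinuousOn fz (closedBall 0 1) := by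
  apply (stp_continuousOn vv).comp Zt_cont.continuousOn
  intro t ht
  have := Zt_inner_le (mem_closedBall_zero_iff.1 ht)
  show (inner ℝ (Zt t) vv : ℝ) < 1
  linarith

end Pool.Agent.Lib_helper40
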