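import Mathlib
import Pool.Agent.Lib_helper40.BodyTransfer
import Pool.Agent.Lib_helper40.ExoPhi

set_option autoImplicit false

open Set Filter Topology Metric

namespace Pool.Agent.Lib_helper40

/-- the closed unit disc -/
abbrev DD : Type := closedBall (0 : ℂ) 1

theorem fz_cont' : Continuous (fun t : DD => fz t) :=
  continuousOn_iff_continuous_domRestrict.1 fz_cont

/-- the compact slab -/
def KK : Set W6 := {z | (inner ℝ z vv : ℝ) = 0} ∩ closedBall 0 20

theorem KK_compact : IsCompact KK := by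
  have h1 : IsClosed {z : W6 | (inner ℝ z vv : ℝ) = 0} :=
    isClosed_eq (continuous_id.inner continuous_const) continuous_const
  exact (isCompact_closedBall (0 : W6) 20).inter_left h1

theorem bad_disp : ∃ δ : ℝ, 0 < δ ∧ ∀ z ∈ KK, sti vv z ∉ goodW → δ ≤ ‖phi z - z‖ := by
  have hc : IsCompact (KK ∩ {z | sti vv z ∉ goodW}) := by
    apply KK_compact.inter_right
    exact good_open.isClosed_compl.preimage (sti_continuous vv)
  rcases (KK ∩ {z | sti vv z ∉ goodW}).eq_empty_or_nonempty with he | hne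
  · refine ⟨1, one_pos, fun z hz hz2 => ?_⟩
    have : z ∈ KK ∩ {z | sti vv z ∉ goodW} := ⟨hz, hz2⟩
    rw [he] at this
    exact absurd this (notMem_empty z)
  · have hcont : ContinuousOn (fun z => ‖phi z - z‖) (KK ∩ {z | sti vv z ∉ goodW}) :=
      ((phi_continuousOn.mono (fun z hz => hz.1.1)).sub continuousOn_id).norm
    obtain ⟨z0, hz0, hmin⟩ := hc.exists_isMinOn hne hcont
    refine ⟨‖phi z0 - z0‖, ?_, fun z hz hz2 => hmin ⟨hz, hz2⟩⟩
    rw [norm_pos_iff, sub_ne_zero]
    intro hfix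
    exact hz0.2 (phi_fixed_good hz0.1.1 hfix)

section abs
variable {X : Type*} [NormedAddCommGroup X] [NormedSpace ℝ X]

theorem exotic_abs (ev : X → DD → W6)
    (hadd : ∀ x y t, ev (x + y) t = ev x t + ev y t)
    (hsmul : ∀ (c : ℝ) x t, ev (c • x) t = c • ev x t)
    (hnorm : ∀ x t, ‖ev x t‖ ≤ ‖x‖)
    (hnorm' : ∀ (x : X) (c : ℝ), 0 ≤ c → (∀ t, ‖ev x t‖ ≤ c) → ‖x‖ ≤ c)
    (hcont : ∀ x, Continuous (ev x))
    (hperp : ∀ x t, (inner ℝ (ev x t) vv : ℝ) = 0)
    (hbd : ∀ x, ∀ t : DD, ‖(t : ℂ)‖ = 1 → ev x t = 0)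
    (hsurj : ∀ g : DD → W6, Continuous g → (∀ t, (inner ℝ (g t) vv : ℝ) = 0) →
      (∀ t : DD, ‖(t : ℂ)‖ = 1 → g t = 0) → ∃ x, ev x = g) :
    ∃ f : X → X, MapsTo f (closedBall 0 1) (closedBall 0 1) ∧
      UniformContinuousOn f (closedBall 0 1) ∧
      (∀ x ∈ closedBall (0 : X) 1, f (f x) = x) ∧
      ∃ δ' > 0, ∀ x ∈ closedBall (0 : X) 1, δ' ≤ ‖f x - x‖ := by
  have hneg : ∀ x t, ev (-x) t = - ev x t := by
    intro x t
    rw [← neg_one_smul ℝ x, hsmul, neg_one_smul]
  have hsub : ∀ x y t, ev (x - y) t = ev x t - ev y t := by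
    intro x y t
    rw [sub_eq_add_neg, hadd, hneg, ← sub_eq_add_neg]
  have hinj : ∀ x y, ev x = ev y → x = y := by
    intro x y h
    have h1 : ‖x - y‖ ≤ 0 := hnorm' _ 0 le_rfl (fun t => by rw [hsub, h, sub_self, norm_zero])
    exact sub_eq_zero.1 (norm_le_zero_iff.1 h1)
  have hperp' : ∀ x, ∀ t : DD, (inner ℝ (fz t + ev x t) vv : ℝ) = 0 := by
    intro x t
    rw [inner_add_left, fz_perp, hperp, add_zero]
  have hPsi : ∀ h : X, ∃ k : X, ∀ t : DD, ev k t = phi (fz t + ev h t) - fz t := by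
    intro h
    obtain ⟨k, hk⟩ := hsurj (fun t => phi (fz t + ev h t) - fz t)
      ((phi_continuousOn.comp_continuous (fz_cont'.add (hcont h)) (fun t => hperp' h t)).sub fz_cont')
      (fun t => by rw [inner_sub_left, phi_perp, fz_perp, sub_zero])
      (fun t ht => by rw [hbd h t ht, add_zero, phi_fz ht, sub_self])
    exact ⟨k, fun t => congrFun hk t⟩
  choose Psi hPsi using hPsi
  have hPP : ∀ h, Psi (Psi h) = h := by
    intro h
    apply hinj
    funext t
    rw [hPsi, hPsi, add_sub_cancel, phi_phi (hperp' h t), add_sub_cancel_left]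
  -- the convex body
  obtain ⟨C, hC⟩ : ∃ C : Set X, C = {h | ∀ t : DD, ‖fz t + ev h t‖ ≤ 20} := ⟨_, rfl⟩
  have hCmem : ∀ h, h ∈ C ↔ ∀ t : DD, ‖fz t + ev h t‖ ≤ 20 := by
    intro h; rw [hC]; rfl
  have hmaps : ∀ h ∈ C, Psi h ∈ C := by
    intro h hh
    rw [hCmem] at hh ⊢
    intro t
    rw [hPsi, add_sub_cancel]
    exact phi_ball (hperp' h t) (hh t)
  have hevc : ∀ t : DD, Continuous (fun h => ev h t) := by
    intro t
    rw [Metric.continuous_iff]
    intro b ε hε
    refine ⟨ε, hε, fun a ha => ?_⟩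
    rw [dist_eq_norm] at ha ⊢
    rw [← hsub]
    exact lt_of_le_of_lt (hnorm _ _) ha
  have hclosed : IsClosed C := by
    rw [hC]
    simp only [ofPred_forall]
    refine isClosed_iInter fun t => ?_
    exact isClosed_le (continuous_const.add (hevc t)).norm continuous_const
  have hconv : Convex ℝ C := by
    intro x hx y hy a b ha hb hab
    rw [hCmem] at hx hy ⊢
    intro t
    have e : fz t + ev (a • x + b • y) t = a • (fz t + ev x t) + b • (fz t + ev y t) := by
      rw [hadd, hsmul, hsmul, smul_add, smul_add]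
      have e2 : fz (t : ℂ) = a • fz (t : ℂ) + b • fz (t : ℂ) := by
        rw [← add_smul, hab, one_smul]
      nth_rewrite 1 [e2]
      abel
    rw [e]
    calc _ ≤ ‖a • (fz t + ev x t)‖ + ‖b • (fz t + ev y t)‖ := norm_add_le _ _
      _ = a * ‖fz t + ev x t‖ + b * ‖fz t + ev y t‖ := by
          rw [norm_smul, norm_smul, Real.norm_of_nonneg ha, Real.norm_of_nonneg hb]
      _ ≤ a * 20 + b * 20 := add_le_add (mul_le_mul_of_nonneg_left (hx t) ha)
          (mul_le_mul_of_nonneg_left (hy t) hb)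
      _ = 20 := by rw [← add_mul, hab, one_mul]
  have hball : ball (0 : X) 15 ⊆ C := by
    intro h hh
    rw [hCmem]
    intro t
    have h1 : ‖h‖ < 15 := by simpa using hh
    have h2 := hnorm h t
    have h3 : ‖fz (t : ℂ)‖ ≤ 5 := fz_norm (mem_closedBall_zero_iff.1 t.2)
    have h4 := norm_add_le (fz (t : ℂ)) (ev h t)
    linarith
  have hsubball : C ⊆ closedBall (0 : X) 25 := by
    intro h hh
    rw [hCmem] at hh
    rw [mem_closedBall_zero_iff]
    apply hnorm' h _ (by norm_num)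
    intro t
    have h1 := hh t
    have h3 : ‖fz (t : ℂ)‖ ≤ 5 := fz_norm (mem_closedBall_zero_iff.1 t.2)
    have e : ev h t = (fz t + ev h t) - fz t := by abel
    rw [e]
    have h4 := norm_sub_le (fz (t : ℂ) + ev h t) (fz (t : ℂ))
    linarith
  have hnhds : C ∈ 𝓝 (0 : X) := mem_of_superset (ball_mem_nhds 0 (by norm_num)) hball
  have hiff : ∀ h, gauge C h ≤ 1 ↔ h ∈ C := by
    intro h
    rw [gauge_le_one_iff_mem_closure hconv hnhds, hclosed.closure_eq]
  have hKK : ∀ h ∈ C, ∀ t : DD, fz t + ev h t ∈ KK := by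
    intro h hh t
    rw [hCmem] at hh
    exact ⟨hperp' h t, mem_closedBall_zero_iff.2 (hh t)⟩
  have huc : UniformContinuousOn Psi C := by
    have h1 : UniformContinuousOn phi KK :=
      KK_compact.uniformContinuousOn_of_continuous (phi_continuousOn.mono inter_subset_left)
    rw [Metric.uniformContinuousOn_iff] at h1 ⊢
    intro ε hε
    obtain ⟨δ, hδ, h2⟩ := h1 (ε / 2) (by linarith)
    refine ⟨δ, hδ, fun x hx y hy hxy => ?_⟩
    rw [dist_eq_norm] at hxy ⊢
    apply lt_of_le_of_lt _ (half_lt_self hε)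
    apply hnorm' _ _ (by linarith)
    intro t
    rw [hsub, hPsi, hPsi, sub_sub_sub_cancel_right]
    have h3 := h2 _ (hKK x hx t) _ (hKK y hy t) (by
      rw [dist_eq_norm, add_sub_add_left_eq_sub, ← hsub]
      exact lt_of_le_of_lt (hnorm (x - y) t) hxy)
    rw [dist_eq_norm] at h3
    exact h3.le
  have hdisp : ∃ δ : ℝ, 0 < δ ∧ ∀ h ∈ C, δ ≤ ‖Psi h - h‖ := by
    obtain ⟨δ, hδ, hb⟩ := bad_disp
    refine ⟨δ, hδ, fun h hh => ?_⟩
    by_contra hcon
    push Not at hcon
    have hgood : ∀ t : DD, sti vv (fz t + ev h t) ∈ goodW := by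
      intro t
      by_contra hnot
      have h1 := hb _ (hKK h hh t) hnot
      have h2 := hnorm (Psi h - h) t
      rw [hsub, hPsi, sub_sub] at h2
      linarith
    refine no_good_disc ⟨fun t => sti vv (fz t + ev h t),
      (sti_continuous vv).comp (fz_cont'.add (hcont h))⟩ (fun t => ?_) (fun t => ?_)
      (fun t ht => ?_)
    · exact norm_sti vv_norm (hperp' h t)
    · exact hgood t
    · show sti vv (fz t + ev h t) = _
      rw [hbd h t ht, add_zero, sti_fz ht]
      rfl
  obtain ⟨δ, hδ, hd⟩ := hdisp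
  have hset : {x : X | gauge C x ≤ 1} = C := by
    ext x
    exact hiff x
  have habs : Absorbent ℝ C := absorbent_nhds_zero hnhds
  have hle : ∀ x, gauge C x ≤ 1 / 15 * ‖x‖ := by
    intro x
    have := mul_gauge_le_norm (x := x) hball
    linarith
  refine body_transfer (gauge C) (c := 1 / 25) (L := 1 / 15) (by norm_num) (by norm_num)
    ?_ hle ?_ ?_ Psi ?_ ?_ (fun x _ => hPP x) hδ ?_
  · intro x
    have := le_gauge_of_subset_closedBall (x := x) habs (by norm_num) hsubball
    linarith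
  · intro t ht x
    exact gauge_smul_of_nonneg ht x
  · intro x y
    have h1 := gauge_add_le hconv habs (x - y) y
    have h2 := gauge_add_le hconv habs (y - x) x
    rw [sub_add_cancel] at h1 h2
    have h3 := hle (x - y)
    have h4 := hle (y - x)
    rw [norm_sub_rev] at h4
    rw [abs_le]
    constructor <;> linarith
  · intro x hx
    exact (hiff _).2 (hmaps _ ((hiff _).1 hx))
  · rw [hset]
    exact huc
  · intro x hx
    exact hd x ((hiff _).1 hx)

end abs

end Pool.Agent.Lib_helper40
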