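import Mathlib
import Pool.Agent.Lib_helper40.ExoSpace

set_option autoImplicit false

open Set Filter Topology Metric

namespace Pool.Agent.Lib_helper40

/-- The function space: continuous maps of the disc into the hyperplane `vv^⊥` of six-space,
vanishing on the boundary circle. -/
def XX : Submodule ℝ C(DD, W6) where
  carrier := {h | (∀ t : DD, ‖(t : ℂ)‖ = 1 → h t = 0) ∧ ∀ t, (inner ℝ (h t) vv : ℝ) = 0}
  zero_mem' := ⟨fun t _ => by simp, fun t => by simp⟩
  add_mem' := by
    rintro a b ⟨ha, ha'⟩ ⟨hb, hb'⟩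
    refine ⟨fun t ht => ?_, fun t => ?_⟩
    · rw [ContinuousMap.add_apply, ha t ht, hb t ht, add_zero]
    · rw [ContinuousMap.add_apply, inner_add_left, ha' t, hb' t, add_zero]
  smul_mem' := by
    rintro c a ⟨ha, ha'⟩
    refine ⟨fun t ht => ?_, fun t => ?_⟩
    · rw [ContinuousMap.smul_apply, ha t ht, smul_zero]
    · rw [ContinuousMap.smul_apply, real_inner_smul_left, ha' t, mul_zero]

theorem XX_closed : IsClosed (XX : Set C(DD, W6)) := by
  have h1 : IsClosed {h : C(DD, W6) | ∀ t : DD, ‖(t : ℂ)‖ = 1 → h t = 0} := by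
    simp only [ofPred_forall]
    refine isClosed_iInter fun t => isClosed_iInter fun _ => ?_
    exact isClosed_eq (continuous_eval_const t) continuous_const
  have h2 : IsClosed {h : C(DD, W6) | ∀ t, (inner ℝ (h t) vv : ℝ) = 0} := by
    simp only [ofPred_forall]
    refine isClosed_iInter fun t => ?_
    exact isClosed_eq ((continuous_eval_const t).inner continuous_const) continuous_const
  exact h1.inter h2

/-- the Banach space of the counterexample -/
def X1 : Type := ↥XX

noncomputable instance : NormedAddCommGroup X1 := inferInstanceAs (NormedAddCommGroup ↥XX)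
noncomputable instance : NormedSpace ℝ X1 := inferInstanceAs (NormedSpace ℝ ↥XX)
instance : CompleteSpace X1 := XX_closed.completeSpace_coe

/-- evaluation -/
noncomputable def ev1 (h : X1) (t : DD) : W6 := (h.1 : C(DD, W6)) t

theorem exotic_ball : ∃ f : X1 → X1, MapsTo f (closedBall 0 1) (closedBall 0 1) ∧
      UniformContinuousOn f (closedBall 0 1) ∧
      (∀ x ∈ closedBall (0 : X1) 1, f (f x) = x) ∧
      ∃ δ' > 0, ∀ x ∈ closedBall (0 : X1) 1, δ' ≤ ‖f x - x‖ := by
  apply exotic_abs ev1
  · intro x y t; rfl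
  · intro c x t; rfl
  · intro x t
    have h : ‖x‖ = ‖x.1‖ := rfl
    rw [h]
    exact ContinuousMap.norm_coe_le_norm _ t
  · intro x c hc hx
    have h : ‖x‖ = ‖x.1‖ := rfl
    rw [h]
    exact (ContinuousMap.norm_le _ hc).2 hx
  · intro x
    exact x.1.continuous
  · intro x t
    exact x.2.2 t
  · intro x t ht
    exact x.2.1 t ht
  · intro g hg hg1 hg2
    exact ⟨⟨⟨g, hg⟩, ⟨hg2, hg1⟩⟩, rfl⟩

end Pool.Agent.Lib_helper40
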