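import Mathlib
import Pool.Agent.Lib_helper40.ConvexStrict
import Pool.Agent.Lib_helper40.AreaBlowup

set_option autoImplicit false

open Set Filter Topology MeasureTheory
open scoped ENNReal NNReal

namespace Pool.Agent.Lib_helper40

/-- convex positively homogeneous Lipschitz functions, positive off the origin -/
structure IsGauge (N : E3 → ℝ) : Prop where
  conv : ConvexOn ℝ univ N
  hom : ∀ t : ℝ, 0 ≤ t → ∀ y, N (t • y) = t * N y
  pos : ∀ y, y ≠ 0 → 0 < N y
  lip : ∃ C, LipschitzWith C N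

/-- basis vectors of space -/
noncomputable def c0 : E3 := EuclideanSpace.single 0 1
noncomputable def c1 : E3 := EuclideanSpace.single 1 1
noncomputable def c2 : E3 := EuclideanSpace.single 2 1

/-- linear part of the chart -/
noncomputable def chartL : E2 →L[ℝ] E3 :=
  (EuclideanSpace.proj (𝕜 := ℝ) (0 : Fin 2)).smulRight c0
    + (EuclideanSpace.proj (𝕜 := ℝ) (1 : Fin 2)).smulRight c1

theorem chartL_apply (s : E2) : chartL s = s 0 • c0 + s 1 • c1 := by
  simp [chartL]

/-- the affine chart plane -/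
noncomputable def lift (s : E2) : E3 := chartL s + c2

@[simp] theorem lift_zero' (s : E2) : lift s 0 = s 0 := by
  simp [lift, chartL_apply, c0, c1, c2]
@[simp] theorem lift_one' (s : E2) : lift s 1 = s 1 := by
  simp [lift, chartL_apply, c0, c1, c2]
@[simp] theorem lift_two' (s : E2) : lift s 2 = 1 := by
  simp [lift, chartL_apply, c0, c1, c2]

theorem lift_ne (s : E2) : lift s ≠ 0 := by
  intro h
  have := congrArg (fun v : E3 => v 2) h
  simp at this

theorem lift_strict (s : E2) : HasStrictFDerivAt lift chartL s := by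
  unfold lift
  exact chartL.hasStrictFDerivAt.add_const c2

/-- radial parametrisation of the surface -/
noncomputable def gam (N : E3 → ℝ) (s : E2) : E3 := (N (lift s))⁻¹ • lift s

/-- derivative of the parametrisation -/
noncomputable def gamD (n : ℝ) (f' : E3 →L[ℝ] ℝ) (y : E3) : E2 →L[ℝ] E3 :=
  n⁻¹ • chartL + ((-(n ^ 2)⁻¹) • (f'.comp chartL)).smulRight y

theorem gam_strict {N : E3 → ℝ} (hN : IsGauge N) {s : E2} {f' : E3 →L[ℝ] ℝ}
    (h : HasFDerivAt N f' (lift s)) :
    HasStrictFDerivAt (gam N) (gamD (N (lift s)) f' (lift s)) s := by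
  have h1 := hasStrictFDerivAt_of_convexOn hN.conv h
  have h2 : HasStrictFDerivAt (fun s => N (lift s)) (f'.comp chartL) s := h1.comp s (lift_strict s)
  have hne : N (lift s) ≠ 0 := (hN.pos _ (lift_ne s)).ne'
  have h3 : HasStrictFDerivAt (fun s => (N (lift s))⁻¹)
      ((-(N (lift s) ^ 2)⁻¹) • (f'.comp chartL)) s :=
    (hasStrictDerivAt_inv hne).comp_hasStrictFDerivAt s h2
  exact h3.smul (lift_strict s)

theorem gamD_apply (n : ℝ) (f' : E3 →L[ℝ] ℝ) (y : E3) (w : E2) :
    gamD n f' y w = n⁻¹ • chartL w + (-(n ^ 2)⁻¹ * f' (chartL w)) • y := by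
  simp [gamD]

theorem gamD_injective {n : ℝ} (hn : 0 < n) (f' : E3 →L[ℝ] ℝ) (s : E2) :
    Function.Injective (gamD n f' (lift s)) := by
  rw [injective_iff_map_eq_zero]
  intro w hw
  rw [gamD_apply, chartL_apply] at hw
  have h2 := congrArg (fun v : E3 => v 2) hw
  simp only [PiLp.add_apply, PiLp.smul_apply, smul_eq_mul, lift_two', PiLp.zero_apply] at h2
  have e0 : (c0 : E3) 2 = 0 := by simp [c0]
  have e1 : (c1 : E3) 2 = 0 := by simp [c1]
  rw [e0, e1] at h2
  simp only [mul_zero, add_zero, zero_add, mul_one] at h2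
  rw [h2, zero_smul, add_zero] at hw
  have hn' : n⁻¹ ≠ 0 := inv_ne_zero hn.ne'
  have hw2 := (smul_eq_zero.1 hw).resolve_left hn'
  have a0 := congrArg (fun v : E3 => v 0) hw2
  have a1 := congrArg (fun v : E3 => v 1) hw2
  simp [c0, c1] at a0 a1
  ext i
  fin_cases i
  · simpa using a0
  · simpa using a1

theorem euler {N : E3 → ℝ} (hN : IsGauge N) {y : E3} {f' : E3 →L[ℝ] ℝ}
    (h : HasFDerivAt N f' y) : f' y = N y := by
  have h1 := subgradient_of_hasFDerivAt hN.conv h ((2:ℝ) • y)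
  have h2 := subgradient_of_hasFDerivAt hN.conv h ((0:ℝ) • y)
  rw [hN.hom 2 (by norm_num)] at h1
  rw [hN.hom 0 le_rfl] at h2
  have e1 : (2:ℝ) • y - y = y := by module
  have e2 : (0:ℝ) • y - y = -y := by module
  rw [e1] at h1
  rw [e2, map_neg] at h2
  linarith

/-- gradient vector of a functional -/
noncomputable def gradV (f' : E3 →L[ℝ] ℝ) : E3 := (InnerProductSpace.toDual ℝ E3).symm f'

theorem gradV_inner (f' : E3 →L[ℝ] ℝ) (w : E3) : inner ℝ (gradV f') w = f' w := by
  simp [gradV]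

theorem gradV_norm (f' : E3 →L[ℝ] ℝ) : ‖gradV f'‖ = ‖f'‖ := by
  simp [gradV]

theorem f'_expand (f' : E3 →L[ℝ] ℝ) (w : E3) :
    f' w = gradV f' 0 * w 0 + gradV f' 1 * w 1 + gradV f' 2 * w 2 := by
  rw [← gradV_inner, PiLp.inner_apply, Fin.sum_univ_three]
  simp
  ring

theorem gram_identity {n : ℝ} (hn : 0 < n) (f' : E3 →L[ℝ] ℝ) (s : E2) (he : f' (lift s) = n) :
    (‖f'‖ / n ^ 3) ^ 2 = ‖gamD n f' (lift s) b0‖ ^ 2 * ‖gamD n f' (lift s) b1‖ ^ 2
      - (inner ℝ (gamD n f' (lift s) b0) (gamD n f' (lift s) b1)) ^ 2 := by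
  have hx := f'_expand f' (lift s)
  rw [he] at hx
  simp only [lift_zero', lift_one', lift_two', mul_one] at hx
  have hc0 : chartL b0 = c0 := by rw [chartL_apply]; simp [b0]
  have hc1 : chartL b1 = c1 := by rw [chartL_apply]; simp [b1]
  have hf0 : f' c0 = gradV f' 0 := by rw [f'_expand]; simp [c0]
  have hf1 : f' c1 = gradV f' 1 := by rw [f'_expand]; simp [c1]
  have hnorm : ‖f'‖ ^ 2 = gradV f' 0 ^ 2 + gradV f' 1 ^ 2 + gradV f' 2 ^ 2 := by
    rw [← gradV_norm, EuclideanSpace.norm_sq_eq, Fin.sum_univ_three]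
    simp
  rw [div_pow, hnorm, gamD_apply, gamD_apply, hc0, hc1, hf0, hf1,
    EuclideanSpace.norm_sq_eq, EuclideanSpace.norm_sq_eq, PiLp.inner_apply,
    Fin.sum_univ_three, Fin.sum_univ_three, Fin.sum_univ_three]
  simp only [PiLp.add_apply, PiLp.smul_apply, smul_eq_mul, lift_zero', lift_one', lift_two',
    Real.norm_eq_abs, sq_abs]
  simp [c0, c1]
  set x0 := gradV f' 0
  set x1 := gradV f' 1
  set x2 := gradV f' 2
  set u := s 0
  set v := s 1
  have hx2 : x2 = n - x0 * u - x1 * v := by linarith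
  rw [hx2]
  field_simp
  ring

end Pool.Agent.Lib_helper40
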