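import Mathlib
import Pool.Agent.Lib_helper40.GaugeSurface

set_option autoImplicit false

open Set Filter Topology MeasureTheory
open scoped ENNReal NNReal

namespace Pool.Agent.Lib_helper40

theorem IsGauge.zero {N : E3 → ℝ} (hN : IsGauge N) : N 0 = 0 := by
  have := hN.hom 0 le_rfl 0
  simpa using this

theorem IsGauge.continuous {N : E3 → ℝ} (hN : IsGauge N) : Continuous N := by
  obtain ⟨C, hC⟩ := hN.lip
  exact hC.continuous

/-- points where both `N` and its reflection are differentiable are dense -/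
theorem good_points_dense {N : E3 → ℝ} (hN : IsGauge N) :
    Dense {y : E3 | (DifferentiableAt ℝ N y ∧ DifferentiableAt ℝ N (-y)) ∧ y 2 ≠ 0} := by
  obtain ⟨C, hC⟩ := hN.lip
  have h1 : ∀ᵐ y : E3, DifferentiableAt ℝ N y := hC.ae_differentiableAt
  have hC2 : LipschitzWith (C * 1) (fun y : E3 => N (-y)) :=
    hC.comp (LipschitzWith.id.neg)
  have h2 : ∀ᵐ y : E3, DifferentiableAt ℝ (fun y : E3 => N (-y)) y := hC2.ae_differentiableAt
  have h3 : ∀ᵐ y : E3, y 2 ≠ 0 := by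
    rw [ae_iff]
    have hset : {y : E3 | ¬ (y 2 ≠ 0)} =
        ((LinearMap.ker ((EuclideanSpace.proj (𝕜 := ℝ) (2 : Fin 3) : E3 →L[ℝ] ℝ) : E3 →ₗ[ℝ] ℝ)
          : Submodule ℝ E3) : Set E3) := by
      ext y
      simp
    rw [hset]
    apply Measure.addHaar_submodule
    intro htop
    have hc : c2 ∈ (LinearMap.ker ((EuclideanSpace.proj (𝕜 := ℝ) (2 : Fin 3) : E3 →L[ℝ] ℝ)
        : E3 →ₗ[ℝ] ℝ) : Submodule ℝ E3) := by
      rw [htop]; trivial
    simp [c2] at hc
  have h4 : ∀ᵐ y : E3, (DifferentiableAt ℝ N y ∧ DifferentiableAt ℝ N (-y)) ∧ y 2 ≠ 0 := by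
    filter_upwards [h1, h2, h3] with y a b c
    refine ⟨⟨a, ?_⟩, c⟩
    have hb : DifferentiableAt ℝ (fun y : E3 => N (-y)) (-(-y)) := by simpa using b
    have hd : DifferentiableAt ℝ (fun z : E3 => -z) (-y) := by fun_prop
    have := hb.comp (-y) hd
    have e : (fun y : E3 => N (-y)) ∘ (fun y : E3 => -y) = N := by
      funext z; simp
    rwa [e] at this
  exact Measure.dense_of_ae h4

theorem subgrad_limit {N : E3 → ℝ} (hN : Continuous N) {y : ℕ → E3} {y0 : E3}
    {η : ℕ → E3} {η0 : E3} (hy : Tendsto y atTop (𝓝 y0)) (hη : Tendsto η atTop (𝓝 η0))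
    (h : ∀ k z, N (y k) + inner ℝ (η k) (z - y k) ≤ N z) (z : E3) :
    N y0 + inner ℝ η0 (z - y0) ≤ N z := by
  have h1 : Tendsto (fun k => N (y k) + inner ℝ (η k) (z - y k)) atTop
      (𝓝 (N y0 + inner ℝ η0 (z - y0))) :=
    ((hN.tendsto y0).comp hy).add (hη.inner (tendsto_const_nhds.sub hy))
  exact le_of_tendsto h1 (Eventually.of_forall fun k => h k z)

theorem norm_fderiv_le {N : E3 → ℝ} {C : ℝ≥0} (hC : LipschitzWith C N) {y : E3}
    {f' : E3 →L[ℝ] ℝ} (h : HasFDerivAt N f' y) : ‖gradV f'‖ ≤ C := by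
  rw [gradV_norm]
  exact h.le_of_lipschitz hC

/-- If the gradient identity holds at all good points then `N` is even. -/
theorem even_of_gradient_identity {N : E3 → ℝ} (hN : IsGauge N)
    (hid : ∀ (y : E3) (f' g' : E3 →L[ℝ] ℝ), y 2 ≠ 0 → HasFDerivAt N f' y →
      HasFDerivAt N g' (-y) → ‖f'‖ * N (-y) ^ 3 = ‖g'‖ * N y ^ 3) :
    ∀ y, N (-y) ≤ N y := by
  obtain ⟨C, hC⟩ := hN.lip
  have hcont := hN.continuous
  -- maximum of the ratio on the sphere
  have hne : (Metric.sphere (0 : E3) 1).Nonempty := ⟨c2, by simp [c2]⟩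
  have hsph : ∀ y ∈ Metric.sphere (0 : E3) 1, y ≠ 0 := by
    intro y hy h0
    rw [h0] at hy
    simp at hy
  have hq : ContinuousOn (fun y : E3 => N (-y) / N y) (Metric.sphere (0 : E3) 1) := by
    apply ContinuousOn.div
    · exact (hcont.comp continuous_neg).continuousOn
    · exact hcont.continuousOn
    · intro y hy
      exact (hN.pos y (hsph y hy)).ne'
  obtain ⟨y0, hy0, hmax⟩ := (isCompact_sphere (0 : E3) 1).exists_isMaxOn hne hq
  set lam := N (-y0) / N y0 with hlam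
  have hy0ne := hsph y0 hy0
  have hNy0 := hN.pos y0 hy0ne
  have hle : ∀ y, N (-y) ≤ lam * N y := by
    intro y
    by_cases hy : y = 0
    · subst hy
      simp [hN.zero]
    have hnorm : 0 < ‖y‖ := norm_pos_iff.2 hy
    have hmem : ‖y‖⁻¹ • y ∈ Metric.sphere (0 : E3) 1 := by
      rw [mem_sphere_zero_iff_norm, norm_smul, norm_inv, norm_norm, inv_mul_cancel₀ hnorm.ne']
    have h1 := hmax hmem
    simp only [mem_ofPred_eq] at h1
    have h2 : -(‖y‖⁻¹ • y) = ‖y‖⁻¹ • (-y) := by rw [smul_neg]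
    rw [h2, hN.hom _ (by positivity), hN.hom _ (by positivity)] at h1
    have h3 : 0 < N y := hN.pos y hy
    rw [mul_div_mul_left _ _ (inv_ne_zero hnorm.ne'), div_le_iff₀ h3] at h1
    exact h1
  have hlam0 : N (-y0) = lam * N y0 := by
    rw [hlam]; field_simp
  rcases le_or_gt lam 1 with hl | hl
  · intro y
    have h0 : 0 ≤ N y := by
      by_cases hy : y = 0
      · rw [hy, hN.zero]
      · exact (hN.pos y hy).le
    calc N (-y) ≤ lam * N y := hle y
      _ ≤ 1 * N y := mul_le_mul_of_nonneg_right hl h0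
      _ = N y := one_mul _
  exfalso
  -- the subdifferential at y0
  set S : Set E3 := {η | ∀ z, N y0 + inner ℝ η (z - y0) ≤ N z} with hS
  have hSclosed : IsClosed S := by
    rw [hS]
    have : {η : E3 | ∀ z, N y0 + inner ℝ η (z - y0) ≤ N z} =
        ⋂ z, {η : E3 | N y0 + inner ℝ η (z - y0) ≤ N z} := by
      ext η; simp
    rw [this]
    apply isClosed_iInter
    intro z
    apply isClosed_le _ continuous_const
    fun_prop
  have hSbdd : S ⊆ Metric.closedBall 0 C := by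
    intro η hη
    rw [mem_closedBall_zero_iff]
    have h1 := hη (y0 + η)
    rw [add_sub_cancel_left, real_inner_self_eq_norm_sq] at h1
    have h2 : N (y0 + η) - N y0 ≤ C * ‖η‖ := by
      have h3 := hC.dist_le_mul (y0 + η) y0
      rw [Real.dist_eq, dist_eq_norm, add_sub_cancel_left] at h3
      exact (le_abs_self _).trans h3
    by_contra hcon
    push Not at hcon
    have hpos : 0 < ‖η‖ := lt_of_le_of_lt C.2 hcon
    nlinarith
  have hScompact : IsCompact S :=
    (isCompact_closedBall (0 : E3) C).of_isClosed_subset hSclosed hSbdd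
  have hdense := good_points_dense hN
  -- selection of good points close to a prescribed curve
  have hsel : ∀ e : E3, ∃ y : ℕ → E3, ∀ k : ℕ,
      ((DifferentiableAt ℝ N (y k) ∧ DifferentiableAt ℝ N (-(y k))) ∧ (y k) 2 ≠ 0) ∧
      dist (y0 + (1 / ((k : ℝ) + 1)) • e) (y k) < (1 / ((k : ℝ) + 1)) ^ 2 := by
    intro e
    have hk : ∀ k : ℕ, ∃ y : E3,
      ((DifferentiableAt ℝ N y ∧ DifferentiableAt ℝ N (-y)) ∧ y 2 ≠ 0) ∧
      dist (y0 + (1 / ((k : ℝ) + 1)) • e) y < (1 / ((k : ℝ) + 1)) ^ 2 := by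
      intro k
      obtain ⟨y, hy, hd⟩ := Metric.dense_iff.1 hdense (y0 + (1 / ((k : ℝ) + 1)) • e)
        ((1 / ((k : ℝ) + 1)) ^ 2) (by positivity)
      exact ⟨y, hd, by rw [dist_comm]; exact hy⟩
    choose y hy using hk
    exact ⟨y, hy⟩
  have ht0 : Tendsto (fun k : ℕ => 1 / ((k : ℝ) + 1)) atTop (𝓝 0) :=
    tendsto_one_div_add_atTop_nhds_zero_nat (𝕜 := ℝ)
  have hconv : ∀ (e : E3) (y : ℕ → E3),
      (∀ k : ℕ, dist (y0 + (1 / ((k : ℝ) + 1)) • e) (y k) < (1 / ((k : ℝ) + 1)) ^ 2) →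
      Tendsto y atTop (𝓝 y0) := by
    intro e y hy
    have h1 : Tendsto (fun k : ℕ => y0 + (1 / ((k : ℝ) + 1)) • e) atTop (𝓝 y0) := by
      have := (ht0.smul_const e).const_add y0
      simpa using this
    have h2 : Tendsto (fun k : ℕ => dist (y0 + (1 / ((k : ℝ) + 1)) • e) (y k)) atTop (𝓝 0) := by
      apply squeeze_zero (fun _ => dist_nonneg) (fun k => (hy k).le)
      have := ht0.pow 2
      simpa using this
    exact (tendsto_iff_of_dist h2).1 h1
  -- gradients as subgradients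
  have hsub : ∀ (y : E3), DifferentiableAt ℝ N y → ∀ z,
      N y + inner ℝ (gradV (fderiv ℝ N y)) (z - y) ≤ N z := by
    intro y hy z
    rw [gradV_inner]
    exact subgradient_of_hasFDerivAt hN.conv hy.hasFDerivAt z
  -- nonemptiness
  have hSne : S.Nonempty := by
    obtain ⟨y, hy⟩ := hsel 0
    have hyl := hconv 0 y (fun k => (hy k).2)
    have hb : ∀ k, gradV (fderiv ℝ N (y k)) ∈ Metric.closedBall (0 : E3) C := by
      intro k
      rw [mem_closedBall_zero_iff]
      exact norm_fderiv_le hC (hy k).1.1.1.hasFDerivAt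
    obtain ⟨η, _, φ, hφ, hlim⟩ := (isCompact_closedBall (0 : E3) C).tendsto_subseq hb
    refine ⟨η, fun z => ?_⟩
    exact subgrad_limit hcont (hyl.comp hφ.tendsto_atTop) hlim
      (fun k z => hsub _ (hy (φ k)).1.1.1 z) z
  obtain ⟨ξ, hξS, hξmax⟩ := hScompact.exists_isMaxOn hSne continuous_norm.continuousOn
  have hξ0 : ξ ≠ 0 := by
    intro h0
    have h1 := hξS 0
    rw [h0, inner_zero_left, hN.zero] at h1
    linarith
  have hξpos : 0 < ‖ξ‖ := norm_pos_iff.2 hξ0
  set e : E3 := ‖ξ‖⁻¹ • ξ with he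
  have hξe : inner ℝ ξ e = ‖ξ‖ := by
    rw [he, inner_smul_right, real_inner_self_eq_norm_sq]
    field_simp
  have hen : ‖e‖ = 1 := by
    rw [he, norm_smul, norm_inv, norm_norm, inv_mul_cancel₀ hξpos.ne']
  clear_value e
  obtain ⟨y, hy⟩ := hsel e
  have hyl := hconv e y (fun k => (hy k).2)
  -- lower bound of gradient norms
  have hlow : ∀ k : ℕ, ‖ξ‖ - 2 * C * (1 / ((k : ℝ) + 1)) ≤ ‖gradV (fderiv ℝ N (y k))‖ := by
    intro k
    set t : ℝ := 1 / ((k : ℝ) + 1) with ht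
    have htpos : 0 < t := by positivity
    set η := gradV (fderiv ℝ N (y k)) with hη
    have h1 := hsub (y k) (hy k).1.1.1 y0
    have h2 := hξS (y k)
    rw [← hη] at h1
    have hηC : ‖η‖ ≤ C := norm_fderiv_le hC (hy k).1.1.1.hasFDerivAt
    have hξC : ‖ξ‖ ≤ C := by
      have := hSbdd hξS
      rwa [mem_closedBall_zero_iff] at this
    set δ : E3 := y k - (y0 + t • e) with hδ
    have hδn : ‖δ‖ ≤ t ^ 2 := by
      have := (hy k).2
      rw [dist_comm, dist_eq_norm] at this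
      exact this.le
    have hyk : y k - y0 = t • e + δ := by rw [hδ]; abel
    have hyk' : y0 - y k = -(t • e + δ) := by rw [← hyk]; abel
    rw [hyk'] at h1
    rw [hyk] at h2
    rw [inner_neg_right] at h1
    have h3 : inner ℝ ξ (t • e + δ) ≤ inner ℝ η (t • e + δ) := by linarith
    rw [inner_add_right, inner_add_right, inner_smul_right, inner_smul_right, hξe] at h3
    have h4 : inner ℝ η e ≤ ‖η‖ := by
      have := real_inner_le_norm η e
      rwa [hen, mul_one] at this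
    have h5 : inner ℝ η δ ≤ ‖η‖ * ‖δ‖ := real_inner_le_norm _ _
    have h6 : -(‖ξ‖ * ‖δ‖) ≤ inner ℝ ξ δ := neg_le_of_abs_le (abs_real_inner_le_norm _ _)
    have h7 : ‖η‖ * ‖δ‖ ≤ C * t ^ 2 := mul_le_mul hηC hδn (norm_nonneg _) C.2
    have h8 : ‖ξ‖ * ‖δ‖ ≤ C * t ^ 2 := mul_le_mul hξC hδn (norm_nonneg _) C.2
    have h9 : t * inner ℝ η e ≤ t * ‖η‖ := mul_le_mul_of_nonneg_left h4 htpos.le
    have h10 : t * (‖ξ‖ - 2 * C * t) ≤ t * ‖η‖ := by nlinarith
    exact le_of_mul_le_mul_left h10 htpos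
  -- the reflected gradients
  set ζ : ℕ → E3 := fun k => -gradV (fderiv ℝ N (-(y k))) with hζ
  have hζC : ∀ k, ζ k ∈ Metric.closedBall (0 : E3) C := by
    intro k
    rw [mem_closedBall_zero_iff, hζ]
    simp only [norm_neg]
    exact norm_fderiv_le hC (hy k).1.1.2.hasFDerivAt
  obtain ⟨ζ0, _, φ, hφ, hζlim⟩ := (isCompact_closedBall (0 : E3) C).tendsto_subseq hζC
  have hylφ := hyl.comp hφ.tendsto_atTop
  have hsub2 : ∀ z, N (-y0) + inner ℝ ζ0 (z - y0) ≤ N (-z) := by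
    intro z
    refine subgrad_limit (N := fun y => N (-y)) (hcont.comp continuous_neg) hylφ hζlim ?_ z
    intro k z
    have h1 := hsub _ (hy (φ k)).1.1.2 (-z)
    have h2 : -z - -(y (φ k)) = -(z - y (φ k)) := by abel
    rw [h2, inner_neg_right] at h1
    simp only [Function.comp, hζ, inner_neg_left]
    linarith
  have hlampos : 0 < lam := by linarith
  have hmemS : lam⁻¹ • ζ0 ∈ S := by
    intro z
    have h1 := (hsub2 z).trans (hle z)
    rw [hlam0] at h1
    rw [inner_smul_left]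
    simp only [conj_trivial]
    have h2 : lam * (N y0 + lam⁻¹ * inner ℝ ζ0 (z - y0)) ≤ lam * N z := by
      have : lam * (N y0 + lam⁻¹ * inner ℝ ζ0 (z - y0)) = lam * N y0 + inner ℝ ζ0 (z - y0) := by
        field_simp
      rw [this]
      exact h1
    exact le_of_mul_le_mul_left h2 hlampos
  have hζnorm : ‖ζ0‖ ≤ lam * ‖ξ‖ := by
    have h1 := hξmax hmemS
    simp only [mem_ofPred_eq] at h1
    rw [norm_smul, norm_inv, Real.norm_of_nonneg hlampos.le, inv_mul_le_iff₀ hlampos] at h1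
    exact h1
  -- pass to the limit in the gradient identity
  have hlimL : Tendsto (fun k => ‖ζ (φ k)‖ * N (y (φ k)) ^ 3) atTop (𝓝 (‖ζ0‖ * N y0 ^ 3)) :=
    (hζlim.norm).mul (((hcont.tendsto y0).comp hylφ).pow 3)
  have hcontneg : Continuous (fun y : E3 => N (-y)) := hcont.comp continuous_neg
  have hlimR : Tendsto (fun k => (‖ξ‖ - 2 * C * (1 / ((φ k : ℝ) + 1))) * N (-(y (φ k))) ^ 3) atTop
      (𝓝 ((‖ξ‖ - 2 * C * 0) * N (-y0) ^ 3)) := by
    apply Tendsto.mul
    · apply Tendsto.const_sub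
      apply Tendsto.const_mul
      exact ht0.comp hφ.tendsto_atTop
    · exact ((hcontneg.tendsto y0).comp hylφ).pow 3
  have hcompare : ∀ k, (‖ξ‖ - 2 * C * (1 / ((φ k : ℝ) + 1))) * N (-(y (φ k))) ^ 3 ≤
      ‖ζ (φ k)‖ * N (y (φ k)) ^ 3 := by
    intro k
    have h1 := hid (y (φ k)) _ _ (hy (φ k)).1.2 (hy (φ k)).1.1.1.hasFDerivAt
      (hy (φ k)).1.1.2.hasFDerivAt
    have h2 : ‖ζ (φ k)‖ = ‖fderiv ℝ N (-(y (φ k)))‖ := by
      rw [hζ]; simp only [norm_neg]; rw [gradV_norm]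
    rw [h2, ← h1, ← gradV_norm]
    apply mul_le_mul_of_nonneg_right (hlow (φ k))
    have hne : -(y (φ k)) ≠ 0 := by
      intro h0
      have h3 := (hy (φ k)).1.2
      rw [neg_eq_zero] at h0
      rw [h0] at h3
      simp at h3
    exact pow_nonneg (hN.pos _ hne).le 3
  have hfinal := le_of_tendsto_of_tendsto hlimR hlimL (Eventually.of_forall hcompare)
  rw [mul_zero, sub_zero, hlam0, mul_pow] at hfinal
  have hN3 : 0 < N y0 ^ 3 := by positivity
  have h1 : ‖ξ‖ * lam ^ 3 ≤ ‖ζ0‖ := by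
    have : ‖ξ‖ * lam ^ 3 * N y0 ^ 3 ≤ ‖ζ0‖ * N y0 ^ 3 := by linarith
    exact le_of_mul_le_mul_right this hN3
  have h2 : ‖ξ‖ * lam ^ 3 ≤ ‖ξ‖ * lam := by linarith
  have h3 : lam ^ 3 ≤ lam := le_of_mul_le_mul_left h2 hξpos
  nlinarith [mul_pos hlampos hlampos]

end Pool.Agent.Lib_helper40
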