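import Mathlib
import Pool.Agent.Lib_helper40.GaugeSurface

set_option autoImplicit false

open Set Filter Topology MeasureTheory
open scoped ENNReal NNReal

namespace Pool.Agent.Lib_helper40

/-- One-dimensional step: two finite measures on the line with the same total mass and the same
symmetrised distribution function agree. -/
theorem measure_eq_of_symm {α β : Measure ℝ} [IsFiniteMeasure α] [IsFiniteMeasure β]
    (htot : α univ = β univ)
    (h : ∀ t, α (Ioi t) + β (Iio t) = α (Iio t) + β (Ioi t)) : α = β := by
  -- real valued version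
  have hr : ∀ t, α.real (Iic t) + α.real (Iio t) = β.real (Iic t) + β.real (Iio t) := by
    intro t
    have h1 : α.real (Ioi t) = α.real univ - α.real (Iic t) := by
      have := measureReal_compl (μ := α) (measurableSet_Iic (a := t))
      rw [compl_Iic] at this
      exact this
    have h2 : β.real (Ioi t) = β.real univ - β.real (Iic t) := by
      have := measureReal_compl (μ := β) (measurableSet_Iic (a := t))
      rw [compl_Iic] at this
      exact this
    have h3 : α.real univ = β.real univ := by
      simp only [Measure.real, htot]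
    have h4 : α.real (Ioi t) + β.real (Iio t) = α.real (Iio t) + β.real (Ioi t) := by
      have := congrArg ENNReal.toReal (h t)
      rw [ENNReal.toReal_add (measure_ne_top _ _) (measure_ne_top _ _),
        ENNReal.toReal_add (measure_ne_top _ _) (measure_ne_top _ _)] at this
      exact this
    linarith
  -- limits from the right
  have lim : ∀ (μ : Measure ℝ) [IsFiniteMeasure μ] (t : ℝ),
      Tendsto (fun n : ℕ => μ.real (Iic (t + 1 / ((n : ℝ) + 1))) +
        μ.real (Iio (t + 1 / ((n : ℝ) + 1)))) atTop (𝓝 (μ.real (Iic t) + μ.real (Iic t))) := by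
    intro μ _ t
    have hanti : ∀ n m : ℕ, n ≤ m → t + 1 / ((m : ℝ) + 1) ≤ t + 1 / ((n : ℝ) + 1) := by
      intro n m hnm
      have : (n : ℝ) ≤ m := by exact_mod_cast hnm
      gcongr
    have hlim : Tendsto (fun n : ℕ => t + 1 / ((n : ℝ) + 1)) atTop (𝓝 t) := by
      have := (tendsto_one_div_add_atTop_nhds_zero_nat (𝕜 := ℝ)).const_add t
      simpa using this
    have hpos : ∀ n : ℕ, t < t + 1 / ((n : ℝ) + 1) := by
      intro n
      have : (0:ℝ) < 1 / ((n : ℝ) + 1) := by positivity
      linarith
    have i1 : ⋂ n : ℕ, Iic (t + 1 / ((n : ℝ) + 1)) = Iic t := by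
      ext x
      simp only [mem_iInter, mem_Iic]
      constructor
      · intro hx
        exact ge_of_tendsto hlim (Eventually.of_forall hx)
      · intro hx n
        exact hx.trans (hpos n).le
    have i2 : ⋂ n : ℕ, Iio (t + 1 / ((n : ℝ) + 1)) = Iic t := by
      ext x
      simp only [mem_iInter, mem_Iic, mem_Iio]
      constructor
      · intro hx
        exact ge_of_tendsto hlim (Eventually.of_forall fun n => (hx n).le)
      · intro hx n
        exact lt_of_le_of_lt hx (hpos n)
    have t1 := tendsto_measure_iInter_atTop (μ := μ)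
      (s := fun n : ℕ => Iic (t + 1 / ((n : ℝ) + 1)))
      (fun n => measurableSet_Iic.nullMeasurableSet)
      (fun n m hnm => Iic_subset_Iic.2 (hanti n m hnm)) ⟨0, measure_ne_top _ _⟩
    have t2 := tendsto_measure_iInter_atTop (μ := μ)
      (s := fun n : ℕ => Iio (t + 1 / ((n : ℝ) + 1)))
      (fun n => measurableSet_Iio.nullMeasurableSet)
      (fun n m hnm => Iio_subset_Iio (hanti n m hnm)) ⟨0, measure_ne_top _ _⟩
    rw [i1] at t1
    rw [i2] at t2
    exact ((ENNReal.tendsto_toReal (measure_ne_top _ _)).comp t1).add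
      ((ENNReal.tendsto_toReal (measure_ne_top _ _)).comp t2)
  apply Measure.ext_of_Iic
  intro t
  have l1 := lim α t
  have l2 := lim β t
  have heq : (fun n : ℕ => α.real (Iic (t + 1 / ((n : ℝ) + 1))) +
        α.real (Iio (t + 1 / ((n : ℝ) + 1)))) = (fun n : ℕ => β.real (Iic (t + 1 / ((n : ℝ) + 1))) +
        β.real (Iio (t + 1 / ((n : ℝ) + 1)))) := by
    funext n
    exact hr _
  rw [heq] at l1
  have hu := tendsto_nhds_unique l1 l2
  have hu2 : α.real (Iic t) = β.real (Iic t) := by linarith
  exact (ENNReal.toReal_eq_toReal_iff' (measure_ne_top _ _) (measure_ne_top _ _)).1 hu2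

/-- inverse chart -/
noncomputable def chartG (y : E3) : E2 := !₂[y 0 / y 2, y 1 / y 2]

@[simp] theorem chartG_zero (y : E3) : chartG y 0 = y 0 / y 2 := by simp [chartG]
@[simp] theorem chartG_one (y : E3) : chartG y 1 = y 1 / y 2 := by simp [chartG]

theorem chartG_neg (y : E3) : chartG (-y) = chartG y := by
  ext i
  fin_cases i
  · simp [chartG, neg_div_neg_eq]
  · simp [chartG, neg_div_neg_eq]

theorem measurable_chartG : Measurable chartG := by
  unfold chartG
  have h : Measurable (fun y : E3 => (![y 0 / y 2, y 1 / y 2] : Fin 2 → ℝ)) := by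
    apply measurable_pi_lambda
    intro i
    have hm : ∀ j : Fin 3, Measurable (fun y : E3 => y j) := fun j =>
      ((EuclideanSpace.proj (𝕜 := ℝ) j).continuous).measurable
    fin_cases i
    · exact (hm 0).div (hm 2)
    · exact (hm 1).div (hm 2)
  exact (WithLp.measurable_toLp 2 (Fin 2 → ℝ)).comp h

theorem lift_chartG {y : E3} (hy : y 2 ≠ 0) : lift (chartG y) = (y 2)⁻¹ • y := by
  ext i
  fin_cases i
  · simp [div_eq_inv_mul]
  · simp [div_eq_inv_mul]
  · simp [hy]

theorem chartG_smul_lift {c : ℝ} (hc : c ≠ 0) (s : E2) : chartG (c • lift s) = s := by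
  ext i
  fin_cases i
  · simp [hc]
  · simp [hc]

/-- image of a set under the radial parametrisation -/
theorem gam_image {N : E3 → ℝ} (hN : IsGauge N) (D : Set E2) :
    gam N '' D = {y | N y = 1 ∧ 0 < y 2 ∧ chartG y ∈ D} := by
  ext y
  constructor
  · rintro ⟨s, hs, rfl⟩
    have hp := hN.pos _ (lift_ne s)
    refine ⟨?_, ?_, ?_⟩
    · unfold gam
      rw [hN.hom _ (by positivity), inv_mul_cancel₀ hp.ne']
    · simp [gam, hp]
    · unfold gam
      rw [chartG_smul_lift (by positivity)]
      exact hs
  · rintro ⟨h1, h2, h3⟩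
    refine ⟨chartG y, h3, ?_⟩
    unfold gam
    rw [lift_chartG h2.ne', hN.hom _ (by positivity), h1, mul_one, inv_inv, smul_smul,
      mul_inv_cancel₀ h2.ne', one_smul]

/-- inner product with a vector through the chart -/
theorem inner_chart (w : E2) (t : ℝ) (y : E3) (hy : y 2 ≠ 0) :
    inner ℝ y (!₂[w 0, w 1, -t] : E3) = y 2 * (inner ℝ (chartG y) w - t) := by
  rw [PiLp.inner_apply, PiLp.inner_apply, Fin.sum_univ_three, Fin.sum_univ_two]
  simp
  field_simp
  ring

/-- From half-space balance to equality of the two radially projected measures. -/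
theorem chart_measure_eq (μ : Measure E3) [IsFiniteMeasure μ]
    (h0 : μ {y | y 2 = 0} = 0)
    (hbal : ∀ v : E3, μ {y | 0 < inner ℝ y v} = μ {y | inner ℝ y v < 0}) :
    (μ.restrict {y | 0 < y 2}).map chartG = (μ.restrict {y | y 2 < 0}).map chartG := by
  have hm2 : Measurable (fun y : E3 => y 2) :=
    ((EuclideanSpace.proj (𝕜 := ℝ) (2 : Fin 3)).continuous).measurable
  have mP : MeasurableSet {y : E3 | 0 < y 2} := measurableSet_lt measurable_const hm2
  have mN : MeasurableSet {y : E3 | y 2 < 0} := measurableSet_lt hm2 measurable_const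
  set νp := (μ.restrict {y | 0 < y 2}).map chartG with hνp
  set νn := (μ.restrict {y | y 2 < 0}).map chartG with hνn
  have happ_p : ∀ D : Set E2, MeasurableSet D → νp D = μ ({y | chartG y ∈ D} ∩ {y | 0 < y 2}) := by
    intro D hD
    rw [hνp, Measure.map_apply measurable_chartG hD, Measure.restrict_apply (measurable_chartG hD)]
    rfl
  have happ_n : ∀ D : Set E2, MeasurableSet D → νn D = μ ({y | chartG y ∈ D} ∩ {y | y 2 < 0}) := by
    intro D hD
    rw [hνn, Measure.map_apply measurable_chartG hD, Measure.restrict_apply (measurable_chartG hD)]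
    rfl
  have fin_p : IsFiniteMeasure νp := by
    rw [hνp]; infer_instance
  have fin_n : IsFiniteMeasure νn := by
    rw [hνn]; infer_instance
  -- total masses
  have htot : νp univ = νn univ := by
    rw [happ_p _ MeasurableSet.univ, happ_n _ MeasurableSet.univ]
    have hb := hbal c2
    have e : ∀ y : E3, inner ℝ y c2 = y 2 := by
      intro y
      rw [PiLp.inner_apply, Fin.sum_univ_three]
      simp [c2]
    simp only [e] at hb
    simpa using hb
  -- directional marginals
  have hmarg : ∀ w : E2, νp.map (fun s => inner ℝ s w) = νn.map (fun s => inner ℝ s w) := by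
    intro w
    have hmw : Measurable (fun s : E2 => (inner ℝ s w : ℝ)) := by fun_prop
    apply measure_eq_of_symm
    · rw [Measure.map_apply hmw MeasurableSet.univ, Measure.map_apply hmw MeasurableSet.univ]
      simpa using htot
    · intro t
      rw [Measure.map_apply hmw measurableSet_Ioi, Measure.map_apply hmw measurableSet_Iio,
        Measure.map_apply hmw measurableSet_Iio, Measure.map_apply hmw measurableSet_Ioi,
        happ_p _ (hmw measurableSet_Ioi), happ_n _ (hmw measurableSet_Iio),
        happ_p _ (hmw measurableSet_Iio), happ_n _ (hmw measurableSet_Ioi)]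
      set v : E3 := !₂[w 0, w 1, -t] with hv
      have hmv : Measurable (fun y : E3 => (inner ℝ y v : ℝ)) := by fun_prop
      have s1 : {y : E3 | chartG y ∈ (fun s : E2 => (inner ℝ s w : ℝ)) ⁻¹' Ioi t} ∩ {y | 0 < y 2} =
          {y | 0 < inner ℝ y v} ∩ {y | 0 < y 2} := by
        ext y
        simp only [mem_inter_iff, mem_ofPred_eq, mem_preimage, mem_Ioi]
        refine and_congr_left fun hy => ?_
        rw [hv, inner_chart w t y hy.ne', mul_pos_iff_of_pos_left hy, sub_pos]
      have s2 : {y : E3 | chartG y ∈ (fun s : E2 => (inner ℝ s w : ℝ)) ⁻¹' Iio t} ∩ {y | y 2 < 0} =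
          {y | 0 < inner ℝ y v} ∩ {y | y 2 < 0} := by
        ext y
        simp only [mem_inter_iff, mem_ofPred_eq, mem_preimage, mem_Iio]
        refine and_congr_left fun hy => ?_
        rw [hv, inner_chart w t y hy.ne, mul_pos_iff]
        constructor
        · intro h; right; exact ⟨hy, by linarith⟩
        · rintro (⟨h, _⟩ | ⟨_, h⟩)
          · linarith
          · linarith
      have s3 : {y : E3 | chartG y ∈ (fun s : E2 => (inner ℝ s w : ℝ)) ⁻¹' Iio t} ∩ {y | 0 < y 2} =
          {y | inner ℝ y v < 0} ∩ {y | 0 < y 2} := by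
        ext y
        simp only [mem_inter_iff, mem_ofPred_eq, mem_preimage, mem_Iio]
        refine and_congr_left fun hy => ?_
        rw [hv, inner_chart w t y hy.ne', mul_neg_iff]
        constructor
        · intro h; left; exact ⟨hy, by linarith⟩
        · rintro (⟨_, h⟩ | ⟨h, _⟩)
          · linarith
          · linarith
      have s4 : {y : E3 | chartG y ∈ (fun s : E2 => (inner ℝ s w : ℝ)) ⁻¹' Ioi t} ∩ {y | y 2 < 0} =
          {y | inner ℝ y v < 0} ∩ {y | y 2 < 0} := by
        ext y
        simp only [mem_inter_iff, mem_ofPred_eq, mem_preimage, mem_Ioi]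
        refine and_congr_left fun hy => ?_
        rw [hv, inner_chart w t y hy.ne, mul_neg_iff]
        constructor
        · intro h; right; exact ⟨hy, by linarith⟩
        · rintro (⟨h, _⟩ | ⟨_, h⟩)
          · linarith
          · linarith
      rw [s1, s2, s3, s4]
      -- decomposition of a set along the sign of the last coordinate
      have dec : ∀ T : Set E3, MeasurableSet T →
          μ (T ∩ {y | 0 < y 2}) + μ (T ∩ {y | y 2 < 0}) = μ T := by
        intro T hT
        have hd : Disjoint (T ∩ {y : E3 | 0 < y 2}) (T ∩ {y : E3 | y 2 < 0}) := by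
          rw [Set.disjoint_left]
          rintro y ⟨_, hy1⟩ ⟨_, hy2⟩
          simp only [mem_ofPred_eq] at hy1 hy2
          linarith
        rw [← measure_union hd (hT.inter mN)]
        apply le_antisymm
        · apply measure_mono
          rintro y (⟨hy, _⟩ | ⟨hy, _⟩) <;> exact hy
        · have hsub : T ⊆ ((T ∩ {y : E3 | 0 < y 2}) ∪ (T ∩ {y : E3 | y 2 < 0})) ∪ {y : E3 | y 2 = 0} := by
            intro y hy
            rcases lt_trichotomy (y 2) 0 with h | h | h
            · left; right; exact ⟨hy, h⟩
            · right; exact h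
            · left; left; exact ⟨hy, h⟩
          calc μ T ≤ μ (((T ∩ {y : E3 | 0 < y 2}) ∪ (T ∩ {y : E3 | y 2 < 0})) ∪ {y : E3 | y 2 = 0}) :=
                measure_mono hsub
            _ ≤ μ ((T ∩ {y : E3 | 0 < y 2}) ∪ (T ∩ {y : E3 | y 2 < 0})) + μ {y : E3 | y 2 = 0} :=
                measure_union_le _ _
            _ = _ := by rw [h0, add_zero]
      rw [dec _ (measurableSet_lt measurable_const hmv), dec _ (measurableSet_lt hmv measurable_const)]
      exact hbal v
  -- characteristic functions
  apply Measure.ext_of_charFun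
  funext w
  rw [charFun_apply, charFun_apply]
  have hmw : Measurable (fun s : E2 => (inner ℝ s w : ℝ)) := by fun_prop
  have key : ∀ ν : Measure E2, ∫ s, Complex.exp (((inner ℝ s w : ℝ) : ℂ) * Complex.I) ∂ν =
      ∫ u, Complex.exp ((u : ℂ) * Complex.I) ∂(ν.map (fun s => inner ℝ s w)) := by
    intro ν
    rw [integral_map hmw.aemeasurable]
    apply Continuous.aestronglyMeasurable
    fun_prop
  rw [key νp, key νn, hmarg w]

end Pool.Agent.Lib_helper40
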