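import Mathlib
import Pool.Agent.Lib_helper40.GradientMax
import Pool.Agent.Lib_helper40.Halfspace

set_option autoImplicit false

open Set Filter Topology MeasureTheory
open scoped ENNReal NNReal

namespace Pool.Agent.Lib_helper40

/-- insertion of a constant coordinate -/
noncomputable def ins (i : Fin 3) (c : ℝ) (s : E2) : E3 :=
  WithLp.toLp 2 (i.insertNth c (fun j => s j) : Fin 3 → ℝ)

theorem ins_isometry (i : Fin 3) (c : ℝ) : Isometry (ins i c) := by
  apply Isometry.of_dist_eq
  intro s t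
  rw [EuclideanSpace.dist_eq, EuclideanSpace.dist_eq, Fin.sum_univ_succAbove _ i]
  simp [ins]

theorem face_finite (i : Fin 3) (c R : ℝ) : μH[2] {z : E3 | z i = c ∧ ‖z‖ ≤ R} < ∞ := by
  have hsub : {z : E3 | z i = c ∧ ‖z‖ ≤ R} ⊆ ins i c '' Metric.closedBall 0 R := by
    rintro z ⟨h1, h2⟩
    refine ⟨WithLp.toLp 2 (fun j => z (i.succAbove j)), ?_, ?_⟩
    · rw [mem_closedBall_zero_iff]
      refine le_trans ?_ h2
      rw [EuclideanSpace.norm_eq, EuclideanSpace.norm_eq]
      apply Real.sqrt_le_sqrt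
      rw [Fin.sum_univ_succAbove (fun j => ‖z j‖ ^ 2) i]
      simp only
      have : 0 ≤ ‖z i‖ ^ 2 := by positivity
      linarith
    · ext k
      simp only [ins]
      rcases Fin.eq_self_or_eq_succAbove i k with rfl | ⟨j, rfl⟩
      · simp [h1]
      · simp
  refine lt_of_le_of_lt (measure_mono hsub) ?_
  rw [(ins_isometry i c).hausdorffMeasure_image (Or.inl (by norm_num))]
  exact hausdorff_bounded_lt_top Metric.isBounded_closedBall

theorem surface_finite {N : E3 → ℝ} (hN : IsGauge N) : μH[2] {y : E3 | N y = 1} < ∞ := by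
  obtain ⟨C, hC⟩ := hN.lip
  have hcont := hN.continuous
  -- lower bound
  have hne : (Metric.sphere (0 : E3) 1).Nonempty := ⟨c2, by simp [c2]⟩
  obtain ⟨y0, hy0, hmin⟩ := (isCompact_sphere (0 : E3) 1).exists_isMinOn hne hcont.continuousOn
  have hy0ne : y0 ≠ 0 := by
    intro h0; rw [h0] at hy0; simp at hy0
  set m := N y0 with hm
  have hmpos : 0 < m := hN.pos y0 hy0ne
  have hlow : ∀ z : E3, m * ‖z‖ ≤ N z := by
    intro z
    by_cases hz : z = 0
    · subst hz; simp [hN.zero]
    have hnorm : 0 < ‖z‖ := norm_pos_iff.2 hz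
    have hmem : ‖z‖⁻¹ • z ∈ Metric.sphere (0 : E3) 1 := by
      rw [mem_sphere_zero_iff_norm, norm_smul, norm_inv, norm_norm, inv_mul_cancel₀ hnorm.ne']
    have h1 := hmin hmem
    simp only [mem_ofPred_eq] at h1
    rw [hN.hom _ (by positivity), ← hm, inv_mul_eq_div, le_div_iff₀ hnorm] at h1
    exact h1
  -- radial projection is Lipschitz on the shell
  set K : ℝ≥0 := Real.toNNReal (1 / m + 2 * C / m ^ 2) with hK
  have hrad : ∀ (F : Set E3), (∀ z ∈ F, 1 ≤ ‖z‖ ∧ ‖z‖ ≤ 2) →
      LipschitzOnWith K (fun z : E3 => (N z)⁻¹ • z) F := by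
    intro F hF
    apply LipschitzOnWith.of_dist_le_mul
    intro z hz w hw
    obtain ⟨hz1, hz2⟩ := hF z hz
    obtain ⟨hw1, hw2⟩ := hF w hw
    have hNz : m ≤ N z := le_trans (by nlinarith) (hlow z)
    have hNw : m ≤ N w := le_trans (by nlinarith) (hlow w)
    have hNz0 : 0 < N z := by linarith
    have hNw0 : 0 < N w := by linarith
    rw [dist_eq_norm, dist_eq_norm]
    have e : (N z)⁻¹ • z - (N w)⁻¹ • w = (N z)⁻¹ • (z - w) + ((N z)⁻¹ - (N w)⁻¹) • w := by
      module
    have hd : |N w - N z| ≤ C * ‖z - w‖ := by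
      have := hC.dist_le_mul w z
      rw [Real.dist_eq, dist_eq_norm, norm_sub_rev] at this
      exact this
    have h1 : ‖(N z)⁻¹ • (z - w)‖ ≤ 1 / m * ‖z - w‖ := by
      rw [norm_smul, norm_inv, Real.norm_of_nonneg hNz0.le]
      apply mul_le_mul_of_nonneg_right _ (norm_nonneg _)
      rw [one_div]
      exact inv_anti₀ hmpos hNz
    have h2 : ‖((N z)⁻¹ - (N w)⁻¹) • w‖ ≤ 2 * C / m ^ 2 * ‖z - w‖ := by
      rw [norm_smul, Real.norm_eq_abs]
      have h3 : (N z)⁻¹ - (N w)⁻¹ = (N w - N z) / (N z * N w) := by field_simp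
      rw [h3, abs_div, abs_of_pos (mul_pos hNz0 hNw0)]
      have h4 : m ^ 2 ≤ N z * N w := by nlinarith
      have h5 : |N w - N z| / (N z * N w) ≤ C * ‖z - w‖ / m ^ 2 := by
        gcongr
      calc |N w - N z| / (N z * N w) * ‖w‖ ≤ C * ‖z - w‖ / m ^ 2 * 2 := by
            gcongr
        _ = 2 * C / m ^ 2 * ‖z - w‖ := by ring
    rw [e, hK, Real.coe_toNNReal _ (by positivity)]
    calc ‖(N z)⁻¹ • (z - w) + ((N z)⁻¹ - (N w)⁻¹) • w‖
        ≤ ‖(N z)⁻¹ • (z - w)‖ + ‖((N z)⁻¹ - (N w)⁻¹) • w‖ := norm_add_le _ _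
      _ ≤ 1 / m * ‖z - w‖ + 2 * C / m ^ 2 * ‖z - w‖ := add_le_add h1 h2
      _ = (1 / m + 2 * C / m ^ 2) * ‖z - w‖ := by ring
  -- the pieces
  set F : Fin 3 → ℝ → Set E3 := fun i c => {z : E3 | (z i = c ∧ ‖z‖ ≤ 2) ∧ 1 ≤ ‖z‖} with hF
  have hpiece : ∀ i c, μH[2] ((fun z : E3 => (N z)⁻¹ • z) '' F i c) < ∞ := by
    intro i c
    have h1 := (hrad (F i c) (fun z hz => ⟨hz.2, hz.1.2⟩)).hausdorffMeasure_image_le
      (d := 2) (by norm_num)
    refine lt_of_le_of_lt h1 ?_
    apply ENNReal.mul_lt_top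
    · exact ENNReal.rpow_lt_top_of_nonneg (by norm_num) ENNReal.coe_ne_top
    · refine lt_of_le_of_lt (measure_mono ?_) (face_finite i c 2)
      intro z hz
      exact hz.1
  have hcover : {y : E3 | N y = 1} ⊆
      ⋃ i : Fin 3, ((fun z : E3 => (N z)⁻¹ • z) '' F i 1 ∪ (fun z : E3 => (N z)⁻¹ • z) '' F i (-1)) := by
    intro y hy
    simp only [mem_ofPred_eq] at hy
    obtain ⟨i, _, hi⟩ := Finset.exists_max_image (Finset.univ : Finset (Fin 3)) (fun j => |y j|)
      ⟨0, Finset.mem_univ _⟩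
    have hyne : y ≠ 0 := by
      intro h0
      rw [h0, hN.zero] at hy
      norm_num at hy
    have hipos : 0 < |y i| := by
      by_contra hcon
      have h0 : |y i| = 0 := le_antisymm (not_lt.1 hcon) (abs_nonneg _)
      apply hyne
      ext j
      have := hi j (Finset.mem_univ _)
      rw [h0] at this
      simpa using this
    set z : E3 := |y i|⁻¹ • y with hz
    have hNz : N z = |y i|⁻¹ := by
      rw [hz, hN.hom _ (by positivity), hy, mul_one]
    have himg : (N z)⁻¹ • z = y := by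
      rw [hNz, inv_inv, hz, smul_smul, mul_inv_cancel₀ hipos.ne', one_smul]
    have hzj : ∀ j, |z j| ≤ 1 := by
      intro j
      rw [hz, PiLp.smul_apply, smul_eq_mul, abs_mul, abs_inv, abs_abs, inv_mul_le_iff₀ hipos,
        mul_one]
      exact hi j (Finset.mem_univ _)
    have hzi : |z i| = 1 := by
      rw [hz, PiLp.smul_apply, smul_eq_mul, abs_mul, abs_inv, abs_abs, inv_mul_cancel₀ hipos.ne']
    have hz2 : ‖z‖ ≤ 2 := by
      have h1 : ‖z‖ ^ 2 ≤ 2 ^ 2 := by
        rw [EuclideanSpace.norm_sq_eq, Fin.sum_univ_three]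
        have a0 := hzj 0
        have a1 := hzj 1
        have a2 := hzj 2
        have b0 : ‖z 0‖ ^ 2 ≤ 1 := by
          rw [Real.norm_eq_abs]; nlinarith [abs_nonneg (z 0)]
        have b1 : ‖z 1‖ ^ 2 ≤ 1 := by
          rw [Real.norm_eq_abs]; nlinarith [abs_nonneg (z 1)]
        have b2 : ‖z 2‖ ^ 2 ≤ 1 := by
          rw [Real.norm_eq_abs]; nlinarith [abs_nonneg (z 2)]
        linarith
      exact abs_le_of_sq_le_sq' h1 (by norm_num) |>.2
    have hz1 : 1 ≤ ‖z‖ := by
      have := PiLp.norm_apply_le z i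
      rw [Real.norm_eq_abs, hzi] at this
      exact this
    rw [mem_iUnion]
    refine ⟨i, ?_⟩
    rcases (abs_eq (zero_le_one' ℝ)).1 hzi with h | h
    · left
      exact ⟨z, ⟨⟨h, hz2⟩, hz1⟩, himg⟩
    · right
      exact ⟨z, ⟨⟨h, hz2⟩, hz1⟩, himg⟩
  refine lt_of_le_of_lt (measure_mono hcover) ?_
  refine lt_of_le_of_lt (measure_iUnion_le _) ?_
  rw [tsum_fintype]
  apply ENNReal.sum_lt_top.2
  intro i _
  exact lt_of_le_of_lt (measure_union_le _ _) (ENNReal.add_lt_top.2 ⟨hpiece i 1, hpiece i (-1)⟩)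

theorem chartL_isometry : Isometry chartL := by
  apply Isometry.of_dist_eq
  intro s t
  rw [dist_eq_norm, dist_eq_norm, ← map_sub, EuclideanSpace.norm_eq, EuclideanSpace.norm_eq,
    Fin.sum_univ_three, Fin.sum_univ_two]
  congr 1
  rw [chartL_apply]
  simp [c0, c1]

theorem surface_section_null {N : E3 → ℝ} (hN : IsGauge N) :
    μH[2] ({y : E3 | y 2 = 0} ∩ {y : E3 | N y = 1}) = 0 := by
  set T : Set E2 := {s | N (chartL s) ≤ 1} with hT
  have hTconv : Convex ℝ T := by
    intro s hs t ht a b ha hb hab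
    simp only [hT, mem_ofPred_eq] at hs ht ⊢
    rw [map_add, map_smul, map_smul]
    have := hN.conv.2 (mem_univ (chartL s)) (mem_univ (chartL t)) ha hb hab
    simp only [smul_eq_mul] at this
    nlinarith
  have hcont : Continuous (fun s => N (chartL s)) := hN.continuous.comp chartL.continuous
  have hsub : {y : E3 | y 2 = 0} ∩ {y : E3 | N y = 1} ⊆ chartL '' (frontier T) := by
    rintro y ⟨h1, h2⟩
    simp only [mem_ofPred_eq] at h1 h2
    have hy : chartL (!₂[y 0, y 1] : E2) = y := by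
      rw [chartL_apply]
      ext i
      fin_cases i
      · simp [c0, c1]
      · simp [c0, c1]
      · simp [c0, c1, h1]
    refine ⟨!₂[y 0, y 1], ?_, hy⟩
    set s : E2 := !₂[y 0, y 1] with hs
    have hNs : N (chartL s) = 1 := by rw [hy, h2]
    refine ⟨subset_closure (by simp only [hT, mem_ofPred_eq]; rw [hNs]), ?_⟩
    intro hint
    have hc : ContinuousAt (fun t : ℝ => t • s) 1 := by fun_prop
    have hmem : T ∈ 𝓝 ((1:ℝ) • s) := by
      rw [one_smul]; exact mem_interior_iff_mem_nhds.1 hint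
    have hev := hc.eventually hmem
    have hev2 : ∀ᶠ t : ℝ in 𝓝[>] (1:ℝ), t • s ∈ T := hev.filter_mono nhdsWithin_le_nhds
    obtain ⟨t, ht1, ht2⟩ := (hev2.and self_mem_nhdsWithin).exists
    simp only [hT, mem_ofPred_eq] at ht1
    have ht3 : (1:ℝ) < t := ht2
    rw [map_smul, hN.hom _ (by linarith), hNs, mul_one] at ht1
    linarith
  apply measure_mono_null hsub
  rw [chartL_isometry.hausdorffMeasure_image (Or.inl (by norm_num))]
  have h : (μH[(Module.finrank ℝ E2 : ℝ)] : Measure E2).IsAddHaarMeasure :=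
    isAddHaarMeasure_hausdorffMeasure
  have h2 : (Module.finrank ℝ E2 : ℝ) = 2 := by simp
  rw [h2] at h
  exact hTconv.addHaar_frontier _

/-- the derivative of a gauge is invariant under positive scaling -/
theorem hasFDerivAt_smul {N : E3 → ℝ} (hN : IsGauge N) {y : E3} {f' : E3 →L[ℝ] ℝ}
    (h : HasFDerivAt N f' y) {t : ℝ} (ht : 0 < t) : HasFDerivAt N f' (t • y) := by
  have h1 : HasFDerivAt (fun z : E3 => t⁻¹ • z) (t⁻¹ • ContinuousLinearMap.id ℝ E3) (t • y) :=
    (hasFDerivAt_id (𝕜 := ℝ) (t • y)).const_smul t⁻¹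
  have h0 : HasFDerivAt N f' (t⁻¹ • (t • y)) := by
    rw [smul_smul, inv_mul_cancel₀ ht.ne', one_smul]; exact h
  have h2 := h0.comp (t • y) h1
  have h3 := h2.const_smul t
  have e : (t • (N ∘ fun z : E3 => t⁻¹ • z)) = N := by
    funext z
    simp only [Pi.smul_apply, Function.comp, smul_eq_mul]
    rw [hN.hom _ (by positivity), ← mul_assoc, mul_inv_cancel₀ ht.ne', one_mul]
  have e2 : t • (f'.comp (t⁻¹ • ContinuousLinearMap.id ℝ E3)) = f' := by
    ext z
    simp
    rw [← mul_assoc, mul_inv_cancel₀ ht.ne', one_mul]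
  rw [e2] at h3
  exact e ▸ h3

/-- The key theorem for gauges. -/
theorem gauge_even {N : E3 → ℝ} (hN : IsGauge N)
    (hbal : ∀ v : E3, μH[2] {y : E3 | N y = 1 ∧ 0 < inner ℝ y v} =
      μH[2] {y : E3 | N y = 1 ∧ inner ℝ y v < 0}) : ∀ y, N (-y) ≤ N y := by
  have hcont := hN.continuous
  set Sg : Set E3 := {y | N y = 1} with hSg
  have mSg : MeasurableSet Sg := (isClosed_eq hcont continuous_const).measurableSet
  set μ : Measure E3 := (μH[2] : Measure E3).restrict Sg with hμ
  have hfin : IsFiniteMeasure μ := ⟨by rw [hμ, Measure.restrict_apply_univ]; exact surface_finite hN⟩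
  have hm2 : Measurable (fun y : E3 => y 2) :=
    ((EuclideanSpace.proj (𝕜 := ℝ) (2 : Fin 3)).continuous).measurable
  have h0 : μ {y | y 2 = 0} = 0 := by
    rw [hμ, Measure.restrict_apply (measurableSet_eq_fun hm2 measurable_const)]
    exact surface_section_null hN
  have hb : ∀ v : E3, μ {y | 0 < inner ℝ y v} = μ {y | inner ℝ y v < 0} := by
    intro v
    have hmv : Measurable (fun y : E3 => (inner ℝ y v : ℝ)) := by fun_prop
    rw [hμ, Measure.restrict_apply (measurableSet_lt measurable_const hmv),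
      Measure.restrict_apply (measurableSet_lt hmv measurable_const)]
    have e1 : {y : E3 | 0 < inner ℝ y v} ∩ Sg = {y : E3 | N y = 1 ∧ 0 < inner ℝ y v} := by
      ext y; simp [hSg, and_comm]
    have e2 : {y : E3 | inner ℝ y v < 0} ∩ Sg = {y : E3 | N y = 1 ∧ inner ℝ y v < 0} := by
      ext y; simp [hSg, and_comm]
    rw [e1, e2]
    exact hbal v
  have hchart := chart_measure_eq μ h0 hb
  -- equality of areas over chart sets
  have hN2 : IsGauge (fun y => N (-y)) := by
    refine ⟨?_, ?_, ?_, ?_⟩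
    · refine ⟨convex_univ, ?_⟩
      intro x _ y _ a b ha hb hab
      have := hN.conv.2 (mem_univ (-x)) (mem_univ (-y)) ha hb hab
      have e : -(a • x + b • y) = a • (-x) + b • (-y) := by module
      simp only
      rw [e]
      exact this
    · intro t ht y
      rw [← smul_neg, hN.hom t ht]
    · intro y hy
      exact hN.pos _ (neg_ne_zero.2 hy)
    · obtain ⟨C, hC⟩ := hN.lip
      exact ⟨C * 1, hC.comp (LipschitzWith.id.neg)⟩
  have harea : ∀ D : Set E2, MeasurableSet D →
      μH[2] (gam N '' D) = μH[2] (gam (fun y => N (-y)) '' D) := by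
    intro D hD
    have e1 := congrArg (fun ν : Measure E2 => ν D) hchart
    simp only at e1
    have mP : MeasurableSet {y : E3 | 0 < y 2} := measurableSet_lt measurable_const hm2
    have mN : MeasurableSet {y : E3 | y 2 < 0} := measurableSet_lt hm2 measurable_const
    have mD : MeasurableSet (chartG ⁻¹' D) := measurable_chartG hD
    rw [Measure.map_apply measurable_chartG hD, Measure.map_apply measurable_chartG hD,
      Measure.restrict_apply mD, Measure.restrict_apply mD, hμ,
      Measure.restrict_apply (mD.inter mP), Measure.restrict_apply (mD.inter mN)] at e1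
    have s1 : chartG ⁻¹' D ∩ {y : E3 | 0 < y 2} ∩ Sg = gam N '' D := by
      rw [gam_image hN]
      ext y
      simp only [hSg, mem_inter_iff, mem_preimage, mem_ofPred_eq]
      tauto
    have s2 : chartG ⁻¹' D ∩ {y : E3 | y 2 < 0} ∩ Sg =
        (LinearIsometryEquiv.neg ℝ (E := E3)).toIsometryEquiv '' (gam (fun y => N (-y)) '' D) := by
      rw [gam_image hN2]
      ext y
      simp only [hSg, mem_inter_iff, mem_preimage, mem_ofPred_eq, mem_image]
      constructor
      · rintro ⟨⟨h1, h2⟩, h3⟩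
        refine ⟨-y, ⟨?_, ?_, ?_⟩, ?_⟩
        · rw [neg_neg]; exact h3
        · simp; exact h2
        · rw [chartG_neg]; exact h1
        · simp
      · rintro ⟨x, ⟨h1, h2, h3⟩, rfl⟩
        simp only [LinearIsometryEquiv.coe_toIsometryEquiv, LinearIsometryEquiv.coe_neg,
          PiLp.neg_apply]
        refine ⟨⟨?_, ?_⟩, ?_⟩
        · rw [chartG_neg]; exact h3
        · linarith
        · exact h1
    rw [s1, s2, IsometryEquiv.hausdorffMeasure_image] at e1
    exact e1
  -- identity in the chart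
  have hchartid : ∀ (s : E2) (f' g' : E3 →L[ℝ] ℝ), HasFDerivAt N f' (lift s) →
      HasFDerivAt N g' (-(lift s)) →
      ‖f'‖ / N (lift s) ^ 3 = ‖g'‖ / N (-(lift s)) ^ 3 := by
    intro s f' g' hf hg
    have hg2 : HasFDerivAt (fun y => N (-y)) (-g') (lift s) := by
      have h1 : HasFDerivAt (fun z : E3 => -z) (-ContinuousLinearMap.id ℝ E3) (lift s) :=
        (hasFDerivAt_id (lift s)).neg
      have h2 := hg.comp (lift s) h1
      have e : g'.comp (-ContinuousLinearMap.id ℝ E3) = -g' := by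
        ext z; simp
      rw [e] at h2
      exact h2
    have d1 := gam_strict hN hf
    have d2 := gam_strict hN2 hg2
    have p1 := hN.pos _ (lift_ne s)
    have p2 := hN2.pos _ (lift_ne s)
    have i1 := gamD_injective p1 f' s
    have i2 := gamD_injective p2 (-g') s
    have g1 := gram_identity p1 f' s (euler hN hf)
    have g2 := gram_identity p2 (-g') s (euler hN2 hg2)
    have k1 := jacobian_eq d1 d2 i1 i2 (by positivity) (by positivity) g1 g2
      (fun r _ => harea _ measurableSet_ball)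
    have k2 := jacobian_eq d2 d1 i2 i1 (by positivity) (by positivity) g2 g1
      (fun r _ => (harea _ measurableSet_ball).symm)
    rw [norm_neg] at k1 k2
    exact le_antisymm k1 k2
  -- identity at all points off the coordinate plane
  have hpos : ∀ (y : E3) (f' g' : E3 →L[ℝ] ℝ), 0 < y 2 → HasFDerivAt N f' y →
      HasFDerivAt N g' (-y) → ‖f'‖ * N (-y) ^ 3 = ‖g'‖ * N y ^ 3 := by
    intro y f' g' hy hf hg
    have hl := lift_chartG hy.ne'
    have hinv : 0 < (y 2)⁻¹ := inv_pos.2 hy
    have hf2 : HasFDerivAt N f' (lift (chartG y)) := by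
      rw [hl]; exact hasFDerivAt_smul hN hf hinv
    have hg2 : HasFDerivAt N g' (-(lift (chartG y))) := by
      rw [hl, ← smul_neg]; exact hasFDerivAt_smul hN hg hinv
    have h1 := hchartid _ f' g' hf2 hg2
    have hyne : y ≠ 0 := by
      intro h0; rw [h0] at hy; simp at hy
    have hNy := hN.pos y hyne
    have hNy' := hN.pos (-y) (neg_ne_zero.2 hyne)
    rw [hl, ← smul_neg, hN.hom _ hinv.le, hN.hom _ hinv.le] at h1
    field_simp at h1
    linarith
  apply even_of_gradient_identity hN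
  intro y f' g' hy hf hg
  rcases lt_or_gt_of_ne hy with h | h
  · have h1 := hpos (-y) g' f' (by simp; exact h) hg (by rw [neg_neg]; exact hf)
    rw [neg_neg] at h1
    exact h1.symm
  · exact hpos y f' g' h hf hg

end Pool.Agent.Lib_helper40
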