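import Mathlib

set_option autoImplicit false

open Finset

namespace Pool.Agent.Lib_helper40.Tree

/-- raw data of a node: predecessor, cut, index of a chain, coefficients -/
abbrev Dat := ℕ × ℕ × ℕ × (ℕ →₀ ℚ)

theorem exists_enum : ∃ e : ℕ → Dat, ∀ d L, ∃ n, L ≤ n ∧ e n = d := by
  obtain ⟨g, hg⟩ := exists_surjective_nat (Dat × ℕ)
  refine ⟨fun n => (g n).1, fun d L => ?_⟩
  by_contra hcon
  push Not at hcon
  choose m hm using fun j : ℕ => hg (d, j)
  have hinj : Function.Injective m := by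
    intro a b hab
    have h1 := hm a
    rw [hab, hm b] at h1
    exact (congrArg (fun z : Dat × ℕ => z.2) h1).symm
  have hlt : ∀ j, m j < L := by
    intro j
    by_contra h
    push Not at h
    apply hcon _ h
    rw [hm j]
  have := Finset.card_le_card_of_injOn (s := Finset.range (L + 1)) (t := Finset.range L) m
    (fun j _ => by simpa using hlt j) hinj.injOn
  simp at this

/-- enumeration of the data -/
noncomputable def en : ℕ → Dat := Classical.choose exists_enum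

theorem en_spec (d : Dat) (L : ℕ) : ∃ n, L ≤ n ∧ en n = d := Classical.choose_spec exists_enum d L

/-- predecessor candidate -/
noncomputable def pp (n : ℕ) : ℕ := (en n).1
/-- cut -/
noncomputable def kk (n : ℕ) : ℕ := (en n).2.1
/-- index of the norming chain -/
noncomputable def ee (n : ℕ) : ℕ := (en n).2.2.1
/-- coefficients -/
noncomputable def hh (n : ℕ) : ℕ →₀ ℚ := (en n).2.2.2

/-- chain of ancestors and root of a node -/
noncomputable def st (n : ℕ) : Finset ℕ × ℕ :=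
  if h : pp n < kk n ∧ kk n ≤ n then
    (if ee n < n ∧ (st (pp n)).1.card ≤ (st (pp n)).2 then
      (insert n (st (pp n)).1, (st (pp n)).2) else ({n}, n))
  else ({n}, n)
termination_by n
decreasing_by all_goals omega

/-- chain of ancestors -/
noncomputable def ch (n : ℕ) : Finset ℕ := (st n).1
/-- root -/
noncomputable def rt (n : ℕ) : ℕ := (st n).2

/-- the node `n` is a child -/
def isC (n : ℕ) : Prop := pp n < kk n ∧ kk n ≤ n ∧ ee n < n ∧ (ch (pp n)).card ≤ rt (pp n)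

theorem ch_child {n : ℕ} (h : isC n) : ch n = insert n (ch (pp n)) := by
  obtain ⟨h1, h2, h3, h4⟩ := h
  unfold ch
  rw [st, dif_pos ⟨h1, h2⟩, if_pos ⟨h3, h4⟩]

theorem rt_child {n : ℕ} (h : isC n) : rt n = rt (pp n) := by
  obtain ⟨h1, h2, h3, h4⟩ := h
  unfold rt
  rw [st, dif_pos ⟨h1, h2⟩, if_pos ⟨h3, h4⟩]

theorem st_root {n : ℕ} (h : ¬ isC n) : st n = ({n}, n) := by
  rw [st]
  by_cases h1 : pp n < kk n ∧ kk n ≤ n
  · rw [dif_pos h1]
    rw [if_neg]
    intro h2
    exact h ⟨h1.1, h1.2, h2.1, h2.2⟩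
  · rw [dif_neg h1]

theorem ch_root {n : ℕ} (h : ¬ isC n) : ch n = {n} := by
  unfold ch; rw [st_root h]

theorem rt_root {n : ℕ} (h : ¬ isC n) : rt n = n := by
  unfold rt; rw [st_root h]

theorem pp_lt {n : ℕ} (h : isC n) : pp n < n := lt_of_lt_of_le h.1 h.2.1

theorem self_mem (n : ℕ) : n ∈ ch n := by
  by_cases h : isC n
  · rw [ch_child h]; exact mem_insert_self _ _
  · rw [ch_root h]; exact mem_singleton_self _

theorem mem_le {n : ℕ} : ∀ {j : ℕ}, j ∈ ch n → j ≤ n := by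
  induction n using Nat.strong_induction_on with
  | _ n ih =>
    intro j hj
    by_cases h : isC n
    · rw [ch_child h, mem_insert] at hj
      rcases hj with rfl | hj
      · exact le_rfl
      · exact (ih _ (pp_lt h) hj).trans (pp_lt h).le
    · rw [ch_root h, mem_singleton] at hj
      exact hj.le

theorem not_mem_pp {n : ℕ} (h : isC n) : n ∉ ch (pp n) := by
  intro h2
  have := mem_le h2
  have := pp_lt h
  omega

theorem rt_mem {n : ℕ} : ∀ {j : ℕ}, j ∈ ch n → rt j = rt n := by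
  induction n using Nat.strong_induction_on with
  | _ n ih =>
    intro j hj
    by_cases h : isC n
    · rw [ch_child h, mem_insert] at hj
      rcases hj with rfl | hj
      · rfl
      · rw [ih _ (pp_lt h) hj, rt_child h]
    · rw [ch_root h, mem_singleton] at hj
      rw [hj]

theorem rt_le (n : ℕ) : rt n ≤ n := by
  induction n using Nat.strong_induction_on with
  | _ n ih =>
    by_cases h : isC n
    · rw [rt_child h]
      exact (ih _ (pp_lt h)).trans (pp_lt h).le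
    · rw [rt_root h]

theorem card_le (n : ℕ) : (ch n).card ≤ rt n + 1 := by
  by_cases h : isC n
  · rw [ch_child h, rt_child h, card_insert_of_notMem (not_mem_pp h)]
    have := h.2.2.2
    omega
  · rw [ch_root h, card_singleton]
    omega

/-- square sum along the chain of `n` -/
noncomputable def S (n : ℕ) (x : ℕ → ℝ) : ℝ := ∑ j ∈ ch n, x j ^ 2

/-- the norming functional of a node -/
noncomputable def ff (n : ℕ) (x : ℕ → ℝ) : ℝ :=
  (∑ j ∈ ch (ee n), ((hh n j : ℚ) : ℝ) * x j) / √(∑ j ∈ ch (ee n), ((hh n j : ℚ) : ℝ) ^ 2)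

theorem S_nonneg (n : ℕ) (x : ℕ → ℝ) : 0 ≤ S n x := sum_nonneg fun _ _ => sq_nonneg _

theorem S_child {n : ℕ} (h : isC n) (x : ℕ → ℝ) : S n x = x n ^ 2 + S (pp n) x := by
  unfold S
  rw [ch_child h, sum_insert (not_mem_pp h)]

theorem S_root {n : ℕ} (h : ¬ isC n) (x : ℕ → ℝ) : S n x = x n ^ 2 := by
  unfold S
  rw [ch_root h, sum_singleton]

theorem S_congr {n : ℕ} {x y : ℕ → ℝ} (h : ∀ j ≤ n, x j = y j) : S n x = S n y := by
  unfold S
  exact sum_congr rfl fun j hj => by rw [h j (mem_le hj)]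

theorem ff_congr {n : ℕ} {x y : ℕ → ℝ} (h : ∀ j ≤ ee n, x j = y j) : ff n x = ff n y := by
  unfold ff
  congr 1
  exact sum_congr rfl fun j hj => by rw [h j (mem_le hj)]

theorem ff_add (n : ℕ) (x y : ℕ → ℝ) : ff n (x + y) = ff n x + ff n y := by
  unfold ff
  rw [← add_div, ← sum_add_distrib]
  congr 1
  exact sum_congr rfl fun j _ => by simp [mul_add]

theorem ff_smul (n : ℕ) (c : ℝ) (x : ℕ → ℝ) : ff n (c • x) = c * ff n x := by
  unfold ff
  rw [← mul_div_assoc, mul_sum]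
  congr 1
  exact sum_congr rfl fun j _ => by simp only [Pi.smul_apply, smul_eq_mul]; ring

theorem ff_sq_le (n : ℕ) (x : ℕ → ℝ) : ff n x ^ 2 ≤ S (ee n) x := by
  unfold ff
  rw [div_pow, Real.sq_sqrt (sum_nonneg fun _ _ => sq_nonneg _)]
  have hcs := sum_mul_sq_le_sq_mul_sq (ch (ee n)) (fun j => ((hh n j : ℚ) : ℝ)) x
  rcases eq_or_lt_of_le (sum_nonneg (s := ch (ee n))
    (fun j _ => sq_nonneg (((hh n j : ℚ) : ℝ)))) with h | h
  · rw [← h, div_zero]
    exact S_nonneg _ _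
  · rw [div_le_iff₀ h, mul_comm]
    exact hcs

/-- rational approximation of the norming functional -/
theorem exists_rat (s : Finset ℕ) (x : ℕ → ℝ) : ∃ h : ℕ →₀ ℚ,
    1 / 2 * √(∑ j ∈ s, x j ^ 2) ≤
      (∑ j ∈ s, ((h j : ℚ) : ℝ) * x j) / √(∑ j ∈ s, ((h j : ℚ) : ℝ) ^ 2) := by
  classical
  rcases eq_or_lt_of_le (sum_nonneg (s := s) (fun j _ => sq_nonneg (x j))) with h0 | h0
  · refine ⟨0, ?_⟩
    rw [← h0]
    simp
  set A : ℝ := √(∑ j ∈ s, x j ^ 2) with hA
  have hApos : 0 < A := Real.sqrt_pos.2 h0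
  have hA2 : A ^ 2 = ∑ j ∈ s, x j ^ 2 := Real.sq_sqrt h0.le
  set k : ℝ := (s.card : ℝ) with hk
  have hk0 : 0 ≤ k := Nat.cast_nonneg _
  set δ : ℝ := A / (4 * (k + 1)) with hδ
  have hδpos : 0 < δ := by positivity
  have hδk : δ * k ≤ A / 4 := by
    rw [hδ, div_mul_eq_mul_div, div_le_div_iff₀ (by positivity) (by norm_num)]
    nlinarith
  have hδA : δ ≤ A / 4 := by
    rw [hδ, div_le_div_iff₀ (by positivity) (by norm_num)]
    nlinarith
  have hr : ∀ j : ℕ, ∃ r : ℚ, |(r : ℝ) - x j| < δ := fun j => by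
    obtain ⟨r, hr1, hr2⟩ := exists_rat_btwn (show x j - δ < x j + δ by linarith)
    exact ⟨r, by rw [abs_lt]; constructor <;> linarith⟩
  choose r hr using hr
  refine ⟨Finsupp.onFinset s (fun j => if j ∈ s then r j else 0) (fun j hj => by
    by_contra h; simp [h] at hj), ?_⟩
  have hval : ∀ j ∈ s, ((Finsupp.onFinset s (fun j => if j ∈ s then r j else 0) (fun j hj => by
    by_contra h; simp [h] at hj) j : ℚ) : ℝ) = (r j : ℝ) := by
    intro j hj
    simp [Finsupp.onFinset_apply, hj]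
  rw [sum_congr rfl (fun j hj => by rw [hval j hj] :
      ∀ j ∈ s, ((Finsupp.onFinset s (fun j => if j ∈ s then r j else 0) (fun j hj => by
    by_contra h; simp [h] at hj) j : ℚ) : ℝ) * x j = (r j : ℝ) * x j),
    sum_congr rfl (fun j hj => by rw [hval j hj] :
      ∀ j ∈ s, ((Finsupp.onFinset s (fun j => if j ∈ s then r j else 0) (fun j hj => by
    by_contra h; simp [h] at hj) j : ℚ) : ℝ) ^ 2 = (r j : ℝ) ^ 2)]
  have hxA : ∀ j ∈ s, |x j| ≤ A := by
    intro j hj
    apply abs_le_of_sq_le_sq _ hApos.le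
    rw [hA2]
    exact single_le_sum (f := fun j => x j ^ 2) (fun i _ => sq_nonneg _) hj
  -- numerator
  have hnum : 3 / 4 * A ^ 2 ≤ ∑ j ∈ s, (r j : ℝ) * x j := by
    have e : ∑ j ∈ s, (r j : ℝ) * x j = ∑ j ∈ s, x j ^ 2 + ∑ j ∈ s, ((r j : ℝ) - x j) * x j := by
      rw [← sum_add_distrib]
      exact sum_congr rfl fun j _ => by ring
    have h2 : |∑ j ∈ s, ((r j : ℝ) - x j) * x j| ≤ δ * k * A := by
      calc |∑ j ∈ s, ((r j : ℝ) - x j) * x j| ≤ ∑ j ∈ s, |((r j : ℝ) - x j) * x j| :=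
            abs_sum_le_sum_abs _ _
        _ ≤ ∑ _j ∈ s, δ * A := sum_le_sum fun j hj => by
            rw [abs_mul]
            exact mul_le_mul (hr j).le (hxA j hj) (abs_nonneg _) hδpos.le
        _ = δ * k * A := by rw [sum_const, nsmul_eq_mul, hk]; ring
    rw [abs_le] at h2
    rw [e, ← hA2]
    nlinarith
  -- denominator
  have hden : √(∑ j ∈ s, (r j : ℝ) ^ 2) ≤ 3 / 2 * A := by
    apply Real.sqrt_le_iff.2
    refine ⟨by positivity, ?_⟩
    have : ∑ j ∈ s, (r j : ℝ) ^ 2 ≤ ∑ j ∈ s, (x j ^ 2 + 2 * (δ * A) + δ ^ 2) := by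
      apply sum_le_sum
      intro j hj
      have h1 := hr j
      have h2 := hxA j hj
      have h3 : |((r j : ℝ) - x j) * x j| ≤ δ * A := by
        rw [abs_mul]
        exact mul_le_mul h1.le h2 (abs_nonneg _) hδpos.le
      have h4 : ((r j : ℝ) - x j) ^ 2 ≤ δ ^ 2 := by
        rw [← sq_abs]
        exact pow_le_pow_left₀ (abs_nonneg _) h1.le 2
      rw [abs_le] at h3
      nlinarith
    refine this.trans ?_
    rw [sum_add_distrib, sum_add_distrib, sum_const, sum_const, nsmul_eq_mul, nsmul_eq_mul, ← hA2,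
      ← hk]
    have e1 : k * (2 * (δ * A)) ≤ 1 / 2 * A ^ 2 := by nlinarith
    have e2 : k * δ ^ 2 ≤ 1 / 16 * A ^ 2 := by nlinarith [mul_nonneg hk0 hδpos.le]
    nlinarith
  have hden0 : 0 < √(∑ j ∈ s, (r j : ℝ) ^ 2) := by
    apply Real.sqrt_pos.2
    by_contra hcon
    have h0' : ∑ j ∈ s, (r j : ℝ) ^ 2 = 0 :=
      le_antisymm (not_lt.1 hcon) (sum_nonneg fun _ _ => sq_nonneg _)
    have hz : ∀ j ∈ s, (r j : ℝ) ^ 2 = 0 :=
      (sum_eq_zero_iff_of_nonneg (fun _ _ => sq_nonneg _)).1 h0'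
    have : ∑ j ∈ s, (r j : ℝ) * x j = 0 := sum_eq_zero fun j hj => by
      have := hz j hj
      rw [pow_eq_zero_iff (two_ne_zero)] at this
      rw [this, zero_mul]
    rw [this] at hnum
    have : 0 < A ^ 2 := by positivity
    linarith
  rw [le_div_iff₀ hden0]
  nlinarith

/-- Existence of children. -/
theorem exists_child {p K : ℕ} (hp : (ch p).card ≤ rt p) (hpK : p < K) (e L : ℕ) (x : ℕ → ℝ) :
    ∃ n, L ≤ n ∧ isC n ∧ pp n = p ∧ kk n = K ∧ 1 / 2 * √(S e x) ≤ ff n x ∧ ee n = e := by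
  obtain ⟨h, hh'⟩ := exists_rat (ch e) x
  obtain ⟨n, hn, hen⟩ := en_spec (p, K, e, h) (max L (max K (e + 1)))
  have h1 : pp n = p := by unfold pp; rw [hen]
  have h2 : kk n = K := by unfold kk; rw [hen]
  have h3 : ee n = e := by unfold ee; rw [hen]
  have h4 : hh n = h := by unfold hh; rw [hen]
  refine ⟨n, le_trans (le_max_left _ _) hn, ?_, h1, h2, ?_, h3⟩
  · refine ⟨by rw [h1, h2]; exact hpK, ?_, ?_, by rw [h1]; exact hp⟩
    · rw [h2]
      exact le_trans (le_trans (le_max_left _ _) (le_max_right _ _)) hn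
    · rw [h3]
      have : e + 1 ≤ n := le_trans (le_trans (le_max_right _ _) (le_max_right _ _)) hn
      omega
  · unfold ff S
    rw [h3, h4]
    exact hh'

theorem exists_root (L : ℕ) : ∃ n, L ≤ n ∧ ¬ isC n := by
  obtain ⟨n, hn, hen⟩ := en_spec (0, 0, 0, 0) L
  refine ⟨n, hn, fun h => ?_⟩
  have h1 := h.1
  unfold pp kk at h1
  rw [hen] at h1
  simp at h1

end Pool.Agent.Lib_helper40.Tree
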