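import Mathlib
import Pool.Agent.Lib_helper40.TreeData

set_option autoImplicit false

open Finset

namespace Pool.Agent.Lib_helper40.Tree

open Classical in
/-- extension operator: `ex x n K` is the `n`-th coordinate of the extension of the first `K`
coordinates of `x` -/
noncomputable def ex (x : ℕ → ℝ) (n K : ℕ) : ℝ :=
  if n < K then x n
  else if isC n ∧ kk n < K then
    1 / 8 * ff n (fun j => if _h : j < n then ex x j K - ex x j (kk n) else 0)
  else 0
termination_by n

/-- the projection -/
noncomputable def P (K : ℕ) (x : ℕ → ℝ) : ℕ → ℝ := fun n => ex x n K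

theorem P_lt {K n : ℕ} (h : n < K) (x : ℕ → ℝ) : P K x n = x n := by
  unfold P
  rw [ex, if_pos h]

theorem P_child {K n : ℕ} (h : K ≤ n) (hc : isC n) (hk : kk n < K) (x : ℕ → ℝ) :
    P K x n = 1 / 8 * ff n (P K x - P (kk n) x) := by
  have h1 : P K x n = 1 / 8 * ff n
      (fun j => if _h : j < n then ex x j K - ex x j (kk n) else 0) := by
    unfold P
    rw [ex, if_neg (by omega), if_pos ⟨hc, hk⟩]
  rw [h1]
  congr 1
  apply ff_congr
  intro j hj
  have : j < n := lt_of_le_of_lt hj hc.2.2.1
  simp only [dif_pos this, Pi.sub_apply]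
  rfl

theorem P_zero' {K n : ℕ} (h : K ≤ n) (hc : ¬ (isC n ∧ kk n < K)) (x : ℕ → ℝ) :
    P K x n = 0 := by
  unfold P
  rw [ex, if_neg (by omega), if_neg hc]

/-- dependence on the first coordinates only -/
theorem P_congr {K : ℕ} {x y : ℕ → ℝ} (h : ∀ j < K, x j = y j) : P K x = P K y := by
  have key : ∀ n, ∀ K' ≤ K, P K' x n = P K' y n := by
    intro n
    induction n using Nat.strong_induction_on with
    | _ n ih =>
      intro K' hK'
      rcases lt_or_ge n K' with h1 | h1
      · rw [P_lt h1, P_lt h1, h n (by omega)]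
      · by_cases hc : isC n ∧ kk n < K'
        · rw [P_child h1 hc.1 hc.2, P_child h1 hc.1 hc.2]
          congr 1
          apply ff_congr
          intro j hj
          have hjn : j < n := lt_of_le_of_lt hj hc.1.2.2.1
          simp only [Pi.sub_apply]
          rw [ih j hjn K' hK', ih j hjn (kk n) (by omega)]
        · rw [P_zero' h1 hc, P_zero' h1 hc]
  funext n
  exact key n K le_rfl

theorem P_add (K : ℕ) (x y : ℕ → ℝ) : P K (x + y) = P K x + P K y := by
  have key : ∀ n, ∀ K, P K (x + y) n = P K x n + P K y n := by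
    intro n
    induction n using Nat.strong_induction_on with
    | _ n ih =>
      intro K
      rcases lt_or_ge n K with h1 | h1
      · rw [P_lt h1, P_lt h1, P_lt h1]; rfl
      · by_cases hc : isC n ∧ kk n < K
        · rw [P_child h1 hc.1 hc.2, P_child h1 hc.1 hc.2, P_child h1 hc.1 hc.2, ← mul_add,
            ← ff_add]
          congr 1
          apply ff_congr
          intro j hj
          have hjn : j < n := lt_of_le_of_lt hj hc.1.2.2.1
          simp only [Pi.sub_apply, Pi.add_apply]
          rw [ih j hjn, ih j hjn]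
          ring
        · rw [P_zero' h1 hc, P_zero' h1 hc, P_zero' h1 hc, add_zero]
  funext n
  exact key n K

theorem P_smul (K : ℕ) (c : ℝ) (x : ℕ → ℝ) : P K (c • x) = c • P K x := by
  have key : ∀ n, ∀ K, P K (c • x) n = c * P K x n := by
    intro n
    induction n using Nat.strong_induction_on with
    | _ n ih =>
      intro K
      rcases lt_or_ge n K with h1 | h1
      · rw [P_lt h1, P_lt h1]; rfl
      · by_cases hc : isC n ∧ kk n < K
        · rw [P_child h1 hc.1 hc.2, P_child h1 hc.1 hc.2]
          have e : ff n (P K (c • x) - P (kk n) (c • x)) = c * ff n (P K x - P (kk n) x) := by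
            rw [← ff_smul]
            apply ff_congr
            intro j hj
            have hjn : j < n := lt_of_le_of_lt hj hc.1.2.2.1
            simp only [Pi.sub_apply, Pi.smul_apply, smul_eq_mul]
            rw [ih j hjn, ih j hjn]
            ring
          rw [e]; ring
        · rw [P_zero' h1 hc, P_zero' h1 hc, mul_zero]
  funext n
  exact key n K

/-- the projection as a linear map -/
noncomputable def PL (K : ℕ) : (ℕ → ℝ) →ₗ[ℝ] (ℕ → ℝ) where
  toFun := P K
  map_add' := P_add K
  map_smul' := P_smul K

theorem PL_apply (K : ℕ) (x : ℕ → ℝ) : PL K x = P K x := rfl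

theorem P_sub (K : ℕ) (x y : ℕ → ℝ) : P K (x - y) = P K x - P K y := (PL K).map_sub x y

theorem P_sum {ι : Type*} (K : ℕ) (s : Finset ι) (x : ι → ℕ → ℝ) :
    P K (∑ i ∈ s, x i) = ∑ i ∈ s, P K (x i) := map_sum (PL K) _ _

theorem P_zero (K : ℕ) : P K 0 = 0 := (PL K).map_zero

theorem P_vanish {K : ℕ} {x : ℕ → ℝ} (h : ∀ j < K, x j = 0) : P K x = 0 := by
  rw [P_congr (y := 0) (fun j hj => by rw [h j hj]; rfl), P_zero]

/-- `P L (P K x) = P K x` for `K ≤ L` -/
theorem P_P_le {K L : ℕ} (hKL : K ≤ L) (x : ℕ → ℝ) : P L (P K x) = P K x := by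
  have key : ∀ n, ∀ K L, K ≤ L → P L (P K x) n = P K x n := by
    intro n
    induction n using Nat.strong_induction_on with
    | _ n ih =>
      intro K L hKL
      rcases lt_or_ge n L with h1 | h1
      · rw [P_lt h1]
      · have h2 : K ≤ n := hKL.trans h1
        by_cases hc : isC n ∧ kk n < L
        · rw [P_child h1 hc.1 hc.2]
          rcases lt_or_ge (kk n) K with h3 | h3
          · rw [P_child h2 hc.1 h3]
            congr 1
            apply ff_congr
            intro j hj
            have hjn : j < n := lt_of_le_of_lt hj hc.1.2.2.1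
            simp only [Pi.sub_apply]
            rw [ih j hjn K L hKL, P_congr (K := kk n) (x := P K x) (y := x)
              (fun i hi => P_lt (by omega) x)]
          · rw [P_zero' h2 (by omega)]
            have : ff n (P L (P K x) - P (kk n) (P K x)) = ff n 0 := by
              apply ff_congr
              intro j hj
              have hjn : j < n := lt_of_le_of_lt hj hc.1.2.2.1
              simp only [Pi.sub_apply, Pi.zero_apply]
              rw [ih j hjn K L hKL, ih j hjn K (kk n) h3, sub_self]
            rw [this]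
            have h0 : ff n 0 = 0 := by
              have := ff_smul n 0 0
              simpa using this
            rw [h0, mul_zero]
        · rw [P_zero' h1 hc, P_zero' h2]
          intro h3
          exact hc ⟨h3.1, by omega⟩
  funext n
  exact key n K L hKL

/-- `P L (P K x) = P L x` for `L ≤ K` -/
theorem P_P_ge {K L : ℕ} (hLK : L ≤ K) (x : ℕ → ℝ) : P L (P K x) = P L x :=
  P_congr fun _ hj => P_lt (by omega) x

theorem sqrt_S_add_le (n : ℕ) (x y : ℕ → ℝ) : √(S n (x + y)) ≤ √(S n x) + √(S n y) := by
  have h := norm_add_le (WithLp.toLp 2 (fun j : ch n => x j)) (WithLp.toLp 2 (fun j : ch n => y j))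
  rw [EuclideanSpace.norm_eq, EuclideanSpace.norm_eq, EuclideanSpace.norm_eq] at h
  simp only [PiLp.add_apply, Real.norm_eq_abs, sq_abs] at h
  unfold S
  rw [← Finset.sum_coe_sort (ch n) (fun j => (x + y) j ^ 2), ← Finset.sum_coe_sort (ch n)
    (fun j => x j ^ 2), ← Finset.sum_coe_sort (ch n) (fun j => y j ^ 2)]
  exact h

theorem S_neg (n : ℕ) (x : ℕ → ℝ) : S n (-x) = S n x := by
  unfold S
  exact sum_congr rfl fun j _ => by simp

theorem sqrt_S_sub_le (n : ℕ) (x y : ℕ → ℝ) : √(S n (x - y)) ≤ √(S n x) + √(S n y) := by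
  rw [sub_eq_add_neg]
  have := sqrt_S_add_le n x (-y)
  rwa [S_neg] at this

theorem abs_ff_le (n : ℕ) (x : ℕ → ℝ) : |ff n x| ≤ √(S (ee n) x) :=
  Real.abs_le_sqrt (ff_sq_le n x)

/-- boundedness of the extension -/
theorem P_bound {K : ℕ} {x : ℕ → ℝ} {A : ℝ} (hA : 0 ≤ A) (h : ∀ i < K, S i x ≤ A ^ 2) (n : ℕ) :
    S n (P K x) ≤ 4 * A ^ 2 := by
  have key : ∀ n, ∀ K' ≤ K, S n (P K' x) ≤ 5 / 4 * A ^ 2 := by
    intro n
    induction n using Nat.strong_induction_on with
    | _ n ih =>
      intro K' hK'
      rcases lt_or_ge n K' with h1 | h1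
      · rw [S_congr (y := x) (fun j hj => P_lt (by omega) x)]
        have := h n (by omega)
        nlinarith [sq_nonneg A]
      · by_cases hc : isC n
        · rw [S_child hc]
          by_cases hk : kk n < K'
          · have hp : pp n < K' := lt_trans hc.1 hk
            have e1 : S (pp n) (P K' x) ≤ A ^ 2 := by
              rw [S_congr (y := x) (fun j hj => P_lt (by omega) x)]
              exact h _ (by omega)
            have hen : ee n < n := hc.2.2.1
            have e2 : |P K' x n| ≤ 1 / 2 * A := by
              rw [P_child h1 hc hk, abs_mul]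
              have e3 := abs_ff_le n (P K' x - P (kk n) x)
              have e4 := sqrt_S_sub_le (ee n) (P K' x) (P (kk n) x)
              have e5 : √(S (ee n) (P K' x)) ≤ 2 * A := by
                apply Real.sqrt_le_iff.2
                refine ⟨by positivity, ?_⟩
                have := ih (ee n) hen K' hK'
                nlinarith [sq_nonneg A]
              have e6 : √(S (ee n) (P (kk n) x)) ≤ 2 * A := by
                apply Real.sqrt_le_iff.2
                refine ⟨by positivity, ?_⟩
                have := ih (ee n) hen (kk n) (by omega)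
                nlinarith [sq_nonneg A]
              have e7 : |(1 / 8 : ℝ)| = 1 / 8 := by norm_num
              rw [e7]
              linarith
            have e8 : P K' x n ^ 2 ≤ (1 / 2 * A) ^ 2 := sq_le_sq' (by
              rw [abs_le] at e2; linarith) (by rw [abs_le] at e2; linarith)
            nlinarith
          · rw [P_zero' h1 (fun h => hk h.2)]
            have := ih (pp n) (pp_lt hc) K' hK'
            linarith
        · rw [S_root hc, P_zero' h1 (fun h => hc h.1)]
          nlinarith [sq_nonneg A]
  have := key n K le_rfl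
  nlinarith [sq_nonneg A]

/-- upper `ℓ₂` estimate for blocks -/
theorem block_bound {ι : Type*} [DecidableEq ι] (s₀ : Finset ι) (x : ι → ℕ → ℝ) (p q : ι → ℕ)
    (A : ι → ℝ) (hq : ∀ i ∈ s₀, P (q i) (x i) = x i) (hp : ∀ i ∈ s₀, ∀ j < p i, x i j = 0)
    (hdisj : ∀ i ∈ s₀, ∀ i' ∈ s₀, i ≠ i' → q i ≤ p i' ∨ q i' ≤ p i)
    (hA : ∀ i ∈ s₀, ∀ n, S n (x i) ≤ A i ^ 2) (n : ℕ) :
    S n (∑ i ∈ s₀, x i) ≤ 4 * ∑ i ∈ s₀, A i ^ 2 := by
  have key : ∀ n, ∀ s ⊆ s₀, S n (∑ i ∈ s, x i) ≤
      2 * ∑ i ∈ s, S n (x i) + 9 / 8 * ∑ i ∈ s with q i ≤ n, A i ^ 2 := by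
    intro n
    induction n using Nat.strong_induction_on with
    | _ n ih =>
      intro s hs
      -- consequence of the induction hypothesis
      have ih2 : ∀ m < n, ∀ s ⊆ s₀, S m (∑ i ∈ s, x i) ≤ 4 * ∑ i ∈ s, A i ^ 2 := by
        intro m hm s hs
        have h1 := ih m hm s hs
        have h2 : ∑ i ∈ s, S m (x i) ≤ ∑ i ∈ s, A i ^ 2 :=
          sum_le_sum fun i hi => hA i (hs hi) m
        have h3 : ∑ i ∈ s with q i ≤ m, A i ^ 2 ≤ ∑ i ∈ s, A i ^ 2 :=
          sum_le_sum_of_subset_of_nonneg (filter_subset _ _) (fun _ _ _ => sq_nonneg _)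
        have h4 : 0 ≤ ∑ i ∈ s, A i ^ 2 := sum_nonneg fun _ _ => sq_nonneg _
        linarith
      -- the new coordinate
      have hsplit : (∑ i ∈ s, x i) n = ∑ i ∈ s with n < q i, x i n
          + ∑ i ∈ s with ¬ n < q i, x i n := by
        rw [Finset.sum_apply, sum_filter_add_sum_filter_not]
      have hhit : (∑ i ∈ s with n < q i, x i n) ^ 2 ≤ ∑ i ∈ s with n < q i, x i n ^ 2 := by
        by_cases hex : ∃ i₀ ∈ s.filter (fun i => n < q i), p i₀ ≤ n
        · obtain ⟨i₀, hi₀, hpi⟩ := hex
          have hi₀' := mem_filter.1 hi₀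
          have e1 : ∑ i ∈ s with n < q i, x i n = x i₀ n := by
            apply sum_eq_single_of_mem i₀ hi₀
            intro i hi hne
            have hi' := mem_filter.1 hi
            apply hp i (hs hi'.1)
            rcases hdisj i (hs hi'.1) i₀ (hs hi₀'.1) hne with h | h <;> omega
          rw [e1]
          exact single_le_sum (f := fun i => x i n ^ 2) (fun _ _ => sq_nonneg _) hi₀
        · push Not at hex
          have e1 : ∑ i ∈ s with n < q i, x i n = 0 := by
            apply sum_eq_zero
            intro i hi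
            exact hp i (hs (mem_filter.1 hi).1) n (hex i hi)
          rw [e1]
          have : 0 ≤ ∑ i ∈ s with n < q i, x i n ^ 2 := sum_nonneg fun _ _ => sq_nonneg _
          simpa using this
      by_cases hc : isC n
      · have hfree : |∑ i ∈ s with ¬ n < q i, x i n| ≤
            3 / 4 * √(∑ i ∈ s with (kk n < q i ∧ q i ≤ n), A i ^ 2) := by
          have e1 : ∑ i ∈ s with ¬ n < q i, x i n =
              1 / 8 * ff n ((∑ i ∈ s with (kk n < q i ∧ q i ≤ n), x i)
                - P (kk n) (∑ i ∈ s with (kk n < q i ∧ q i ≤ n), x i)) := by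
            have e2 : ∀ i ∈ s.filter (fun i => ¬ n < q i), x i n =
                if kk n < q i then 1 / 8 * ff n (x i - P (kk n) (x i)) else 0 := by
              intro i hi
              have hi' := mem_filter.1 hi
              have hle : q i ≤ n := not_lt.1 hi'.2
              have hqi := hq i (hs hi'.1)
              split_ifs with hk
              · have := P_child hle hc hk (x i)
                rw [hqi] at this
                exact this
              · have := P_zero' hle (fun h => hk h.2) (x i)
                rw [hqi] at this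
                exact this
            rw [sum_congr rfl e2, ← sum_filter, filter_filter, P_sum, ← sum_sub_distrib]
            have e3 : ff n (∑ i ∈ s with (kk n < q i ∧ q i ≤ n), (x i - P (kk n) (x i))) =
                ∑ i ∈ s with (kk n < q i ∧ q i ≤ n), ff n (x i - P (kk n) (x i)) := by
              let F : (ℕ → ℝ) →ₗ[ℝ] ℝ :=
                { toFun := ff n
                  map_add' := ff_add n
                  map_smul' := ff_smul n }
              exact map_sum F _ _
            rw [e3, mul_sum]
            apply sum_congr _ (fun _ _ => rfl)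
            ext i
            simp only [mem_filter, not_lt]
            tauto
          set I := s.filter (fun i => kk n < q i ∧ q i ≤ n) with hI
          have hIs : I ⊆ s₀ := (filter_subset _ _).trans hs
          set Q : ℝ := √(∑ i ∈ I, A i ^ 2) with hQ
          have hQ0 : 0 ≤ Q := Real.sqrt_nonneg _
          have hQ2 : Q ^ 2 = ∑ i ∈ I, A i ^ 2 := Real.sq_sqrt (sum_nonneg fun _ _ => sq_nonneg _)
          rw [e1, abs_mul]
          have hen : ee n < n := hc.2.2.1
          have e3 := abs_ff_le n ((∑ i ∈ I, x i) - P (kk n) (∑ i ∈ I, x i))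
          have e4 := sqrt_S_sub_le (ee n) (∑ i ∈ I, x i) (P (kk n) (∑ i ∈ I, x i))
          have e5 : √(S (ee n) (∑ i ∈ I, x i)) ≤ 2 * Q := by
            apply Real.sqrt_le_iff.2
            refine ⟨by positivity, ?_⟩
            have := ih2 (ee n) hen I hIs
            nlinarith
          have e6 : √(S (ee n) (P (kk n) (∑ i ∈ I, x i))) ≤ 4 * Q := by
            apply Real.sqrt_le_iff.2
            refine ⟨by positivity, ?_⟩
            have := P_bound (K := kk n) (x := ∑ i ∈ I, x i) (A := 2 * Q) (by positivity)
              (fun j hj => by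
                have := ih2 j (lt_of_lt_of_le hj hc.2.1) I hIs
                nlinarith) (ee n)
            nlinarith
          have e7 : |(1 / 8 : ℝ)| = 1 / 8 := by norm_num
          rw [e7]
          linarith
        rw [S_child hc]
        have hprev := ih (pp n) (pp_lt hc) s hs
        have e1 : (∑ i ∈ s, x i) n ^ 2 ≤ 2 * ∑ i ∈ s with n < q i, x i n ^ 2
            + 9 / 8 * ∑ i ∈ s with (kk n < q i ∧ q i ≤ n), A i ^ 2 := by
          rw [hsplit]
          set a := ∑ i ∈ s with n < q i, x i n
          set b := ∑ i ∈ s with ¬ n < q i, x i n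
          have hb : b ^ 2 ≤ 9 / 16 * ∑ i ∈ s with (kk n < q i ∧ q i ≤ n), A i ^ 2 := by
            have h0 : 0 ≤ ∑ i ∈ s with (kk n < q i ∧ q i ≤ n), A i ^ 2 :=
              sum_nonneg fun _ _ => sq_nonneg _
            have h1 := Real.sq_sqrt h0
            have h2 : b ^ 2 ≤ (3 / 4 * √(∑ i ∈ s with (kk n < q i ∧ q i ≤ n), A i ^ 2)) ^ 2 := by
              rw [← sq_abs b]
              exact pow_le_pow_left₀ (abs_nonneg _) hfree 2
            nlinarith
          nlinarith [sq_nonneg (a - b)]
        have e2 : ∑ i ∈ s with n < q i, x i n ^ 2 ≤ ∑ i ∈ s, x i n ^ 2 :=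
          sum_le_sum_of_subset_of_nonneg (filter_subset _ _) (fun _ _ _ => sq_nonneg _)
        have e3 : ∑ i ∈ s, S n (x i) = ∑ i ∈ s, x i n ^ 2 + ∑ i ∈ s, S (pp n) (x i) := by
          rw [← sum_add_distrib]
          exact sum_congr rfl fun i _ => S_child hc _
        have e4 : ∑ i ∈ s with q i ≤ pp n, A i ^ 2
            + ∑ i ∈ s with (kk n < q i ∧ q i ≤ n), A i ^ 2 ≤ ∑ i ∈ s with q i ≤ n, A i ^ 2 := by
          have hk1 := hc.1
          have hk2 := hc.2.1
          rw [← sum_union]
          · apply sum_le_sum_of_subset_of_nonneg _ (fun _ _ _ => sq_nonneg _)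
            intro i hi
            simp only [mem_union, mem_filter] at hi ⊢
            rcases hi with h | h
            · exact ⟨h.1, by omega⟩
            · exact ⟨h.1, h.2.2⟩
          · rw [disjoint_left]
            intro i h1 h2
            simp only [mem_filter] at h1 h2
            omega
        linarith
      · have hfree : ∑ i ∈ s with ¬ n < q i, x i n = 0 := by
          apply sum_eq_zero
          intro i hi
          have hi' := mem_filter.1 hi
          have := P_zero' (not_lt.1 hi'.2) (fun h => hc h.1) (x i)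
          rwa [hq i (hs hi'.1)] at this
        rw [S_root hc, hsplit, hfree, add_zero]
        have e2 : ∑ i ∈ s with n < q i, x i n ^ 2 ≤ ∑ i ∈ s, S n (x i) := by
          refine (sum_le_sum_of_subset_of_nonneg (filter_subset _ _)
            (fun _ _ _ => sq_nonneg _)).trans ?_
          exact sum_le_sum fun i _ => (S_root hc (x i)).ge
        have e3 : 0 ≤ ∑ i ∈ s with q i ≤ n, A i ^ 2 := sum_nonneg fun _ _ => sq_nonneg _
        have e4 : 0 ≤ ∑ i ∈ s, S n (x i) := sum_nonneg fun _ _ => S_nonneg _ _
        linarith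
  have h1 := key n s₀ subset_rfl
  have h2 : ∑ i ∈ s₀, S n (x i) ≤ ∑ i ∈ s₀, A i ^ 2 := sum_le_sum fun i hi => hA i hi n
  have h3 : ∑ i ∈ s₀ with q i ≤ n, A i ^ 2 ≤ ∑ i ∈ s₀, A i ^ 2 :=
    sum_le_sum_of_subset_of_nonneg (filter_subset _ _) (fun _ _ _ => sq_nonneg _)
  have h4 : 0 ≤ ∑ i ∈ s₀, A i ^ 2 := sum_nonneg fun _ _ => sq_nonneg _
  linarith

end Pool.Agent.Lib_helper40.Tree
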