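import Mathlib
import Pool.Agent.Lib_helper40.TreeExt

set_option autoImplicit false

open Finset Filter Topology

namespace Pool.Agent.Lib_helper40.Tree

/-- restriction of a sequence to a chain -/
noncomputable def res (n : ℕ) (y : ℕ → ℝ) : EuclideanSpace ℝ (ch n) :=
  WithLp.toLp 2 (fun j : ch n => y j)

theorem norm_res (n : ℕ) (y : ℕ → ℝ) : ‖res n y‖ = √(S n y) := by
  unfold res S
  rw [EuclideanSpace.norm_eq, ← Finset.sum_coe_sort (ch n) (fun j => y j ^ 2)]
  simp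

theorem res_add (n : ℕ) (x y : ℕ → ℝ) : res n (x + y) = res n x + res n y := rfl

theorem res_smul (n : ℕ) (c : ℝ) (x : ℕ → ℝ) : res n (c • x) = c • res n x := rfl

/-- the ambient space -/
abbrev LL : Type := lp (fun n : ℕ => EuclideanSpace ℝ (ch n)) ⊤

theorem exists_bound (K : ℕ) (y : ℕ → ℝ) : ∃ C : ℝ, 0 ≤ C ∧ ∀ n, √(S n (P K y)) ≤ C := by
  refine ⟨2 * √(∑ i ∈ range K, S i y), by positivity, fun n => ?_⟩
  apply Real.sqrt_le_iff.2
  refine ⟨by positivity, ?_⟩
  have h0 : 0 ≤ ∑ i ∈ range K, S i y := sum_nonneg fun _ _ => S_nonneg _ _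
  have := P_bound (K := K) (x := y) (A := √(∑ i ∈ range K, S i y)) (Real.sqrt_nonneg _)
    (fun i hi => by
      rw [Real.sq_sqrt h0]
      exact single_le_sum (f := fun i => S i y) (fun _ _ => S_nonneg _ _) (mem_range.2 hi)) n
  nlinarith

theorem memP (K : ℕ) (y : ℕ → ℝ) : Memℓp (fun n => res n (P K y)) ⊤ := by
  apply memℓp_infty
  obtain ⟨C, _, hC⟩ := exists_bound K y
  refine ⟨C, ?_⟩
  rintro _ ⟨n, rfl⟩
  simp only [norm_res]
  exact hC n

/-- elements with finitely many free coordinates -/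
noncomputable def base : Submodule ℝ LL where
  carrier := {u | ∃ K y, ∀ n, u n = res n (P K y)}
  zero_mem' := ⟨0, 0, fun n => by rw [P_zero]; rfl⟩
  add_mem' := by
    rintro u v ⟨K, y, hu⟩ ⟨L, z, hv⟩
    refine ⟨max K L, P K y + P L z, fun n => ?_⟩
    rw [P_add, P_P_le (le_max_left _ _), P_P_le (le_max_right _ _), res_add, ← hu, ← hv]
    rfl
  smul_mem' := by
    rintro c u ⟨K, y, hu⟩
    refine ⟨K, c • y, fun n => ?_⟩
    rw [P_smul, res_smul, ← hu]
    rfl

/-- the space as a submodule -/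
noncomputable def EM : Submodule ℝ LL := base.topologicalClosure

/-- the Banach space of the counterexample -/
def EE : Type := ↥EM

noncomputable instance : NormedAddCommGroup EE := inferInstanceAs (NormedAddCommGroup ↥EM)
noncomputable instance : NormedSpace ℝ EE := inferInstanceAs (NormedSpace ℝ ↥EM)
instance : CompleteSpace EE := base.isClosed_topologicalClosure.completeSpace_coe

/-- coordinates -/
noncomputable def co : EE →ₗ[ℝ] (ℕ → ℝ) where
  toFun u := fun j => (u.1 j) ⟨j, self_mem j⟩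
  map_add' _ _ := rfl
  map_smul' _ _ := rfl

/-- the finite-dimensional pieces -/
noncomputable def pe (K : ℕ) : (ℕ → ℝ) →ₗ[ℝ] EE where
  toFun y := ⟨⟨fun n => res n (P K y), memP K y⟩,
    base.le_topologicalClosure ⟨K, y, fun _ => rfl⟩⟩
  map_add' x y := by
    apply Subtype.ext
    apply lp.ext
    funext n
    show res n (P K (x + y)) = res n (P K x) + res n (P K y)
    rw [P_add, res_add]
  map_smul' c x := by
    apply Subtype.ext
    apply lp.ext
    funext n
    show res n (P K (c • x)) = c • res n (P K x)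
    rw [P_smul, res_smul]

theorem co_pe (K : ℕ) (y : ℕ → ℝ) : co (pe K y) = P K y := rfl

theorem res_co (u : EE) (n : ℕ) : u.1 n = res n (co u) := by
  have hclosed : IsClosed {v : LL | ∀ n : ℕ, ∀ i : ch n, v n i = v i ⟨i, self_mem i⟩} := by
    simp only [Set.ofPred_forall]
    refine isClosed_iInter fun n => isClosed_iInter fun i => ?_
    have h1 : ∀ m : ℕ, ∀ k : ch m, Continuous (fun v : LL => v m k) := by
      intro m k
      have h2 : Continuous (fun v : LL => v m) :=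
        (lp.evalCLM ℝ (fun n : ℕ => EuclideanSpace ℝ (ch n)) ⊤ m).continuous
      exact (EuclideanSpace.proj (𝕜 := ℝ) k).continuous.comp h2
    exact isClosed_eq (h1 n i) (h1 i ⟨i, self_mem i⟩)
  have hsub : (base : Set LL) ⊆ {v : LL | ∀ n : ℕ, ∀ i : ch n, v n i = v i ⟨i, self_mem i⟩} := by
    rintro v ⟨K, y, hv⟩ n i
    rw [hv, hv]
    rfl
  have hmem : u.1 ∈ {v : LL | ∀ n : ℕ, ∀ i : ch n, v n i = v i ⟨i, self_mem i⟩} :=
    closure_minimal hsub hclosed u.2
  ext i
  exact hmem n i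

theorem norm_le_iff' (x : EE) {A : ℝ} (hA : 0 ≤ A) : ‖x‖ ≤ A ↔ ∀ n, √(S n (co x)) ≤ A := by
  have h0 : ‖x‖ = ‖x.1‖ := rfl
  rw [h0]
  constructor
  · intro h n
    have h1 := lp.norm_apply_le_norm (p := ⊤) (by simp) x.1 n
    rw [res_co x n, norm_res] at h1
    exact h1.trans h
  · intro h
    apply lp.norm_le_of_forall_le hA
    intro n
    rw [res_co x n, norm_res]
    exact h n

theorem sqrt_S_le_norm (x : EE) (n : ℕ) : √(S n (co x)) ≤ ‖x‖ :=
  (norm_le_iff' x (norm_nonneg x)).1 le_rfl n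

theorem S_le_norm_sq (x : EE) (n : ℕ) : S n (co x) ≤ ‖x‖ ^ 2 := by
  have := sqrt_S_le_norm x n
  rw [Real.sqrt_le_left (norm_nonneg x)] at this
  exact this

theorem norm_pe_le {K : ℕ} {y : ℕ → ℝ} {A : ℝ} (hA : 0 ≤ A) (h : ∀ i < K, S i y ≤ A ^ 2) :
    ‖pe K y‖ ≤ 2 * A := by
  rw [norm_le_iff' _ (by positivity)]
  intro n
  rw [co_pe]
  apply Real.sqrt_le_iff.2
  refine ⟨by positivity, ?_⟩
  have := P_bound hA h n
  nlinarith

/-- the projections on the space -/
noncomputable def PE (K : ℕ) (x : EE) : EE := pe K (co x)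

theorem PE_sub (K : ℕ) (x y : EE) : PE K (x - y) = PE K x - PE K y := by
  unfold PE; rw [map_sub, map_sub]

theorem norm_PE_le (K : ℕ) (x : EE) : ‖PE K x‖ ≤ 2 * ‖x‖ :=
  norm_pe_le (norm_nonneg x) (fun i _ => S_le_norm_sq x i)

theorem co_inj {x y : EE} (h : co x = co y) : x = y := by
  apply Subtype.ext
  apply lp.ext
  funext n
  rw [res_co x n, res_co y n, h]

theorem co_PE (K : ℕ) (x : EE) : co (PE K x) = P K (co x) := rfl

theorem PE_pe_le {K L : ℕ} (h : K ≤ L) (y : ℕ → ℝ) : PE L (pe K y) = pe K y := by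
  apply co_inj
  rw [co_PE, co_pe, P_P_le h]

theorem PE_PE_le {K L : ℕ} (h : K ≤ L) (x : EE) : PE L (PE K x) = PE K x := PE_pe_le h _

theorem PE_PE_ge {K L : ℕ} (h : L ≤ K) (x : EE) : PE L (PE K x) = PE L x := by
  apply co_inj
  rw [co_PE, co_PE, co_PE, P_P_ge h]

theorem PE_pe_ge {K L : ℕ} (h : L ≤ K) (y : ℕ → ℝ) : PE L (pe K y) = pe L y := by
  apply co_inj
  rw [co_PE, co_pe, co_pe, P_P_ge h]

theorem PE_tendsto (x : EE) : Tendsto (fun n => PE n x) atTop (𝓝 x) := by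
  rw [Metric.tendsto_atTop]
  intro ε hε
  have hx : x.1 ∈ closure (base : Set LL) := x.2
  obtain ⟨v, ⟨K, y, hv⟩, hxv⟩ := Metric.mem_closure_iff.1 hx (ε / 4) (by linarith)
  have hv' : v = (pe K y).1 := by
    apply lp.ext
    funext n
    exact hv n
  have hd : ‖x - pe K y‖ < ε / 4 := by
    have : ‖x - pe K y‖ = dist x.1 (pe K y).1 := by rw [dist_eq_norm]; rfl
    rw [this, ← hv']
    exact hxv
  refine ⟨K, fun n hn => ?_⟩
  rw [dist_eq_norm]
  have e : PE n x - x = PE n (x - pe K y) - (x - pe K y) := by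
    rw [PE_sub, PE_pe_le hn]; abel
  rw [e]
  have h1 := norm_sub_le (PE n (x - pe K y)) (x - pe K y)
  have h2 := norm_PE_le n (x - pe K y)
  linarith

/-- upper estimate for blocks in the space -/
theorem block_norm {ι : Type*} [DecidableEq ι] (s : Finset ι) (x : ι → EE) (p q : ι → ℕ)
    (A : ι → ℝ) (hq : ∀ i ∈ s, PE (q i) (x i) = x i) (hp : ∀ i ∈ s, ∀ j < p i, co (x i) j = 0)
    (hdisj : ∀ i ∈ s, ∀ i' ∈ s, i ≠ i' → q i ≤ p i' ∨ q i' ≤ p i)
    (hA : ∀ i ∈ s, ‖x i‖ ≤ A i) :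
    ‖∑ i ∈ s, x i‖ ≤ 2 * √(∑ i ∈ s, A i ^ 2) := by
  rw [norm_le_iff' _ (by positivity)]
  intro n
  rw [map_sum]
  apply Real.sqrt_le_iff.2
  refine ⟨by positivity, ?_⟩
  have h0 : 0 ≤ ∑ i ∈ s, A i ^ 2 := sum_nonneg fun _ _ => sq_nonneg _
  have := block_bound s (fun i => co (x i)) p q A (fun i hi => by
    have := congrArg co (hq i hi)
    rwa [co_PE] at this) hp hdisj (fun i hi n => by
      refine (S_le_norm_sq (x i) n).trans ?_
      exact pow_le_pow_left₀ (norm_nonneg _) (hA i hi) 2) n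
  rw [mul_pow, Real.sq_sqrt h0]
  linarith

end Pool.Agent.Lib_helper40.Tree
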