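import Mathlib
import Pool.Agent.Lib_helper40.TreeSpace

set_option autoImplicit false

open Finset Filter Topology

namespace Pool.Agent.Lib_helper40.Tree

theorem pe_congr {K : ℕ} {x y : ℕ → ℝ} (h : ∀ j < K, x j = y j) : pe K x = pe K y := by
  apply co_inj
  rw [co_pe, co_pe, P_congr h]

/-- extension by zero of finite sequences -/
noncomputable def ez (n : ℕ) : (Fin n → ℝ) →ₗ[ℝ] (ℕ → ℝ) where
  toFun y := fun j => if h : j < n then y ⟨j, h⟩ else 0
  map_add' x y := by
    funext j
    by_cases h : j < n <;> simp [h]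
  map_smul' c x := by
    funext j
    by_cases h : j < n <;> simp [h]

theorem pe_ez (n : ℕ) (y : ℕ → ℝ) : pe n (ez n (fun i => y i)) = pe n y := by
  apply pe_congr
  intro j hj
  simp [ez, hj]

theorem co_pe_lt {K j : ℕ} (h : j < K) (y : ℕ → ℝ) : co (pe K y) j = y j := by
  rw [co_pe, P_lt h]

theorem not_finiteDimensional : ¬ FiniteDimensional ℝ EE := by
  intro hfd
  have h1 : ∀ N : ℕ, N ≤ Module.finrank ℝ EE := by
    intro N
    have hinj : Function.Injective ((pe N).comp (ez N)) := by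
      intro x y hxy
      funext i
      have h2 : co (pe N (ez N x)) i = co (pe N (ez N y)) i := by
        have : pe N (ez N x) = pe N (ez N y) := hxy
        rw [this]
      rw [co_pe_lt i.2, co_pe_lt i.2] at h2
      simpa [ez] using h2
    have := LinearMap.finrank_le_finrank_of_injective hinj
    simpa using this
  have := h1 (Module.finrank ℝ EE + 1)
  omega

/-- shrinking property -/
theorem shrink (f : EE →L[ℝ] ℝ) {ε : ℝ} (hε : 0 < ε) :
    ∃ n0, ∀ n ≥ n0, ∀ x, |f x - f (PE n x)| ≤ ε * ‖x‖ := by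
  by_contra hcon
  push Not at hcon
  -- step
  have step : ∀ p : ℕ, ∃ q, p < q ∧ ∃ y : EE, PE q y = y ∧ (∀ j < p, co y j = 0) ∧ ‖y‖ ≤ 4 ∧
      ε / 2 ≤ f y := by
    intro p
    obtain ⟨n, hn, x, hx⟩ := hcon p
    have hx0 : 0 < ‖x‖ := by
      by_contra h
      have : x = 0 := by
        rw [← norm_le_zero_iff]; exact not_lt.1 h
      rw [this] at hx
      have h2 : PE n (0 : EE) = 0 := by unfold PE; rw [map_zero, map_zero]
      rw [h2] at hx
      simp at hx
    -- normalised sign-corrected vector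
    obtain ⟨z, hz1, hz2, hz3⟩ : ∃ z : EE, ‖z‖ ≤ 3 ∧ (∀ j < n, co z j = 0) ∧ ε < f z := by
      have key : ∀ s : ℝ, |s| = 1 → ∃ z : EE, ‖z‖ ≤ 3 ∧ (∀ j < n, co z j = 0) ∧
          f z = s / ‖x‖ * (f x - f (PE n x)) := by
        intro s hs
        refine ⟨(s / ‖x‖) • (x - PE n x), ?_, ?_, ?_⟩
        · rw [norm_smul, Real.norm_eq_abs, abs_div, hs, abs_norm]
          have h1 := norm_sub_le x (PE n x)
          have h2 := norm_PE_le n x
          rw [div_mul_eq_mul_div, one_mul, div_le_iff₀ hx0]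
          linarith
        · intro j hj
          rw [map_smul, map_sub, co_PE]
          simp only [Pi.smul_apply, Pi.sub_apply]
          rw [P_lt hj, sub_self, smul_zero]
        · rw [map_smul, map_sub, smul_eq_mul]
      rcases le_total 0 (f x - f (PE n x)) with h | h
      · obtain ⟨z, hz1, hz2, hz3⟩ := key 1 (by simp)
        refine ⟨z, hz1, hz2, ?_⟩
        rw [abs_of_nonneg h] at hx
        rw [hz3, div_mul_eq_mul_div, one_mul, lt_div_iff₀ hx0]
        exact hx
      · obtain ⟨z, hz1, hz2, hz3⟩ := key (-1) (by simp)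
        refine ⟨z, hz1, hz2, ?_⟩
        rw [abs_of_nonpos h] at hx
        rw [hz3, div_mul_eq_mul_div, lt_div_iff₀ hx0]
        linarith
    have ht := PE_tendsto z
    have h1 : ∀ᶠ q in atTop, ε / 2 ≤ f (PE q z) := by
      have h2 : Tendsto (fun q => f (PE q z)) atTop (𝓝 (f z)) :=
        (f.continuous.tendsto z).comp ht
      exact (h2.eventually (lt_mem_nhds (show ε / 2 < f z by linarith))).mono fun _ h => h.le
    have h2 : ∀ᶠ q in atTop, ‖PE q z‖ ≤ 4 := by
      have h3 := ht.norm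
      exact (h3.eventually (gt_mem_nhds (show ‖z‖ < 4 by linarith))).mono fun _ h => h.le
    obtain ⟨q, ⟨hq1, hq2⟩, hq3⟩ := ((h1.and h2).and (eventually_gt_atTop n)).exists
    refine ⟨q, by omega, PE q z, PE_PE_le le_rfl z, ?_, hq2, hq1⟩
    intro j hj
    rw [co_PE, P_lt (by omega), hz2 j (by omega)]
  choose q hq y hy1 hy2 hy3 hy4 using step
  set p : ℕ → ℕ := fun i => Nat.rec 0 (fun _ r => q r) i with hp
  have hp1 : ∀ i, p (i + 1) = q (p i) := fun i => rfl
  have hmono : StrictMono p := strictMono_nat_of_lt_succ fun i => by rw [hp1]; exact hq _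
  have hbound : ∀ N : ℕ, (N : ℝ) * (ε / 2) ≤ ‖f‖ * (2 * √(N * 16)) := by
    intro N
    have h1 := block_norm (range N) (fun i => y (p i)) p (fun i => p (i + 1)) (fun _ => 4)
      (fun i _ => by rw [hp1]; exact hy1 _) (fun i _ => hy2 _) (fun i _ i' _ hne => by
        rcases lt_or_gt_of_ne hne with h | h
        · left; exact hmono.monotone h
        · right; exact hmono.monotone h) (fun i _ => hy3 _)
    have h2 : (N : ℝ) * (ε / 2) ≤ f (∑ i ∈ range N, y (p i)) := by
      rw [map_sum]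
      calc (N : ℝ) * (ε / 2) = ∑ _i ∈ range N, ε / 2 := by simp
        _ ≤ _ := sum_le_sum fun i _ => hy4 _
    have h3 := f.le_opNorm (∑ i ∈ range N, y (p i))
    rw [Real.norm_eq_abs] at h3
    have h4 := le_abs_self (f (∑ i ∈ range N, y (p i)))
    have h5 : ∑ _i ∈ range N, (4 : ℝ) ^ 2 = N * 16 := by simp; norm_num
    rw [h5] at h1
    have h6 := mul_le_mul_of_nonneg_left h1 (norm_nonneg f)
    linarith
  -- choose N large
  obtain ⟨M, hM⟩ := exists_nat_gt (16 * ‖f‖ / ε)
  have h1 := hbound (M ^ 2 + 2 * M + 1)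
  have e : √(((M ^ 2 + 2 * M + 1 : ℕ) : ℝ) * 16) = (M + 1) * 4 := by
    rw [show ((M ^ 2 + 2 * M + 1 : ℕ) : ℝ) * 16 = ((M + 1) * 4) ^ 2 by push_cast; ring]
    exact Real.sqrt_sq (by positivity)
  rw [e] at h1
  push_cast at h1
  rw [div_lt_iff₀ hε] at hM
  have h2 : ((M : ℝ) + 1) * ((M + 1) * (ε / 2)) ≤ (M + 1) * (8 * ‖f‖) := by nlinarith
  have h3 := le_of_mul_le_mul_left h2 (by positivity)
  nlinarith

end Pool.Agent.Lib_helper40.Tree
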