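import Mathlib

set_option autoImplicit false

open Finset

namespace Pool.Agent.Lib_helper40.Tree

/-- signed sum with the sign pattern given by the set `A` -/
noncomputable def sg (t : ℕ → ℝ) (s A : Finset ℕ) : ℝ :=
  ∑ i ∈ s, (if i ∈ A then t i else -t i)

theorem sg_insert_left {t : ℕ → ℝ} {s A : Finset ℕ} {a : ℕ} (ha : a ∉ s) (hA : A ⊆ s) :
    sg t (insert a s) A = sg t s A - t a := by
  unfold sg
  rw [sum_insert ha, if_neg (fun h => ha (hA h))]
  ring

theorem sg_insert_both {t : ℕ → ℝ} {s A : Finset ℕ} {a : ℕ} (ha : a ∉ s) :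
    sg t (insert a s) (insert a A) = sg t s A + t a := by
  unfold sg
  rw [sum_insert ha, if_pos (mem_insert_self _ _), add_comm]
  congr 1
  apply sum_congr rfl
  intro i hi
  have : i ≠ a := fun h => ha (h ▸ hi)
  simp [mem_insert, this]

theorem sg_second (t : ℕ → ℝ) (s : Finset ℕ) :
    ∑ A ∈ s.powerset, sg t s A ^ 2 = 2 ^ s.card * ∑ i ∈ s, t i ^ 2 := by
  induction s using Finset.induction_on with
  | empty => simp [sg]
  | insert a s ha ih =>
    rw [sum_powerset_insert ha, sum_insert ha, card_insert_of_notMem ha]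
    rw [sum_congr rfl (fun A hA => by rw [sg_insert_left ha (mem_powerset.1 hA)] :
        ∀ A ∈ s.powerset, sg t (insert a s) A ^ 2 = (sg t s A - t a) ^ 2),
      sum_congr rfl (fun A _ => by rw [sg_insert_both ha] :
        ∀ A ∈ s.powerset, sg t (insert a s) (insert a A) ^ 2 = (sg t s A + t a) ^ 2),
      ← sum_add_distrib]
    have e : ∀ A ∈ s.powerset, (sg t s A - t a) ^ 2 + (sg t s A + t a) ^ 2 =
        2 * sg t s A ^ 2 + 2 * t a ^ 2 := fun A _ => by ring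
    rw [sum_congr rfl e, sum_add_distrib, ← mul_sum, ih, sum_const, card_powerset, nsmul_eq_mul]
    push_cast
    ring

theorem sg_fourth (t : ℕ → ℝ) (s : Finset ℕ) :
    ∑ A ∈ s.powerset, sg t s A ^ 4 ≤ 2 ^ s.card * (3 * (∑ i ∈ s, t i ^ 2) ^ 2) := by
  induction s using Finset.induction_on with
  | empty => simp [sg]
  | insert a s ha ih =>
    have h2 := sg_second t s
    rw [sum_powerset_insert ha, sum_insert ha, card_insert_of_notMem ha]
    rw [sum_congr rfl (fun A hA => by rw [sg_insert_left ha (mem_powerset.1 hA)] :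
        ∀ A ∈ s.powerset, sg t (insert a s) A ^ 4 = (sg t s A - t a) ^ 4),
      sum_congr rfl (fun A _ => by rw [sg_insert_both ha] :
        ∀ A ∈ s.powerset, sg t (insert a s) (insert a A) ^ 4 = (sg t s A + t a) ^ 4),
      ← sum_add_distrib]
    have e : ∀ A ∈ s.powerset, (sg t s A - t a) ^ 4 + (sg t s A + t a) ^ 4 =
        2 * sg t s A ^ 4 + 12 * t a ^ 2 * sg t s A ^ 2 + 2 * t a ^ 4 := fun A _ => by ring
    rw [sum_congr rfl e, sum_add_distrib, sum_add_distrib, ← mul_sum, ← mul_sum, h2, sum_const,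
      card_powerset, nsmul_eq_mul]
    push_cast
    set σ := ∑ i ∈ s, t i ^ 2
    set F := ∑ A ∈ s.powerset, sg t s A ^ 4
    have hp : (0 : ℝ) < 2 ^ s.card := by positivity
    have h3 : 0 ≤ (2 : ℝ) ^ s.card * t a ^ 4 := by positivity
    have e2 : (2 : ℝ) ^ (s.card + 1) = 2 * 2 ^ s.card := by ring
    rw [e2]
    have e3 : 2 * 2 ^ s.card * (3 * (t a ^ 2 + σ) ^ 2) -
        (2 * F + 12 * t a ^ 2 * (2 ^ s.card * σ) + 2 ^ s.card * (2 * t a ^ 4)) =
        2 * (2 ^ s.card * (3 * σ ^ 2) - F) + 4 * (2 ^ s.card * t a ^ 4) := by ring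
    linarith

theorem abs_lower (x s : ℝ) (hs : 0 < s) : 2 * (x ^ 2 / s - x ^ 4 / s ^ 3) ≤ |x| := by
  have h : ∀ y : ℝ, 0 ≤ y → 2 * (y ^ 2 - y ^ 4) ≤ y := by
    intro y hy
    have h1 : 0 ≤ 1 - 2 * y + 2 * y ^ 3 := by nlinarith [sq_nonneg (y - 1/2), sq_nonneg (y - 1)]
    nlinarith
  have h1 := h (|x| / s) (by positivity)
  have e : |x| ^ 2 = x ^ 2 := sq_abs x
  have e4 : |x| ^ 4 = x ^ 4 := by
    rw [show (4 : ℕ) = 2 * 2 by norm_num, pow_mul, pow_mul, e]
  rw [div_pow, div_pow, e, e4] at h1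
  have h2 := mul_le_mul_of_nonneg_left h1 hs.le
  have e5 : s * (2 * (x ^ 2 / s ^ 2 - x ^ 4 / s ^ 4)) = 2 * (x ^ 2 / s - x ^ 4 / s ^ 3) := by
    field_simp
  have e6 : s * (|x| / s) = |x| := by field_simp
  rw [e5, e6] at h2
  exact h2

/-- Khintchine's inequality, `L₁` form -/
theorem khintchine (t : ℕ → ℝ) (s : Finset ℕ) :
    2 ^ s.card * √(∑ i ∈ s, t i ^ 2) ≤ 9 / 4 * ∑ A ∈ s.powerset, |sg t s A| := by
  rcases eq_or_lt_of_le (sum_nonneg (s := s) (fun i _ => sq_nonneg (t i))) with h0 | h0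
  · rw [← h0, Real.sqrt_zero, mul_zero]
    have : 0 ≤ ∑ A ∈ s.powerset, |sg t s A| := sum_nonneg fun _ _ => abs_nonneg _
    positivity
  set σ := ∑ i ∈ s, t i ^ 2 with hσ
  set r := √σ with hr
  have hr0 : 0 < r := Real.sqrt_pos.2 h0
  have hr2 : r ^ 2 = σ := Real.sq_sqrt h0.le
  have h1 : ∑ A ∈ s.powerset, 2 * (sg t s A ^ 2 / (3 * r) - sg t s A ^ 4 / (3 * r) ^ 3) ≤
      ∑ A ∈ s.powerset, |sg t s A| := sum_le_sum fun A _ => abs_lower _ _ (by positivity)
  rw [← mul_sum, sum_sub_distrib, ← sum_div, ← sum_div, sg_second] at h1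
  have h4 := sg_fourth t s
  have h5 : (∑ A ∈ s.powerset, sg t s A ^ 4) / (3 * r) ^ 3 ≤
      2 ^ s.card * (3 * σ ^ 2) / (3 * r) ^ 3 := div_le_div_of_nonneg_right h4 (by positivity)
  have e1 : 2 ^ s.card * σ / (3 * r) = 2 ^ s.card * r / 3 := by
    rw [← hr2]; field_simp
  have e2 : 2 ^ s.card * (3 * σ ^ 2) / (3 * r) ^ 3 = 2 ^ s.card * r / 9 := by
    rw [← hr2]; field_simp; norm_num
  rw [e1] at h1
  rw [e2] at h5
  linarith

theorem trace_ineq {G : Type*} [NormedAddCommGroup G] [NormedSpace ℝ G] {m : ℕ}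
    (T : G ≃L[ℝ] (Fin m → ℝ)) {c : ℝ}
    (hc : ‖T.toContinuousLinearMap‖ * ‖T.symm.toContinuousLinearMap‖ ≤ c)
    (s : Finset ℕ) (φ : ℕ → G →ₗ[ℝ] ℝ) (hφ : ∀ x, ∑ i ∈ s, φ i x ^ 2 ≤ ‖x‖ ^ 2)
    (z : ℕ → G) (hz : ∀ a : ℕ → ℝ, ‖∑ i ∈ s, a i • z i‖ ≤ 5 * √(∑ i ∈ s, a i ^ 2)) :
    ∑ i ∈ s, φ i (z i) ≤ 45 / 4 * c * √s.card := by
  set b : Fin m → G := fun k => T.symm (fun j => if k = j then 1 else 0) with hb
  -- expansion
  have hexp : ∀ (ψ : G →ₗ[ℝ] ℝ) (y : Fin m → ℝ), ψ (T.symm y) = ∑ k, y k * ψ (b k) := by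
    intro ψ y
    have h1 := LinearMap.pi_apply_eq_sum_univ
      (ψ.comp (T.symm.toContinuousLinearMap : (Fin m → ℝ) →ₗ[ℝ] G)) y
    have h2 : (ψ.comp (T.symm.toContinuousLinearMap : (Fin m → ℝ) →ₗ[ℝ] G)) y =
        ψ (T.symm y) := rfl
    rw [← h2, h1]
    apply sum_congr rfl
    intro k _
    rw [smul_eq_mul]
    rfl
  have hexp2 : ∀ i, φ i (z i) = ∑ k, T (z i) k * φ i (b k) := by
    intro i
    rw [← hexp (φ i) (T (z i)), ContinuousLinearEquiv.symm_apply_apply]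
  -- first factor
  have hfirst : ∀ k, √(∑ i ∈ s, T (z i) k ^ 2) ≤ 5 * ‖T.toContinuousLinearMap‖ := by
    intro k
    set r := √(∑ i ∈ s, T (z i) k ^ 2) with hr
    have hr2 : r ^ 2 = ∑ i ∈ s, T (z i) k ^ 2 := Real.sq_sqrt (sum_nonneg fun _ _ => sq_nonneg _)
    have h1 : r ^ 2 ≤ 5 * ‖T.toContinuousLinearMap‖ * r := by
      have e : ∑ i ∈ s, T (z i) k ^ 2 = T (∑ i ∈ s, T (z i) k • z i) k := by
        rw [map_sum, Finset.sum_apply]
        apply sum_congr rfl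
        intro i _
        rw [map_smul, Pi.smul_apply, smul_eq_mul, sq]
      have h2 : T (∑ i ∈ s, T (z i) k • z i) k ≤ ‖T (∑ i ∈ s, T (z i) k • z i)‖ :=
        (le_abs_self _).trans (norm_le_pi_norm (T (∑ i ∈ s, T (z i) k • z i)) k)
      have h3 := T.toContinuousLinearMap.le_opNorm (∑ i ∈ s, T (z i) k • z i)
      have h4 := hz (fun i => T (z i) k)
      have h5 := mul_le_mul_of_nonneg_left h4 (norm_nonneg T.toContinuousLinearMap)
      rw [hr2, e]
      refine h2.trans (h3.trans (h5.trans (le_of_eq ?_)))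
      ring
    rcases eq_or_lt_of_le (Real.sqrt_nonneg (∑ i ∈ s, T (z i) k ^ 2)) with h0 | h0
    · rw [hr, ← h0]
      positivity
    · rw [sq] at h1
      exact le_of_mul_le_mul_right h1 h0
  -- second factor
  have hsign : ∀ A ∈ s.powerset, ∑ k, |sg (fun i => φ i (b k)) s A| ≤
      √s.card * ‖T.symm.toContinuousLinearMap‖ := by
    intro A _
    set ψ : G →ₗ[ℝ] ℝ := ∑ i ∈ s, (if i ∈ A then (1 : ℝ) else -1) • φ i with hψ
    have hψ1 : ∀ x, ψ x = sg (fun i => φ i x) s A := by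
      intro x
      rw [hψ]
      unfold sg
      rw [LinearMap.sum_apply]
      apply sum_congr rfl
      intro i _
      by_cases h : i ∈ A <;> simp [h]
    have hψ2 : ∀ x, |ψ x| ≤ √s.card * ‖x‖ := by
      intro x
      apply abs_le_of_sq_le_sq _ (mul_nonneg (Real.sqrt_nonneg _) (norm_nonneg x))
      rw [hψ1]
      unfold sg
      have h1 := sum_mul_sq_le_sq_mul_sq s (fun i => if i ∈ A then (1 : ℝ) else -1)
        (fun i => φ i x)
      have e1 : ∑ i ∈ s, (if i ∈ A then (1 : ℝ) else -1) * φ i x =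
          ∑ i ∈ s, (if i ∈ A then φ i x else - φ i x) := by
        apply sum_congr rfl
        intro i _
        by_cases h : i ∈ A <;> simp [h]
      have e2 : ∑ i ∈ s, (if i ∈ A then (1 : ℝ) else -1) ^ 2 = s.card := by
        have e3 : ∀ i ∈ s, (if i ∈ A then (1 : ℝ) else -1) ^ 2 = 1 := by
          intro i _
          split_ifs <;> norm_num
        rw [sum_congr rfl e3]
        simp
      rw [e1, e2] at h1
      rw [mul_pow, Real.sq_sqrt (Nat.cast_nonneg _)]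
      refine h1.trans ?_
      exact mul_le_mul_of_nonneg_left (hφ x) (Nat.cast_nonneg _)
    set y : Fin m → ℝ := fun k => if 0 ≤ ψ (b k) then 1 else -1 with hy
    have hy1 : ‖y‖ ≤ 1 := by
      rw [pi_norm_le_iff_of_nonneg zero_le_one]
      intro k
      rw [hy, Real.norm_eq_abs]
      show |if 0 ≤ ψ (b k) then (1 : ℝ) else -1| ≤ 1
      split_ifs <;> norm_num
    have h1 : ∑ k, |sg (fun i => φ i (b k)) s A| = ψ (T.symm y) := by
      rw [hexp]
      apply sum_congr rfl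
      intro k _
      rw [← hψ1]
      show |ψ (b k)| = (if 0 ≤ ψ (b k) then (1 : ℝ) else -1) * ψ (b k)
      split_ifs with h
      · rw [abs_of_nonneg h, one_mul]
      · rw [abs_of_neg (not_le.1 h)]
        ring
    rw [h1]
    have h2 := hψ2 (T.symm y)
    have h3 := T.symm.toContinuousLinearMap.le_opNorm y
    have h4 : ‖T.symm y‖ ≤ ‖T.symm.toContinuousLinearMap‖ := by
      refine h3.trans ?_
      exact mul_le_of_le_one_right (norm_nonneg _) hy1
    have h5 := mul_le_mul_of_nonneg_left h4 (Real.sqrt_nonneg (s.card : ℝ))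
    exact (le_abs_self _).trans (h2.trans h5)
  have hsecond : ∑ k, √(∑ i ∈ s, φ i (b k) ^ 2) ≤
      9 / 4 * (√s.card * ‖T.symm.toContinuousLinearMap‖) := by
    have h1 : ∑ k, 2 ^ s.card * √(∑ i ∈ s, φ i (b k) ^ 2) ≤
        ∑ k : Fin m, 9 / 4 * ∑ A ∈ s.powerset, |sg (fun i => φ i (b k)) s A| :=
      sum_le_sum fun k _ => khintchine _ s
    rw [← mul_sum, ← mul_sum, sum_comm] at h1
    have h2 : ∑ A ∈ s.powerset, ∑ k, |sg (fun i => φ i (b k)) s A| ≤
        ∑ _A ∈ s.powerset, √s.card * ‖T.symm.toContinuousLinearMap‖ := sum_le_sum hsign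
    rw [sum_const, card_powerset, nsmul_eq_mul] at h2
    push_cast at h2
    have hp : (0 : ℝ) < 2 ^ s.card := by positivity
    have h3 : 2 ^ s.card * ∑ k, √(∑ i ∈ s, φ i (b k) ^ 2) ≤
        2 ^ s.card * (9 / 4 * (√s.card * ‖T.symm.toContinuousLinearMap‖)) := by
      refine h1.trans ?_
      linarith
    exact le_of_mul_le_mul_left h3 hp
  calc ∑ i ∈ s, φ i (z i) = ∑ k, ∑ i ∈ s, T (z i) k * φ i (b k) := by
        rw [sum_congr rfl fun i _ => hexp2 i, sum_comm]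
    _ ≤ ∑ k, √(∑ i ∈ s, T (z i) k ^ 2) * √(∑ i ∈ s, φ i (b k) ^ 2) :=
        sum_le_sum fun k _ => Real.sum_mul_le_sqrt_mul_sqrt _ _ _
    _ ≤ ∑ k, 5 * ‖T.toContinuousLinearMap‖ * √(∑ i ∈ s, φ i (b k) ^ 2) :=
        sum_le_sum fun k _ => mul_le_mul_of_nonneg_right (hfirst k) (Real.sqrt_nonneg _)
    _ = 5 * ‖T.toContinuousLinearMap‖ * ∑ k, √(∑ i ∈ s, φ i (b k) ^ 2) := by rw [mul_sum]
    _ ≤ 5 * ‖T.toContinuousLinearMap‖ *
        (9 / 4 * (√s.card * ‖T.symm.toContinuousLinearMap‖)) :=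
        mul_le_mul_of_nonneg_left hsecond (by positivity)
    _ = 45 / 4 * (‖T.toContinuousLinearMap‖ * ‖T.symm.toContinuousLinearMap‖) * √s.card := by
        ring
    _ ≤ 45 / 4 * c * √s.card := by
        apply mul_le_mul_of_nonneg_right _ (Real.sqrt_nonneg _)
        linarith

end Pool.Agent.Lib_helper40.Tree
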