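import Mathlib
import Pool.Agent.Lib_helper40.TreeShrink
import Pool.Agent.Lib_helper40.TreeTrace

set_option autoImplicit false

open Finset Filter Topology

namespace Pool.Agent.Lib_helper40.Tree

theorem abs_co_le (x : EE) (n : ℕ) : |co x n| ≤ ‖x‖ := by
  apply abs_le_of_sq_le_sq _ (norm_nonneg x)
  refine le_trans ?_ (S_le_norm_sq x n)
  unfold S
  exact single_le_sum (f := fun j => co x j ^ 2) (fun _ _ => sq_nonneg _) (self_mem n)

/-- one step of the construction in an infinite-dimensional subspace -/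
theorem step (W : Submodule ℝ EE) (hW : ¬ FiniteDimensional ℝ W) {δ : ℝ} (hδ0 : 0 < δ)
    (hδ : δ ≤ 1 / 64) (γ : ℕ) (hγ : (ch γ).card ≤ rt γ) :
    ∃ γ' q : ℕ, ∃ z : EE, z ∈ W ∧ ‖z‖ ≤ 1 ∧ γ < q ∧ q ≤ γ' ∧ (∀ j < γ + 1, co z j = 0) ∧
      ‖z - PE q z‖ ≤ δ ∧ ch γ' = insert γ' (ch γ) ∧ rt γ' = rt γ ∧ 1 / 64 ≤ co z γ' := by
  -- vector in `W`
  obtain ⟨w, hw0, hwz⟩ : ∃ w : W, w ≠ 0 ∧ ∀ j < γ + 1, co (w : EE) j = 0 := by
    set A : W →ₗ[ℝ] (Fin (γ + 1) → ℝ) :=
      LinearMap.pi fun j => (LinearMap.proj (j : ℕ)).comp (co.comp W.subtype) with hA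
    have hA1 : ∀ w j, A w j = co (w : EE) j := fun w j => rfl
    by_contra hcon
    push Not at hcon
    apply hW
    have hinj : Function.Injective A := by
      rw [← LinearMap.ker_eq_bot, LinearMap.ker_eq_bot']
      intro w hw
      by_contra hne
      obtain ⟨j, hj1, hj2⟩ := hcon w hne
      apply hj2
      have := hA1 w ⟨j, hj1⟩
      rw [← this, hw]
      rfl
    exact Module.Finite.of_injective A hinj
  have hwn : 0 < ‖(w : EE)‖ := norm_pos_iff.2 fun h => hw0 (Subtype.ext h)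
  set z : EE := (1 / ‖(w : EE)‖) • (w : EE) with hz
  have hzn : ‖z‖ = 1 := by
    rw [hz, norm_smul, Real.norm_eq_abs, abs_of_pos (by positivity), one_div,
      inv_mul_cancel₀ hwn.ne']
  have hzW : z ∈ W := W.smul_mem _ w.2
  have hzz : ∀ j < γ + 1, co z j = 0 := by
    intro j hj
    rw [hz, map_smul]
    simp only [Pi.smul_apply, smul_eq_mul]
    rw [hwz j hj, mul_zero]
  obtain ⟨η, hη⟩ : ∃ η, 1 / 2 < √(S η (co z)) := by
    by_contra hcon
    push Not at hcon
    have := (norm_le_iff' z (by norm_num : (0 : ℝ) ≤ 1 / 2)).2 hcon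
    rw [hzn] at this
    norm_num at this
  obtain ⟨q, hq1, hq2⟩ : ∃ q, ‖z - PE q z‖ ≤ δ ∧ max η (γ + 1) < q := by
    have h1 : Tendsto (fun n => ‖z - PE n z‖) atTop (𝓝 0) := by
      have := ((PE_tendsto z).const_sub z).norm
      simpa using this
    have h2 := (h1.eventually (gt_mem_nhds hδ0)).and (eventually_gt_atTop (max η (γ + 1)))
    obtain ⟨q, h3, h4⟩ := h2.exists
    exact ⟨q, h3.le, h4⟩
  have hηq : η < q := lt_of_le_of_lt (le_max_left _ _) hq2
  have hγq : γ + 1 < q := lt_of_le_of_lt (le_max_right _ _) hq2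
  obtain ⟨n, hn1, hn2, hn3, hn4, hn5, hn6⟩ := exists_child hγ (Nat.lt_succ_self γ) η q (co z)
  have hval : P q (co z) n = 1 / 8 * ff n (co z) := by
    rw [P_child hn1 hn2 (by rw [hn4]; exact hγq)]
    congr 1
    apply ff_congr
    intro j hj
    rw [hn6] at hj
    simp only [Pi.sub_apply]
    rw [P_lt (lt_of_le_of_lt hj hηq), hn4, P_vanish hzz]
    simp
  have hlow : 1 / 32 ≤ P q (co z) n := by
    rw [hval]
    linarith
  have hdiff : |co z n - P q (co z) n| ≤ δ := by
    have h1 := abs_co_le (z - PE q z) n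
    rw [map_sub, co_PE] at h1
    exact h1.trans hq1
  refine ⟨n, q, z, hzW, hzn.le, by omega, hn1, hzz, hq1, ?_, ?_, ?_⟩
  · rw [ch_child hn2, hn3]
  · rw [rt_child hn2, hn3]
  · have := (abs_le.1 hdiff).1
    linarith

/-- no subspace is an `L_∞` space -/
theorem no_linf (W : Submodule ℝ EE) (hW : ¬ FiniteDimensional ℝ W) (c : ℝ)
    (h : ∀ F : Submodule ℝ EE, F ≤ W → FiniteDimensional ℝ F →
            ∃ G : Submodule ℝ EE, F ≤ G ∧ G ≤ W ∧ FiniteDimensional ℝ G ∧
              ∃ T : G ≃L[ℝ] (Fin (Module.finrank ℝ G) → ℝ),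
                ‖T.toContinuousLinearMap‖ * ‖T.symm.toContinuousLinearMap‖ ≤ c) : False := by
  -- choose `N`
  obtain ⟨M, hM⟩ := exists_nat_gt (720 * |c|)
  set N : ℕ := (M + 1) ^ 2 with hN
  have hNpos : 0 < (N : ℝ) := by
    rw [hN]; positivity
  have hN1 : (1 : ℝ) ≤ N := by
    have : 1 ≤ N := Nat.one_le_iff_ne_zero.2 (by positivity)
    exact_mod_cast this
  set δ : ℝ := 1 / (64 * N) with hδ
  have hδ0 : 0 < δ := by positivity
  have hδ64 : δ ≤ 1 / 64 := by
    rw [hδ]
    apply one_div_le_one_div_of_le (by norm_num)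
    linarith
  have hstep : ∀ γ : ℕ, ∃ γ' q : ℕ, ∃ z : EE, (ch γ).card ≤ rt γ → z ∈ W ∧ ‖z‖ ≤ 1 ∧ γ < q ∧
      q ≤ γ' ∧ (∀ j < γ + 1, co z j = 0) ∧
      ‖z - PE q z‖ ≤ δ ∧ ch γ' = insert γ' (ch γ) ∧ rt γ' = rt γ ∧ 1 / 64 ≤ co z γ' := by
    intro γ
    by_cases hγ : (ch γ).card ≤ rt γ
    · obtain ⟨γ', q, z, hz⟩ := step W hW hδ0 hδ64 γ hγ
      exact ⟨γ', q, z, fun _ => hz⟩
    · exact ⟨0, 0, 0, fun h => absurd h hγ⟩
  choose γ' q z hprop using hstep
  obtain ⟨γ0, hγ0, hroot⟩ := exists_root (N + 1)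
  set Γ : ℕ → ℕ := fun i => Nat.rec γ0 (fun _ r => γ' r) i with hΓ
  have hΓ0 : Γ 0 = γ0 := rfl
  have hΓ1 : ∀ i, Γ (i + 1) = γ' (Γ i) := fun i => rfl
  have hrt0 : rt γ0 = γ0 := rt_root hroot
  have hcard : ∀ i, i ≤ N → (ch (Γ i)).card ≤ i + 1 ∧ rt (Γ i) = γ0 := by
    intro i
    induction i with
    | zero =>
      intro _
      rw [hΓ0, ch_root hroot, card_singleton]
      exact ⟨le_rfl, hrt0⟩
    | succ i ih =>
      intro hi
      obtain ⟨h1, h2⟩ := ih (by omega)
      have h3 := hprop (Γ i) (by rw [h2]; omega)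
      obtain ⟨-, -, -, -, -, -, h4, h5, -⟩ := h3
      rw [hΓ1, h4, h5, h2]
      refine ⟨?_, rfl⟩
      have := card_insert_le (γ' (Γ i)) (ch (Γ i))
      omega
  have hgood : ∀ i, i < N → z (Γ i) ∈ W ∧ ‖z (Γ i)‖ ≤ 1 ∧ Γ i < q (Γ i) ∧
      q (Γ i) ≤ Γ (i + 1) ∧ (∀ j < Γ i + 1, co (z (Γ i)) j = 0) ∧
      ‖z (Γ i) - PE (q (Γ i)) (z (Γ i))‖ ≤ δ ∧ ch (Γ (i + 1)) = insert (Γ (i + 1)) (ch (Γ i)) ∧
      rt (Γ (i + 1)) = rt (Γ i) ∧ 1 / 64 ≤ co (z (Γ i)) (Γ (i + 1)) := by
    intro i hi
    obtain ⟨h1, h2⟩ := hcard i hi.le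
    exact hprop (Γ i) (by rw [h2]; omega)
  have hmono : ∀ i j, i < j → j ≤ N → Γ i < Γ j := by
    intro i j hij hj
    induction j, hij using Nat.le_induction with
    | base =>
      have := hgood i (by omega)
      show Γ i < Γ (i + 1)
      omega
    | succ j hij ih =>
      have h1 := ih (by omega)
      have h2 := hgood j (by omega)
      omega
  have hmem : ∀ j, j ≤ N → ∀ i, i ≤ j → Γ i ∈ ch (Γ j) := by
    intro j
    induction j with
    | zero =>
      intro _ i hi
      have : i = 0 := by omega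
      rw [this]
      exact self_mem _
    | succ j ih =>
      intro hj i hi
      obtain ⟨-, -, -, -, -, -, h4, -, -⟩ := hgood j (by omega)
      rw [h4]
      rcases Nat.lt_or_ge i (j + 1) with h | h
      · exact mem_insert_of_mem (ih (by omega) i (by omega))
      · have : i = j + 1 := by omega
        rw [this]
        exact mem_insert_self _ _
  -- vectors
  set ζ : ℕ → EE := fun i => z (Γ i) with hζ
  have hupper : ∀ a : ℕ → ℝ, ‖∑ i ∈ range N, a i • ζ i‖ ≤ 5 * √(∑ i ∈ range N, a i ^ 2) := by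
    intro a
    set r := √(∑ i ∈ range N, a i ^ 2) with hr
    have hr0 : 0 ≤ r := Real.sqrt_nonneg _
    have har : ∀ i ∈ range N, |a i| ≤ r := by
      intro i hi
      apply abs_le_of_sq_le_sq _ hr0
      rw [Real.sq_sqrt (sum_nonneg fun _ _ => sq_nonneg _)]
      exact single_le_sum (f := fun i => a i ^ 2) (fun _ _ => sq_nonneg _) hi
    have hPEs : ∀ (K : ℕ) (t : ℝ) (x : EE), PE K (t • x) = t • PE K x := by
      intro K t x
      unfold PE
      rw [map_smul, map_smul]
    have h1 := block_norm (range N) (fun i => a i • PE (q (Γ i)) (ζ i)) (fun i => Γ i + 1)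
      (fun i => q (Γ i)) (fun i => 2 * |a i|)
      (fun i _ => by
        rw [hPEs, PE_PE_le le_rfl])
      (fun i hi j hj => by
        obtain ⟨-, -, h3, h4, h5, -⟩ := hgood i (mem_range.1 hi)
        rw [map_smul, co_PE]
        simp only [Pi.smul_apply, smul_eq_mul]
        rw [P_lt (by omega), h5 j hj, mul_zero])
      (fun i hi i' hi' hne => by
        rcases lt_or_gt_of_ne hne with h | h
        · left
          obtain ⟨-, -, h3, h4, -⟩ := hgood i (mem_range.1 hi)
          rcases Nat.lt_or_ge (i + 1) i' with h6 | h6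
          · have := hmono (i + 1) i' h6 (mem_range.1 hi').le
            show q (Γ i) ≤ Γ i' + 1
            omega
          · have : i + 1 = i' := by omega
            rw [this] at h4
            show q (Γ i) ≤ Γ i' + 1
            omega
        · right
          obtain ⟨-, -, h3, h4, -⟩ := hgood i' (mem_range.1 hi')
          rcases Nat.lt_or_ge (i' + 1) i with h6 | h6
          · have := hmono (i' + 1) i h6 (mem_range.1 hi).le
            show q (Γ i') ≤ Γ i + 1
            omega
          · have : i' + 1 = i := by omega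
            rw [this] at h4
            show q (Γ i') ≤ Γ i + 1
            omega)
      (fun i hi => by
        obtain ⟨-, h2, -⟩ := hgood i (mem_range.1 hi)
        rw [norm_smul, Real.norm_eq_abs]
        have h3 := norm_PE_le (q (Γ i)) (ζ i)
        have h4 : ‖PE (q (Γ i)) (ζ i)‖ ≤ 2 := by
          have : ‖ζ i‖ ≤ 1 := h2
          linarith
        have := mul_le_mul_of_nonneg_left h4 (abs_nonneg (a i))
        linarith)
    have e1 : ∑ i ∈ range N, (2 * |a i|) ^ 2 = 2 ^ 2 * ∑ i ∈ range N, a i ^ 2 := by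
      rw [mul_sum]
      apply sum_congr rfl
      intro i _
      rw [mul_pow, sq_abs]
    rw [e1, Real.sqrt_mul (by norm_num), Real.sqrt_sq (by norm_num)] at h1
    have e2 : ∑ i ∈ range N, a i • ζ i = ∑ i ∈ range N, a i • PE (q (Γ i)) (ζ i) +
        ∑ i ∈ range N, a i • (ζ i - PE (q (Γ i)) (ζ i)) := by
      rw [← sum_add_distrib]
      apply sum_congr rfl
      intro i _
      rw [smul_sub]
      abel
    have h2 : ‖∑ i ∈ range N, a i • (ζ i - PE (q (Γ i)) (ζ i))‖ ≤ r := by
      calc ‖∑ i ∈ range N, a i • (ζ i - PE (q (Γ i)) (ζ i))‖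
          ≤ ∑ i ∈ range N, ‖a i • (ζ i - PE (q (Γ i)) (ζ i))‖ := norm_sum_le _ _
        _ ≤ ∑ _i ∈ range N, r * δ := by
            apply sum_le_sum
            intro i hi
            obtain ⟨-, -, -, -, -, h6, -⟩ := hgood i (mem_range.1 hi)
            rw [norm_smul, Real.norm_eq_abs]
            exact mul_le_mul (har i hi) h6 (norm_nonneg _) hr0
        _ = N * (r * δ) := by rw [sum_const, card_range, nsmul_eq_mul]
        _ ≤ r := by
            have : (N : ℝ) * (r * δ) = r / 64 := by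
              rw [hδ]
              field_simp
            rw [this]
            linarith
    rw [e2]
    refine (norm_add_le _ _).trans ?_
    linarith
  -- the finite-dimensional subspace
  set F : Submodule ℝ EE := Submodule.span ℝ (Set.range fun i : Fin N => ζ i) with hF
  have hFW : F ≤ W := by
    rw [hF, Submodule.span_le]
    rintro _ ⟨i, rfl⟩
    exact (hgood i i.2).1
  have hFfd : FiniteDimensional ℝ F := FiniteDimensional.span_of_finite ℝ (Set.finite_range _)
  obtain ⟨G, hFG, hGW, hGfd, T, hT⟩ := h F hFW hFfd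
  have hζG : ∀ i, i < N → ζ i ∈ G := fun i hi => hFG (Submodule.subset_span ⟨⟨i, hi⟩, rfl⟩)
  set ξ : ℕ → G := fun i => if h : i < N then ⟨ζ i, hζG i h⟩ else 0 with hξ
  have hξ1 : ∀ i, i < N → (ξ i : EE) = ζ i := by
    intro i hi
    simp [hξ, hi]
  have htr := trace_ineq T hT (range N)
    (fun i => (LinearMap.proj (Γ (i + 1))).comp (co.comp G.subtype)) (fun x => by
      have e : ∀ i, ((LinearMap.proj (Γ (i + 1))).comp (co.comp G.subtype) : G →ₗ[ℝ] ℝ) x =
        co (x : EE) (Γ (i + 1)) := fun i => rfl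
      have h1 : ∑ i ∈ range N, co (x : EE) (Γ (i + 1)) ^ 2 ≤ S (Γ N) (co (x : EE)) := by
        unfold S
        have hinj : Set.InjOn (fun i => Γ (i + 1)) (range N : Set ℕ) := by
          intro i hi j hj hij
          have hi' := mem_range.1 (mem_coe.1 hi)
          have hj' := mem_range.1 (mem_coe.1 hj)
          by_contra hne
          rcases lt_or_gt_of_ne hne with h6 | h6
          · have := hmono (i + 1) (j + 1) (by omega) (by omega)
            have h7 : Γ (i + 1) = Γ (j + 1) := hij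
            omega
          · have := hmono (j + 1) (i + 1) (by omega) (by omega)
            have h7 : Γ (i + 1) = Γ (j + 1) := hij
            omega
        rw [← sum_image (f := fun n => co (x : EE) n ^ 2) hinj]
        apply sum_le_sum_of_subset_of_nonneg
        · intro n hn
          obtain ⟨i, hi, rfl⟩ := mem_image.1 hn
          exact hmem N le_rfl (i + 1) (mem_range.1 hi)
        · intro _ _ _
          exact sq_nonneg _
      have h2 := S_le_norm_sq (x : EE) (Γ N)
      have h3 : ‖(x : EE)‖ = ‖x‖ := rfl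
      rw [h3] at h2
      exact h1.trans h2) ξ (fun a => by
      have h1 := hupper a
      have e : ‖∑ i ∈ range N, a i • ξ i‖ = ‖∑ i ∈ range N, a i • ζ i‖ := by
        have e1 : ((∑ i ∈ range N, a i • ξ i : G) : EE) = ∑ i ∈ range N, a i • ζ i := by
          rw [Submodule.coe_sum]
          apply sum_congr rfl
          intro i hi
          rw [Submodule.coe_smul, hξ1 i (mem_range.1 hi)]
        rw [← e1]
        rfl
      rw [e]
      exact h1)
  have hlow : (N : ℝ) * (1 / 64) ≤ ∑ i ∈ range N,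
      ((LinearMap.proj (Γ (i + 1))).comp (co.comp G.subtype) : G →ₗ[ℝ] ℝ) (ξ i) := by
    calc (N : ℝ) * (1 / 64) = ∑ _i ∈ range N, (1 / 64 : ℝ) := by
          rw [sum_const, card_range, nsmul_eq_mul]
      _ ≤ _ := by
        apply sum_le_sum
        intro i hi
        obtain ⟨-, -, -, -, -, -, -, -, h9⟩ := hgood i (mem_range.1 hi)
        have e : ((LinearMap.proj (Γ (i + 1))).comp (co.comp G.subtype) : G →ₗ[ℝ] ℝ) (ξ i) =
          co (ξ i : EE) (Γ (i + 1)) := rfl
        rw [e, hξ1 i (mem_range.1 hi)]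
        exact h9
  have h1 := hlow.trans htr
  rw [card_range] at h1
  have e1 : √(N : ℝ) = M + 1 := by
    rw [hN]
    push_cast
    exact Real.sqrt_sq (by positivity)
  have e2 : (N : ℝ) = (M + 1) * (M + 1) := by
    rw [hN]; push_cast; ring
  rw [e1, e2] at h1
  have h2 : ((M : ℝ) + 1) * (M + 1) ≤ (720 * c) * (M + 1) := by nlinarith
  have h3 := le_of_mul_le_mul_right h2 (by positivity)
  have h4 := le_abs_self c
  linarith

end Pool.Agent.Lib_helper40.Tree
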