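import Mathlib
import Pool.Agent.Lib_helper40.TreeShrink

set_option autoImplicit false

open Finset Filter Topology

namespace Pool.Agent.Lib_helper40.Tree

theorem core {Z : Type} [NormedAddCommGroup Z] [NormedSpace ℝ Z]
    (hrefl : Function.Surjective (NormedSpace.inclusionInDoubleDual ℝ Z))
    (T : EE →L[ℝ] Z) (hT : Function.Surjective T)
    (L : ℕ → ℕ) (hL : StrictMono L) (v : ℕ → ℕ → ℝ)
    (hv1 : ∀ i j, j < L i → v i j = 0)
    (g : ℕ → StrongDual ℝ Z) (hg : ∀ i, ‖g i‖ ≤ 1)
    (hvan : ∀ i y, g i (T (pe (L i) y)) = 0)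
    {c B : ℝ} (hc : 0 < c) (hB0 : 0 ≤ B)
    (hlow : ∀ i, c ≤ |g i (T (pe (L (i + 1)) (v i)))|)
    (hδ : ∀ (i : ℕ) x, |g i (T x) - g i (T (PE (L (i + 1)) x))| ≤ ‖x‖ / (i + 1))
    (hB : ∀ ε : ℕ → ℝ, (∀ i, ε i = 1 ∨ ε i = -1) → ∀ k m,
      S m (∑ i ∈ range k, ε i • v i) ≤ B ^ 2) :
    False := by
  -- signs
  have hsign : ∀ (Y : ℕ → ℝ) (i : ℕ), ∃ ε : ℝ, (ε = 1 ∨ ε = -1) ∧
      c ≤ |g i (T (pe (L (i + 1)) (Y + ε • v i)))| := by
    intro Y i
    have e : ∀ ε : ℝ, g i (T (pe (L (i + 1)) (Y + ε • v i))) =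
        g i (T (pe (L (i + 1)) Y)) + ε * g i (T (pe (L (i + 1)) (v i))) := by
      intro ε
      rw [map_add, map_smul, map_add, map_smul, map_add, map_smul, smul_eq_mul]
    have h1 := hlow i
    set a := g i (T (pe (L (i + 1)) Y))
    set b := g i (T (pe (L (i + 1)) (v i)))
    by_cases h : c ≤ |a + b|
    · exact ⟨1, Or.inl rfl, by rw [e, one_mul]; exact h⟩
    · refine ⟨-1, Or.inr rfl, ?_⟩
      rw [e]
      have h2 : |b + b| ≤ |a + b| + |a + -1 * b| := by
        have := abs_sub (a + b) (a + -1 * b)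
        have e2 : (a + b) - (a + -1 * b) = b + b := by ring
        rwa [e2] at this
      have h3 : |b + b| = 2 * |b| := by
        rw [← two_mul, abs_mul, abs_two]
      linarith [not_le.1 h]
  choose e he1 he2 using hsign
  set Y : ℕ → (ℕ → ℝ) := fun k => Nat.rec 0 (fun i Y => Y + e Y i • v i) k with hY
  have hY0 : Y 0 = 0 := rfl
  have hY1 : ∀ i, Y (i + 1) = Y i + e (Y i) i • v i := fun i => rfl
  have hYsum : ∀ k, Y k = ∑ i ∈ range k, (fun i => e (Y i) i) i • v i := by
    intro k
    induction k with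
    | zero => rw [hY0, range_zero, sum_empty]
    | succ k ih => rw [sum_range_succ, ← ih, hY1]
  have hYB : ∀ k m, S m (Y k) ≤ B ^ 2 := by
    intro k m
    rw [hYsum]
    exact hB _ (fun i => he1 _ _) k m
  have hmonoY : ∀ a b j, a ≤ b → j < L a → Y b j = Y a j := by
    intro a b j hab hj
    induction b, hab using Nat.le_induction with
    | base => rfl
    | succ b hab ih =>
      rw [hY1]
      have : v b j = 0 := hv1 b j (lt_of_lt_of_le hj (hL.monotone hab))
      simp [this, ih]
  set y : ℕ → ℝ := fun j => Y (j + 1) j with hy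
  have hyY : ∀ k j, j < L k → y j = Y k j := by
    intro k j hj
    have h1 : j < L (j + 1) := lt_of_lt_of_le (Nat.lt_succ_self j) (hL.le_apply)
    show Y (j + 1) j = Y k j
    rcases le_total k (j + 1) with h | h
    · exact hmonoY k (j + 1) j h hj
    · exact (hmonoY (j + 1) k j h h1).symm
  have hyS : ∀ m, S m y ≤ B ^ 2 := by
    intro m
    have : S m y = S m (Y (m + 1)) := S_congr fun j hj => hyY (m + 1) j
      (lt_of_lt_of_le (Nat.lt_succ_of_le hj) hL.le_apply)
    rw [this]
    exact hYB (m + 1) m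
  have hyn : ∀ n, ‖pe n y‖ ≤ 2 * B := fun n => norm_pe_le hB0 fun i _ => hyS i
  -- convergence
  have hconv : ∀ f : StrongDual ℝ Z, ∃ l, Tendsto (fun n => f (T (pe n y))) atTop (𝓝 l) := by
    intro f
    apply cauchySeq_tendsto_of_complete
    rw [Metric.cauchySeq_iff']
    intro ε hε
    obtain ⟨n0, hn0⟩ := shrink (f.comp T) (ε := ε / (2 * (2 * B + 1))) (by positivity)
    refine ⟨n0, fun n hn => ?_⟩
    have h1 := hn0 n0 le_rfl (pe n y)
    rw [PE_pe_ge hn] at h1
    rw [Real.dist_eq]
    have h2 : ε / (2 * (2 * B + 1)) * ‖pe n y‖ ≤ ε / (2 * (2 * B + 1)) * (2 * B) :=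
      mul_le_mul_of_nonneg_left (hyn n) (by positivity)
    have h3 : ε / (2 * (2 * B + 1)) * (2 * B) < ε := by
      rw [div_mul_eq_mul_div, div_lt_iff₀ (by positivity)]
      nlinarith
    have h4 : (f.comp T) (pe n y) - (f.comp T) (pe n0 y) = f (T (pe n y)) - f (T (pe n0 y)) := rfl
    rw [h4] at h1
    linarith
  choose l hl using hconv
  set Φ : StrongDual ℝ Z →L[ℝ] ℝ := continuousLinearMapOfTendsto
    (fun n => NormedSpace.inclusionInDoubleDual ℝ Z (T (pe n y))) (f := l) (by
      rw [tendsto_pi_nhds]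
      intro f
      exact hl f) with hΦ
  have hΦl : ∀ f, Φ f = l f := fun f => rfl
  obtain ⟨z, hz⟩ := hrefl Φ
  obtain ⟨x, hx⟩ := hT z
  have hzl : ∀ f : StrongDual ℝ Z, f z = l f := by
    intro f
    rw [← hΦl f, ← hz]
    rfl
  -- inequality
  have hineq : ∀ i : ℕ, c ≤ ‖T‖ * ‖x - PE (L i) x‖ + 2 * B / (i + 1) := by
    intro i
    have h1 : |g i z - g i (T (pe (L (i + 1)) y))| ≤ 2 * B / (i + 1) := by
      have h2 : Tendsto (fun n => |g i (T (pe n y)) - g i (T (pe (L (i + 1)) y))|) atTop
          (𝓝 |g i z - g i (T (pe (L (i + 1)) y))|) := by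
        rw [hzl]
        exact ((hl (g i)).sub_const _).abs
      refine le_of_tendsto h2 ?_
      filter_upwards [eventually_ge_atTop (L (i + 1))] with n hn
      have h3 := hδ i (pe n y)
      rw [PE_pe_ge hn] at h3
      refine h3.trans ?_
      exact div_le_div_of_nonneg_right (hyn n) (by positivity)
    have h2 : c ≤ |g i (T (pe (L (i + 1)) y))| := by
      rw [pe_congr (y := Y (i + 1)) (fun j hj => hyY (i + 1) j hj), hY1]
      exact he2 _ _
    have h3 : |g i z| ≤ ‖T‖ * ‖x - PE (L i) x‖ := by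
      have e1 : g i z = g i (T (x - PE (L i) x)) := by
        rw [map_sub, map_sub, hx]
        have : g i (T (PE (L i) x)) = 0 := hvan i _
        rw [this, sub_zero]
      rw [e1]
      have h4 := (g i).le_opNorm (T (x - PE (L i) x))
      have h5 := T.le_opNorm (x - PE (L i) x)
      rw [Real.norm_eq_abs] at h4
      have h6 := mul_le_mul_of_nonneg_right (hg i) (norm_nonneg (T (x - PE (L i) x)))
      linarith
    have h4 := abs_sub_abs_le_abs_sub (g i (T (pe (L (i + 1)) y))) (g i z)
    rw [abs_sub_comm] at h4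
    linarith
  have hlim : Tendsto (fun i : ℕ => ‖T‖ * ‖x - PE (L i) x‖ + 2 * B / ((i : ℝ) + 1)) atTop
      (𝓝 0) := by
    have h1 : Tendsto (fun i : ℕ => PE (L i) x) atTop (𝓝 x) :=
      (PE_tendsto x).comp hL.tendsto_atTop
    have h2 : Tendsto (fun i : ℕ => ‖T‖ * ‖x - PE (L i) x‖) atTop (𝓝 0) := by
      have h3 := ((h1.const_sub x).norm).const_mul ‖T‖
      simpa using h3
    have h3 : Tendsto (fun i : ℕ => 2 * B / ((i : ℝ) + 1)) atTop (𝓝 0) := by
      have := (tendsto_one_div_add_atTop_nhds_zero_nat (𝕜 := ℝ)).const_mul (2 * B)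
      simpa only [mul_one_div, mul_zero] using this
    simpa using h2.add h3
  have := ge_of_tendsto' hlim hineq
  linarith

theorem pick {Z : Type} [NormedAddCommGroup Z] [NormedSpace ℝ Z] [CompleteSpace Z]
    (hZ : ¬ FiniteDimensional ℝ Z) (T : EE →L[ℝ] Z) (hT : Function.Surjective T) :
    ∃ c : ℝ, 0 < c ∧ ∀ n : ℕ, ∃ q, n < q ∧ ∃ g : StrongDual ℝ Z, ‖g‖ ≤ 1 ∧
      (∀ y, g (T (pe n y)) = 0) ∧ ∃ u : ℕ → ℝ, (∀ j < n, u j = 0) ∧ (∀ j, q ≤ j → u j = 0) ∧
      (∀ m, S m u ≤ 9) ∧ c ≤ g (T (pe q u)) ∧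
      ∀ x, |g (T x) - g (T (PE q x))| ≤ ‖x‖ / (n + 1) := by
  obtain ⟨C, hC0, hC⟩ := T.exists_preimage_norm_le hT
  refine ⟨1 / (4 * C), by positivity, fun n => ?_⟩
  -- the finite-dimensional subspace
  set A : (Fin n → ℝ) →ₗ[ℝ] Z := (T : EE →ₗ[ℝ] Z).comp ((pe n).comp (ez n)) with hA
  have hAy : ∀ y, T (pe n y) ∈ LinearMap.range A := by
    intro y
    rw [← pe_ez]
    exact ⟨fun i => y i, rfl⟩
  have : FiniteDimensional ℝ (LinearMap.range A) := inferInstance
  have hclosed : IsClosed ((LinearMap.range A : Submodule ℝ Z) : Set Z) :=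
    Submodule.closed_of_finiteDimensional _
  obtain ⟨z0, hz0⟩ : ∃ z0, z0 ∉ LinearMap.range A := by
    by_contra h
    push Not at h
    apply hZ
    exact Module.Finite.of_surjective A fun z => h z
  obtain ⟨f, s, hf1, hf2⟩ := geometric_hahn_banach_closed_point
    (LinearMap.range A).convex hclosed hz0
  have hs0 : 0 < s := by
    have := hf1 0 (Submodule.zero_mem _)
    rwa [map_zero] at this
  have hfvan : ∀ a ∈ LinearMap.range A, f a = 0 := by
    intro a ha
    by_contra hne
    have h1 := hf1 ((s / f a) • a) (Submodule.smul_mem _ _ ha)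
    rw [map_smul, smul_eq_mul, div_mul_cancel₀ _ hne] at h1
    exact lt_irrefl _ h1
  have hf0 : f ≠ 0 := by
    intro h
    rw [h] at hf2
    simp at hf2
    linarith
  have hfn : 0 < ‖f‖ := norm_pos_iff.2 hf0
  -- normalised functional
  obtain ⟨z, hz1, hz2⟩ := f.exists_lt_apply_of_lt_opNorm (show ‖f‖ / 2 < ‖f‖ by linarith)
  obtain ⟨σ, hσ1, hσ2⟩ : ∃ σ : ℝ, |σ| = 1 ∧ σ * f z = ‖f z‖ := by
    rcases le_total 0 (f z) with h | h
    · exact ⟨1, by simp, by rw [one_mul, Real.norm_eq_abs, abs_of_nonneg h]⟩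
    · exact ⟨-1, by simp, by rw [Real.norm_eq_abs, abs_of_nonpos h]; ring⟩
  set g : StrongDual ℝ Z := (σ / ‖f‖) • f with hg
  have hgn : ‖g‖ ≤ 1 := by
    rw [hg, norm_smul, Real.norm_eq_abs, abs_div, hσ1, abs_norm, div_mul_eq_mul_div, one_mul,
      div_self hfn.ne']
  have hgz : 1 / 2 ≤ g z := by
    have : g z = ‖f z‖ / ‖f‖ := by
      show (σ / ‖f‖) * f z = ‖f z‖ / ‖f‖
      rw [div_mul_eq_mul_div, hσ2]
    rw [this, le_div_iff₀ hfn]
    linarith
  have hgvan : ∀ y, g (T (pe n y)) = 0 := by
    intro y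
    show (σ / ‖f‖) * f (T (pe n y)) = 0
    rw [hfvan _ (hAy y), mul_zero]
  obtain ⟨x0, hx0, hx0n⟩ := hC z
  have hx0n' : ‖x0‖ ≤ C := by
    have := mul_le_mul_of_nonneg_left hz1.le hC0.le
    linarith
  set x1 : EE := (1 / C) • x0 with hx1
  have hx1n : ‖x1‖ ≤ 1 := by
    rw [hx1, norm_smul, Real.norm_eq_abs, abs_of_pos (by positivity), div_mul_eq_mul_div, one_mul,
      div_le_one hC0]
    exact hx0n'
  have hgx1 : 1 / (2 * C) ≤ g (T x1) := by
    rw [hx1, map_smul, map_smul, hx0, smul_eq_mul, div_mul_eq_mul_div, one_mul,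
      div_le_div_iff₀ (by positivity) hC0]
    nlinarith
  set w : EE := x1 - PE n x1 with hw
  have hwn : ‖w‖ ≤ 3 := by
    have h1 := norm_sub_le x1 (PE n x1)
    have h2 := norm_PE_le n x1
    linarith
  have hgw : 1 / (2 * C) ≤ g (T w) := by
    have : g (T w) = g (T x1) := by
      rw [hw, map_sub, map_sub]
      have : g (T (PE n x1)) = 0 := hgvan _
      rw [this, sub_zero]
    rw [this]
    exact hgx1
  have hwco : ∀ j < n, co w j = 0 := by
    intro j hj
    rw [hw, map_sub, co_PE]
    simp only [Pi.sub_apply]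
    rw [P_lt hj, sub_self]
  obtain ⟨q0, hq0⟩ := shrink (g.comp T) (ε := min (1 / (12 * C)) (1 / ((n : ℝ) + 1)))
    (by positivity)
  set q := max q0 (n + 1) with hq
  have hqq := hq0 q (le_max_left _ _)
  set u : ℕ → ℝ := fun j => if j < q then co w j else 0 with hu
  have hpe : pe q u = PE q w := by
    show pe q u = pe q (co w)
    apply pe_congr
    intro j hj
    simp [hu, hj]
  refine ⟨q, by omega, g, hgn, hgvan, u, ?_, ?_, ?_, ?_, ?_⟩
  · intro j hj
    simp [hu, hwco j hj]
  · intro j hj
    simp [hu, not_lt.2 hj]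
  · intro m
    have h1 : S m u ≤ S m (co w) := by
      unfold S
      apply sum_le_sum
      intro j _
      by_cases h : j < q
      · simp [hu, h]
      · simp [hu, h, sq_nonneg]
    have h2 := S_le_norm_sq w m
    have h3 : ‖w‖ ^ 2 ≤ 9 := by nlinarith [norm_nonneg w]
    linarith
  · rw [hpe]
    have h1 := hqq w
    have h2 : min (1 / (12 * C)) (1 / ((n : ℝ) + 1)) * ‖w‖ ≤ 1 / (12 * C) * 3 :=
      mul_le_mul (min_le_left _ _) hwn (norm_nonneg _) (by positivity)
    have h3 := (abs_le.1 (h1.trans h2)).2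
    have h4 : (g.comp T) w - (g.comp T) (PE q w) = g (T w) - g (T (PE q w)) := rfl
    rw [h4] at h3
    have h5 : 1 / (12 * C) * 3 = 1 / (4 * C) := by field_simp; norm_num
    have h6 : 1 / (2 * C) = 1 / (4 * C) + 1 / (4 * C) := by field_simp; norm_num
    linarith
  · intro x
    refine (hqq x).trans ?_
    have h1 := mul_le_mul_of_nonneg_right (min_le_right (1 / (12 * C)) (1 / ((n : ℝ) + 1)))
      (norm_nonneg x)
    refine h1.trans (le_of_eq ?_)
    rw [div_mul_eq_mul_div, one_mul]

/-- a sum with at most one nonzero term -/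
theorem sum_le_of_unique {s : Finset ℕ} {a : ℕ → ℝ} {b : ℝ} (hb : 0 ≤ b)
    (h1 : ∀ i ∈ s, a i ≤ b) (h2 : ∀ i ∈ s, ∀ i' ∈ s, i < i' → a i = 0 ∨ a i' = 0) :
    ∑ i ∈ s, a i ≤ b := by
  by_cases h : ∃ i ∈ s, a i ≠ 0
  · obtain ⟨i, hi, hne⟩ := h
    rw [sum_eq_single i]
    · exact h1 i hi
    · intro i' hi' hne'
      rcases lt_or_gt_of_ne hne' with h | h
      · exact (h2 i' hi' i hi h).resolve_right hne
      · exact (h2 i hi i' hi' h).resolve_left hne
    · intro h; exact absurd hi h
  · push Not at h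
    rw [sum_eq_zero h]
    exact hb

/-- squares of signed sums with disjoint supports -/
theorem sq_signed_sum {v : ℕ → ℕ → ℝ} {ε : ℕ → ℝ} (hε : ∀ i, ε i = 1 ∨ ε i = -1)
    {j : ℕ} (hdis : ∀ i i', i < i' → v i j = 0 ∨ v i' j = 0) (k : ℕ) :
    ((∑ i ∈ range k, ε i • v i) j) ^ 2 = ∑ i ∈ range k, v i j ^ 2 := by
  induction k with
  | zero => simp
  | succ k ih =>
    rw [sum_range_succ, sum_range_succ, ← ih]
    simp only [Pi.add_apply, Pi.smul_apply, smul_eq_mul]
    by_cases h : v k j = 0
    · rw [h]; ring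
    · have h0 : (∑ i ∈ range k, ε i • v i) j = 0 := by
        rw [Finset.sum_apply]
        apply sum_eq_zero
        intro i hi
        have := (hdis i k (mem_range.1 hi)).resolve_right h
        simp [this]
      rw [h0]
      rcases hε k with h1 | h1 <;> rw [h1] <;> ring

theorem S_signed_sum {v : ℕ → ℕ → ℝ} {ε : ℕ → ℝ} (hε : ∀ i, ε i = 1 ∨ ε i = -1)
    (hdis : ∀ j i i', i < i' → v i j = 0 ∨ v i' j = 0) (k m : ℕ) :
    S m (∑ i ∈ range k, ε i • v i) = ∑ i ∈ range k, S m (v i) := by
  unfold S
  rw [sum_comm]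
  exact sum_congr rfl fun j _ => sq_signed_sum hε (hdis j) k

/-- no reflexive quotient -/
theorem no_refl {Z : Type} [NormedAddCommGroup Z] [NormedSpace ℝ Z] [CompleteSpace Z]
    (hZ : ¬ FiniteDimensional ℝ Z)
    (hrefl : Function.Surjective (NormedSpace.inclusionInDoubleDual ℝ Z))
    (T : EE →L[ℝ] Z) (hT : Function.Surjective T) : False := by
  obtain ⟨c, hc, hpick⟩ := pick hZ T hT
  choose q hq g hg hvan u hu1 hu2 hu3 hlow hδ using hpick
  -- general reduction
  have main : ∀ (φ : ℕ → ℕ) (w : ℕ → ℕ → ℝ) (B : ℝ), (∀ L, L ≤ φ L) → 0 ≤ B →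
      (∀ L j, w L j = 0 ∨ w L j = u (φ L) j) →
      (∀ L, c / 2 ≤ |g (φ L) (T (pe (q (φ L)) (w L)))|) →
      (∀ (M : ℕ → ℕ), StrictMono M → (∀ i, M (i + 1) = q (φ (M i))) → ∀ k m,
        ∑ i ∈ range k, S m (w (M i)) ≤ B ^ 2) → False := by
    intro φ w B hφ hB hw hwlow hwB
    set M : ℕ → ℕ := fun i => Nat.rec 0 (fun _ r => q (φ r)) i with hM
    have hM1 : ∀ i, M (i + 1) = q (φ (M i)) := fun i => rfl
    have hmono : StrictMono M := strictMono_nat_of_lt_succ fun i => by
      rw [hM1]; exact lt_of_le_of_lt (hφ _) (hq _)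
    have hz1 : ∀ i j, j < M i → w (M i) j = 0 := by
      intro i j hj
      rcases hw (M i) j with h | h
      · exact h
      · rw [h]; exact hu1 _ _ (lt_of_lt_of_le hj (hφ _))
    have hz2 : ∀ i j, M (i + 1) ≤ j → w (M i) j = 0 := by
      intro i j hj
      rcases hw (M i) j with h | h
      · exact h
      · rw [h]; exact hu2 _ _ (by rw [← hM1]; exact hj)
    refine core hrefl T hT M hmono (fun i => w (M i)) hz1 (fun i => g (φ (M i))) (fun i => hg _)
      ?_ (c := c / 2) (B := B) (by linarith) hB ?_ ?_ ?_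
    · intro i y
      rw [← PE_pe_le (hφ (M i)) y]
      exact hvan _ _
    · intro i
      rw [hM1]
      exact hwlow _
    · intro i x
      rw [hM1]
      refine (hδ _ x).trans ?_
      have h1 : i ≤ φ (M i) := (hmono.le_apply).trans (hφ _)
      have h2 : (i : ℝ) + 1 ≤ (φ (M i) : ℝ) + 1 := by
        have : (i : ℝ) ≤ φ (M i) := by exact_mod_cast h1
        linarith
      exact div_le_div_of_nonneg_left (norm_nonneg x) (by positivity) h2
    · intro ε hε k m
      rw [S_signed_sum (v := fun i => w (M i)) hε]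
      · exact hwB M hmono hM1 k m
      · intro j i i' hii'
        rcases lt_or_ge j (M (i + 1)) with h | h
        · right
          exact hz1 i' j (lt_of_lt_of_le h (hmono.monotone hii'))
        · left
          exact hz2 i j h
  by_cases hA : ∃ Λ : ℕ, ∀ n0, ∃ n, n0 ≤ n ∧
      c / 2 ≤ |g n (T (pe (q n) (fun j => if rt j < Λ then u n j else 0)))|
  · obtain ⟨Λ, hΛ⟩ := hA
    choose φ hφ1 hφ2 using hΛ
    refine main φ (fun L j => if rt j < Λ then u (φ L) j else 0) (3 * √Λ) hφ1 (by positivity)
      ?_ hφ2 ?_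
    · intro L j
      by_cases h : rt j < Λ
      · right; simp [h]
      · left; simp [h]
    · intro M hmono hM1 k m
      rw [mul_pow, Real.sq_sqrt (Nat.cast_nonneg _)]
      by_cases hm : rt m < Λ
      · unfold S
        rw [sum_comm]
        calc ∑ j ∈ ch m, ∑ i ∈ range k, (if rt j < Λ then u (φ (M i)) j else 0) ^ 2
            ≤ ∑ _j ∈ ch m, (9 : ℝ) := by
              apply sum_le_sum
              intro j hj
              apply sum_le_of_unique (by norm_num)
              · intro i _
                have h1 : (if rt j < Λ then u (φ (M i)) j else 0) ^ 2 ≤ u (φ (M i)) j ^ 2 := by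
                  split_ifs
                  · exact le_rfl
                  · simp [sq_nonneg]
                have h2 : u (φ (M i)) j ^ 2 ≤ S j (u (φ (M i))) :=
                  single_le_sum (f := fun j => u (φ (M i)) j ^ 2) (fun _ _ => sq_nonneg _)
                    (self_mem j)
                exact h1.trans (h2.trans (hu3 _ _))
              · intro i _ i' _ hii'
                rcases lt_or_ge j (M (i + 1)) with h | h
                · right
                  have h1 : j < φ (M i') :=
                    lt_of_lt_of_le (lt_of_lt_of_le h (hmono.monotone hii')) (hφ1 _)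
                  rw [hu1 _ _ h1]; simp
                · left
                  rw [hM1] at h
                  rw [hu2 _ _ h]; simp
          _ = 9 * ((ch m).card : ℝ) := by rw [sum_const, nsmul_eq_mul, mul_comm]
          _ ≤ 3 ^ 2 * (Λ : ℝ) := by
              have h1 : (ch m).card ≤ Λ := (card_le m).trans hm
              have h2 : ((ch m).card : ℝ) ≤ Λ := by exact_mod_cast h1
              linarith
      · have h0 : ∀ i, S m (fun j => if rt j < Λ then u (φ (M i)) j else 0) = 0 := by
          intro i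
          unfold S
          apply sum_eq_zero
          intro j hj
          show (if rt j < Λ then u (φ (M i)) j else 0) ^ 2 = 0
          rw [rt_mem hj, if_neg hm]
          norm_num
        rw [sum_eq_zero fun i _ => h0 i]
        positivity
  · push Not at hA
    choose ν hν using hA
    refine main (fun L => max L (ν L)) (fun L j => if rt j < L then 0 else u (max L (ν L)) j) 3
      (fun L => le_max_left _ _) (by norm_num) ?_ ?_ ?_
    · intro L j
      by_cases h : rt j < L
      · left; simp [h]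
      · right; simp [h]
    · intro L
      set n := max L (ν L) with hn
      have h1 := hν L n (le_max_right _ _)
      have h2 := hlow n
      have h3 : g n (T (pe (q n) (u n))) =
          g n (T (pe (q n) (fun j => if rt j < L then u n j else 0))) +
          g n (T (pe (q n) (fun j => if rt j < L then 0 else u n j))) := by
        rw [← map_add, ← map_add, ← map_add]
        congr 3
        funext j
        simp only [Pi.add_apply]
        split_ifs <;> simp
      rw [h3] at h2
      have h4 := neg_abs_le (g n (T (pe (q n) (fun j => if rt j < L then 0 else u n j))))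
      have h5 := le_abs_self (g n (T (pe (q n) (fun j => if rt j < L then 0 else u n j))))
      have h6 := le_abs_self (g n (T (pe (q n) (fun j => if rt j < L then u n j else 0))))
      linarith
    · intro M hmono hM1 k m
      apply sum_le_of_unique (by norm_num)
      · intro i _
        have h1 : S m (fun j => if rt j < M i then 0 else u (max (M i) (ν (M i))) j) ≤
            S m (u (max (M i) (ν (M i)))) := by
          unfold S
          apply sum_le_sum
          intro j _
          show (if rt j < M i then 0 else u (max (M i) (ν (M i))) j) ^ 2 ≤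
            u (max (M i) (ν (M i))) j ^ 2
          split_ifs
          · simp [sq_nonneg]
          · exact le_rfl
        have h2 := hu3 (max (M i) (ν (M i))) m
        linarith
      · intro i _ i' _ hii'
        rcases lt_or_ge (rt m) (M i') with h | h
        · right
          unfold S
          apply sum_eq_zero
          intro j hj
          show (if rt j < M i' then 0 else u (max (M i') (ν (M i'))) j) ^ 2 = 0
          rw [rt_mem hj, if_pos h]
          norm_num
        · left
          unfold S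
          apply sum_eq_zero
          intro j hj
          have h1 : M (i + 1) ≤ j := by
            have h2 : rt m ≤ j := by rw [← rt_mem hj]; exact rt_le j
            exact ((hmono.monotone hii').trans h).trans h2
          rw [hM1] at h1
          have h3 : u (max (M i) (ν (M i))) j = 0 := hu2 _ _ h1
          show (if rt j < M i then 0 else u (max (M i) (ν (M i))) j) ^ 2 = 0
          rw [h3]
          simp

end Pool.Agent.Lib_helper40.Tree
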